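import Pool.Agent.H95.Wedge.Defs

/-!
The one-arm probability of the tip of a wedge.
-/

namespace Pool.Agent.H95.Wedge

/-- Probability that the tip is connected to distance `k` (to a vertex one of whose coordinates is at
least `k`) in the wedge of `m` squares `{0, …, N}²`, for the FK model at its self-dual point with free
boundary conditions. -/
noncomputable def tipArm (q : ℝ) (m N k : ℕ) : ℝ :=
  fkProb (selfDual q) q (verts m fun _ => N) (edges m fun _ => N)
    fun ω => ∃ v : Vtx, k ≤ max v.2.1 v.2.2 ∧ (openGraph ω).Reachable (0, 0, 0) v

end Pool.Agent.H95.Wedge
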