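import Pool.Agent.H95.Wedge.Defs
import Pool.Agent.H95.SumRule.Orbit

/-!
Corners of the wedge in refined coordinates, the exploration dynamics, generic two-point functions,
boundary sums, and the abstract properties used in the limit argument.
-/

namespace Pool.Agent.H95.Wedge

open Finset

/-! ### corners

The corner with refined coordinates `(k, a, b)` sits at the point `((2 a + 1) / 4, (2 b + 1) / 4)` of quadrant
`k`; it belongs to the vertex with coordinates `((a + 1) / 2, (b + 1) / 2)` of quadrant `k`; the tile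
`head` is the lattice edge met when one turns counterclockwise around that vertex. -/

/-- corners, in refined coordinates -/
abbrev Rp := ℤ × ℕ × ℕ

/-- move across a closed head: turn counterclockwise around the vertex -/
def cls (p : Rp) : Rp :=
  if p.2.1 % 2 = 0 then
    if p.2.2 % 2 = 0 then (if p.2.1 = 0 then (p.1 + 1, p.2.2, 0) else (p.1, p.2.1 - 1, p.2.2))
    else (p.1, p.2.1, p.2.2 + 1)
  else
    if p.2.2 % 2 = 0 then (if p.2.2 = 0 then (p.1 - 1, 0, p.2.1) else (p.1, p.2.1, p.2.2 - 1))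
    else (p.1, p.2.1 + 1, p.2.2)

/-- move along an open head -/
def opn (p : Rp) : Rp :=
  if p.2.1 % 2 = 0 then
    if p.2.2 % 2 = 0 then (p.1, p.2.1, p.2.2 + 1) else (p.1, p.2.1 + 1, p.2.2)
  else
    if p.2.2 % 2 = 0 then (p.1, p.2.1 - 1, p.2.2) else (p.1, p.2.1, p.2.2 - 1)

/-- the other corner with the same head -/
def mate (p : Rp) : Rp :=
  if p.2.1 % 2 = 0 then
    if p.2.2 % 2 = 0 then (if p.2.1 = 0 then (p.1 + 1, p.2.2 + 1, 0) else (p.1, p.2.1 - 1, p.2.2 + 1))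
    else (p.1, p.2.1 + 1, p.2.2 + 1)
  else
    if p.2.2 % 2 = 0 then (if p.2.2 = 0 then (p.1 - 1, 0, p.2.1 - 1) else (p.1, p.2.1 - 1, p.2.2 - 1))
    else (p.1, p.2.1 + 1, p.2.2 - 1)

/-- the vertex of a corner -/
def vtx (p : Rp) : Vtx := pt p.1 ((p.2.1 + 1) / 2) ((p.2.2 + 1) / 2)

/-- the head of a corner -/
def head (p : Rp) : Sym2 Vtx := s(vtx p, vtx (opn p))

/-- side lengths, extended by `0` -/
def Lx (m : ℕ) (L : ℤ → ℕ) (k : ℤ) : ℕ := if 0 ≤ k ∧ k ≤ m then L k else 0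

/-- the corners of the finite wedge -/
noncomputable def K (m : ℕ) (L : ℤ → ℕ) : Finset Rp :=
  (Finset.Icc (-1 : ℤ) m).biUnion fun k =>
    (Finset.range (2 * Lx m L k + 1) ×ˢ Finset.range (2 * Lx m L (k + 1) + 1)).image fun z => (k, z.1, z.2)

lemma mem_K {m : ℕ} {L : ℤ → ℕ} {p : Rp} : p ∈ K m L ↔
    -1 ≤ p.1 ∧ p.1 ≤ m ∧ p.2.1 ≤ 2 * Lx m L p.1 ∧ p.2.2 ≤ 2 * Lx m L (p.1 + 1) := by
  obtain ⟨k, a, b⟩ := p
  simp only [K, mem_biUnion, mem_Icc, mem_image, mem_product, mem_range, Prod.mk.injEq, Prod.exists]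
  constructor
  · rintro ⟨k', h1, a', b', h2, rfl, rfl, rfl⟩
    omega
  · rintro ⟨h1, h2, h3, h4⟩
    exact ⟨k, ⟨h1, h2⟩, a, b, by omega, rfl, rfl, rfl⟩

/-- first corner -/
def x0 : Rp := (-1, 0, 0)

/-- last corner -/
def xe (m : ℕ) : Rp := ((m : ℤ), 0, 0)

section
variable (m : ℕ) (ω : Finset (Sym2 Vtx))

/-- the exploration step -/
def raw (p : Rp) : Rp := if head p ∈ ω then opn p else cls p

/-- the exploration step, closed up at the tip -/
def stp (p : Rp) : Rp := Equiv.swap x0 ((m : ℤ) + 1, 0, 0) (raw ω p)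

/-- the turn at a corner -/
def eps (p : Rp) : ℤ := if head p ∈ ω then -1 else 1

end

/-- the direction of the head of a boundary corner -/
def dir (p : Rp) : ℤ := if p.2.2 % 2 = 0 then p.1 + 1 else p.1

/-! ### two-point functions -/

/-- the edges of `E` join distinct vertices of `V` -/
def Good {α : Type*} (V : Finset α) (E : Finset (Sym2 α)) : Prop :=
  ∀ x y, s(x, y) ∈ E → x ∈ V ∧ y ∈ V ∧ x ≠ y

/-- self-dual weight -/
noncomputable def W {α : Type*} (q : ℝ) (V : Finset α) (ω : Finset (Sym2 α)) : ℝ :=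
  fkWeight (selfDual q) q V ω

/-- two-point function of the self-dual model with free boundary conditions -/
noncomputable def G {α : Type*} (q : ℝ) (V : Finset α) (E : Finset (Sym2 α)) (x y : α) : ℝ :=
  fkProb (selfDual q) q V E fun ω => (openGraph ω).Reachable x y

/-- lower bound for the probability that an edge is open -/
noncomputable def ce (q : ℝ) : ℝ := 1 / (1 + √q)

/-- two-point function between the tip and a vertex -/
noncomputable def GW (q : ℝ) (m : ℕ) (L : ℤ → ℕ) (v : Vtx) : ℝ :=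
  G q (verts m L) (edges m L) (0, 0, 0) v

/-- sum of the two-point function over the side of direction `j`; `j = -1` and `j = m + 1` are the two
boundary rays -/
noncomputable def F (q : ℝ) (m : ℕ) (L : ℤ → ℕ) (j : ℤ) : ℝ :=
  (if 0 ≤ j then ∑ i ∈ Finset.Icc (if j = m + 1 then 1 else 0) (Lx m L (j - 1)),
      GW q m L (pt (j - 1) i (Lx m L j)) else 0) +
  (if j ≤ m then ∑ i ∈ Finset.Icc 1 (Lx m L (j + 1)), GW q m L (pt j (Lx m L j) i) else 0)

/-! ### the abstract limit argument -/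

/-- Chebyshev polynomial of the second kind at `r / 2` -/
noncomputable def Ur (r : ℝ) (n : ℤ) : ℝ := (Polynomial.Chebyshev.U ℝ n).eval (r / 2)

open Filter Topology in
/-- abstract properties of the boundary sums -/
structure WS (m : ℕ) (r : ℝ) (F : (ℤ → ℕ) → ℤ → ℝ) : Prop where
  nonneg : ∀ L (j : ℤ), 0 ≤ F L j
  mono : ∀ L L' (j : ℤ), (∀ i : ℤ, 0 ≤ i → i ≤ m → L i ≤ L' i) → (0 ≤ j → j ≤ m → L j = L' j) →
    F L j ≤ F L' j
  bdd : ∀ L (j : ℤ), F L j ≤ Lx m L (j - 1) + Lx m L (j + 1) + 1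
  ident : ∀ φ : ℤ → ℝ, (∀ t, φ (t + 1) + φ (t - 1) = r * φ t) → ∀ L,
    ∑ j ∈ Finset.Icc (-1 : ℤ) (m + 1), φ j * F L j = ∑ j ∈ Finset.Icc (0 : ℤ) m, φ j
  decay : ∀ L (a : ℤ), 0 ≤ a → a ≤ m → (∃ C, ∀ N : ℕ, F (Function.update L a N) (a - 1) ≤ C) →
    Tendsto (fun N : ℕ => F (Function.update L a N) a) atTop (𝓝 0)
  sym : ∀ N : ℕ, F (fun _ => N) (-1) = F (fun _ => N) (m + 1)

end Pool.Agent.H95.Wedge
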