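import Pool.Agent.H95.Wedge.DynDefs

/-!
The abstract limit argument.
-/

namespace Pool.Agent.H95.Wedge

open Finset Function Filter Topology

namespace Block

lemma Ur_rec (r : ℝ) (t : ℤ) : Ur r (t + 1) + Ur r (t - 1) = r * Ur r t := by
  unfold Ur
  rw [Polynomial.Chebyshev.U_add_one]
  simp only [Polynomial.eval_sub, Polynomial.eval_mul, Polynomial.eval_ofNat, Polynomial.eval_X]
  ring

lemma Ur_zero (r : ℝ) : Ur r 0 = 1 := by simp [Ur]

lemma Ur_neg_one (r : ℝ) : Ur r (-1) = 0 := by simp [Ur]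

lemma Ur_neg_two (r : ℝ) : Ur r (-2) = -1 := by simp [Ur]

lemma rec_right (r : ℝ) (c t : ℤ) :
    Ur r (t + 1 - c) + Ur r (t - 1 - c) = r * Ur r (t - c) := by
  have := Ur_rec r (t - c)
  rw [show t + 1 - c = t - c + 1 by ring, show t - 1 - c = t - c - 1 by ring]
  exact this

lemma rec_left (r : ℝ) (c t : ℤ) :
    Ur r (c - (t + 1)) + Ur r (c - (t - 1)) = r * Ur r (c - t) := by
  have := Ur_rec r (c - t)
  rw [show c - (t + 1) = c - t - 1 by ring, show c - (t - 1) = c - t + 1 by ring]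
  linarith

/-- the configuration with sides `N` in the block `S` -/
def blk (S : Finset ℤ) (L : ℤ → ℕ) (N : ℕ) : ℤ → ℕ := fun i => if i ∈ S then N else L i

variable {m : ℕ} {r : ℝ} {F : (ℤ → ℕ) → ℤ → ℝ}

/-- outside of the block the sums are nondecreasing -/
lemma mono_out (h : WS m r F) {S : Finset ℤ} (L : ℤ → ℕ) {j : ℤ} (hj : j ∉ S) :
    Monotone fun N => F (blk S L N) j := by
  intro N N' hN
  refine h.mono _ _ j (fun i _ _ => ?_) (fun _ _ => ?_)
  · unfold blk
    split_ifs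
    · exact hN
    · exact le_rfl
  · unfold blk
    rw [if_neg hj, if_neg hj]

/-- the identity for the limits outside of the block -/
lemma limit_ident (h : WS m r F) {S : Finset ℤ} (hS : S ⊆ Icc 0 (m : ℤ)) {c : ℤ} (hc : c ∈ S)
    {φ : ℤ → ℝ} (hφ : ∀ t, φ (t + 1) + φ (t - 1) = r * φ t) (hφc : φ c = 0)
    (hV : ∀ L, ∀ j ∈ S.erase c, Tendsto (fun N => F (blk (S.erase c) L N) j) atTop (𝓝 0))
    (L : ℤ → ℕ) {ρ : ℤ → ℝ}
    (hρ : ∀ j ∈ Icc (-1 : ℤ) (m + 1) \ S, Tendsto (fun N => F (blk S L N) j) atTop (𝓝 (ρ j))) :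
    ∑ j ∈ Icc (-1 : ℤ) (m + 1) \ S, φ j * ρ j = ∑ j ∈ Icc (0 : ℤ) m, φ j := by
  set O := Icc (-1 : ℤ) (m + 1) \ S with hO
  have hsub : S ⊆ Icc (-1 : ℤ) (m + 1) := fun j hj => by
    have := hS hj
    rw [mem_Icc] at this ⊢
    omega
  have key : ∀ M : ℕ, |∑ j ∈ Icc (0 : ℤ) m, φ j - ∑ j ∈ O, φ j * ρ j| ≤
      ∑ j ∈ O, |φ j| * (ρ j - F (blk S L M) j) := by
    intro M
    set L' := update L c M with hL'
    have hid : ∀ N, ∑ j ∈ O, φ j * F (blk (S.erase c) L' N) j =
        ∑ j ∈ Icc (0 : ℤ) m, φ j - ∑ j ∈ S.erase c, φ j * F (blk (S.erase c) L' N) j := by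
      intro N
      have h1 := h.ident φ hφ (blk (S.erase c) L' N)
      rw [← sum_sdiff hsub, ← add_sum_erase S _ hc, hφc, zero_mul, zero_add] at h1
      linarith
    have ht : Tendsto (fun N => ∑ j ∈ O, φ j * F (blk (S.erase c) L' N) j) atTop
        (𝓝 (∑ j ∈ Icc (0 : ℤ) m, φ j)) := by
      have h2 : Tendsto (fun N => ∑ j ∈ S.erase c, φ j * F (blk (S.erase c) L' N) j) atTop
          (𝓝 (∑ j ∈ S.erase c, φ j * 0)) :=
        tendsto_finsetSum _ fun j hj => (hV L' j hj).const_mul _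
      simp only [mul_zero, sum_const_zero] at h2
      have h3 := h2.const_sub (∑ j ∈ Icc (0 : ℤ) m, φ j)
      rw [sub_zero] at h3
      exact h3.congr fun N => (hid N).symm
    have ht' := (ht.sub_const (∑ j ∈ O, φ j * ρ j)).abs
    refine le_of_tendsto ht' ?_
    filter_upwards [eventually_ge_atTop M] with N hN
    rw [← sum_sub_distrib]
    refine (abs_sum_le_sum_abs _ _).trans (sum_le_sum fun j hj => ?_)
    rw [← mul_sub, abs_mul]
    refine mul_le_mul_of_nonneg_left ?_ (abs_nonneg _)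
    have hjS : j ∉ S := (mem_sdiff.1 hj).2
    have hjc : j ≠ c := fun e => hjS (e ▸ hc)
    have h1 : F (blk S L M) j ≤ F (blk (S.erase c) L' N) j := by
      refine h.mono _ _ j (fun i _ _ => ?_) (fun _ _ => ?_)
      · unfold blk
        by_cases hi : i = c
        · subst hi
          simp [hL', hc]
        · simp only [mem_erase, ne_eq, hi, not_false_eq_true, true_and, hL', update_of_ne hi]
          split_ifs
          · exact hN
          · exact le_rfl
      · unfold blk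
        simp [hjS, hL', hjc]
    have h2 : F (blk (S.erase c) L' N) j ≤ F (blk S L N) j := by
      refine h.mono _ _ j (fun i _ _ => ?_) (fun _ _ => ?_)
      · unfold blk
        by_cases hi : i = c
        · subst hi
          simp [hL', hc, hN]
        · simp only [mem_erase, ne_eq, hi, not_false_eq_true, true_and, hL', update_of_ne hi]
          exact le_rfl
      · unfold blk
        simp [hjS, hL', hjc]
    have h3 : F (blk S L N) j ≤ ρ j := (mono_out h L hjS).ge_of_tendsto (hρ j hj) N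
    rw [abs_sub_comm, abs_of_nonneg (by linarith)]
    linarith
  have hE : Tendsto (fun M => ∑ j ∈ O, |φ j| * (ρ j - F (blk S L M) j)) atTop
      (𝓝 (∑ j ∈ O, |φ j| * (ρ j - ρ j))) :=
    tendsto_finsetSum _ fun j hj => ((hρ j hj).const_sub _).const_mul _
  simp only [sub_self, mul_zero, sum_const_zero] at hE
  have h0 := ge_of_tendsto' hE key
  have h1 := abs_nonpos_iff.1 h0
  linarith

lemma block_step (h : WS m r F) {S : Finset ℤ} (hS : S ⊆ Icc 0 (m : ℤ)) {c : ℤ} (hc : c ∈ S)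
    {φ : ℤ → ℝ} (hφ : ∀ t, φ (t + 1) + φ (t - 1) = r * φ t) (hφc : φ c = 0)
    (hpos : ∀ j ∈ S.erase c, 0 < φ j)
    (hV : ∀ L, ∀ j ∈ S.erase c, Tendsto (fun N => F (blk (S.erase c) L N) j) atTop (𝓝 0))
    (L : ℤ → ℕ) (hb : ∀ j ∈ Icc (-1 : ℤ) (m + 1) \ S, ∃ C, ∀ N, F (blk S L N) j ≤ C) :
    ∀ j ∈ S.erase c, Tendsto (fun N => F (blk S L N) j) atTop (𝓝 0) := by
  have hsub : S ⊆ Icc (-1 : ℤ) (m + 1) := fun j hj => by
    have := hS hj
    rw [mem_Icc] at this ⊢
    omega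
  have hρ : ∀ j ∈ Icc (-1 : ℤ) (m + 1) \ S,
      Tendsto (fun N => F (blk S L N) j) atTop (𝓝 (⨆ N, F (blk S L N) j)) := by
    intro j hj
    obtain ⟨C, hC⟩ := hb j hj
    refine tendsto_atTop_ciSup (mono_out h L (mem_sdiff.1 hj).2) ⟨C, ?_⟩
    rintro _ ⟨N, rfl⟩
    exact hC N
  have hid := limit_ident h hS hc hφ hφc hV L hρ
  have hT : Tendsto (fun N => ∑ j ∈ S.erase c, φ j * F (blk S L N) j) atTop (𝓝 0) := by
    have h1 : Tendsto (fun N => ∑ j ∈ Icc (-1 : ℤ) (m + 1) \ S, φ j * F (blk S L N) j) atTop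
        (𝓝 (∑ j ∈ Icc (-1 : ℤ) (m + 1) \ S, φ j * (⨆ N, F (blk S L N) j))) :=
      tendsto_finsetSum _ fun j hj => (hρ j hj).const_mul _
    have h2 := h1.const_sub (∑ j ∈ Icc (0 : ℤ) m, φ j)
    rw [hid, sub_self] at h2
    refine h2.congr fun N => ?_
    have h3 := h.ident φ hφ (blk S L N)
    rw [← sum_sdiff hsub, ← add_sum_erase S _ hc, hφc, zero_mul, zero_add] at h3
    linarith
  intro j hj
  have h1 : Tendsto (fun N => (φ j)⁻¹ * ∑ j ∈ S.erase c, φ j * F (blk S L N) j) atTop (𝓝 0) := by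
    have := hT.const_mul (φ j)⁻¹
    rwa [mul_zero] at this
  refine squeeze_zero (fun N => h.nonneg _ _) (fun N => ?_) h1
  have h2 : φ j * F (blk S L N) j ≤ ∑ j ∈ S.erase c, φ j * F (blk S L N) j :=
    single_le_sum (f := fun j => φ j * F (blk S L N) j)
      (fun i hi => mul_nonneg (hpos i hi).le (h.nonneg _ _)) hj
  have h3 := hpos j hj
  rw [← div_eq_inv_mul, le_div_iff₀ h3, mul_comm]
  exact h2

lemma Ur_pos' {n : ℕ} (hU : ∀ j : ℕ, j ≤ n → 0 < Ur r j) {t : ℤ} (h0 : 0 ≤ t) (h1 : t ≤ n) :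
    0 < Ur r t := by
  obtain ⟨k, rfl⟩ := Int.eq_ofNat_of_zero_le h0
  exact hU k (by omega)

lemma bounded (h : WS m r F) {n : ℕ} (hU : ∀ j : ℕ, j ≤ n + 1 → 0 < Ur r j) {a b : ℤ}
    (ha : 0 ≤ a) (hab : b = a + n) (hb : b ≤ m) (L : ℤ → ℕ) (j : ℤ) :
    ∃ C, ∀ N, F (blk (Icc a b) L N) j ≤ C := by
  have hout : ∀ i : ℤ, i ∉ Icc (a - 1) (b + 1) → ∀ N, F (blk (Icc a b) L N) i ≤
      Lx m L (i - 1) + Lx m L (i + 1) + 1 := by
    intro i hi N
    rw [mem_Icc] at hi
    have h1 := h.bdd (blk (Icc a b) L N) i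
    have h2 : Lx m (blk (Icc a b) L N) (i - 1) = Lx m L (i - 1) := by
      have : i - 1 ∉ Icc a b := by rw [mem_Icc]; omega
      simp only [Lx, blk, this, if_false]
    have h3 : Lx m (blk (Icc a b) L N) (i + 1) = Lx m L (i + 1) := by
      have : i + 1 ∉ Icc a b := by rw [mem_Icc]; omega
      simp only [Lx, blk, this, if_false]
    rwa [h2, h3] at h1
  by_cases hj : j ∈ Icc (a - 1) (b + 1)
  · set φ : ℤ → ℝ := fun t => Ur r (t - a) + Ur r (b - t) with hφd
    have hφ : ∀ t, φ (t + 1) + φ (t - 1) = r * φ t := by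
      intro t
      have h1 := rec_right r a t
      have h2 := rec_left r b t
      simp only [hφd]
      linarith
    have hpos : ∀ t ∈ Icc (a - 1) (b + 1), 0 < φ t := by
      intro t ht
      rw [mem_Icc] at ht
      have hn : ∀ s : ℤ, -1 ≤ s → s ≤ n + 1 → 0 ≤ Ur r s := by
        intro s h1 h2
        rcases eq_or_lt_of_le h1 with h3 | h3
        · rw [← h3, Ur_neg_one]
        · exact (Ur_pos' (n := n + 1) hU (by omega) (by push_cast; omega)).le
      simp only [hφd]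
      rcases eq_or_lt_of_le ht.1 with h3 | h3
      · have h4 : 0 < Ur r (b - t) := Ur_pos' (n := n + 1) hU (by omega) (by push_cast; omega)
        have h5 := hn (t - a) (by omega) (by omega)
        linarith
      · have h4 : 0 < Ur r (t - a) := Ur_pos' (n := n + 1) hU (by omega) (by push_cast; omega)
        have h5 := hn (b - t) (by omega) (by omega)
        linarith
    have hsub : Icc (a - 1) (b + 1) ⊆ Icc (-1 : ℤ) (m + 1) := fun i hi => by
      rw [mem_Icc] at hi ⊢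
      omega
    refine ⟨(φ j)⁻¹ * (∑ i ∈ Icc (0 : ℤ) m, φ i +
      ∑ i ∈ Icc (-1 : ℤ) (m + 1) \ Icc (a - 1) (b + 1),
        |φ i| * (Lx m L (i - 1) + Lx m L (i + 1) + 1)), fun N => ?_⟩
    have h1 : φ j * F (blk (Icc a b) L N) j ≤
        ∑ i ∈ Icc (a - 1) (b + 1), φ i * F (blk (Icc a b) L N) i :=
      single_le_sum (f := fun i => φ i * F (blk (Icc a b) L N) i)
        (fun i hi => mul_nonneg (hpos i hi).le (h.nonneg _ _)) hj
    have h2 := h.ident φ hφ (blk (Icc a b) L N)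
    rw [← sum_sdiff hsub] at h2
    have h3 : -∑ i ∈ Icc (-1 : ℤ) (m + 1) \ Icc (a - 1) (b + 1),
        φ i * F (blk (Icc a b) L N) i ≤ ∑ i ∈ Icc (-1 : ℤ) (m + 1) \ Icc (a - 1) (b + 1),
        |φ i| * (Lx m L (i - 1) + Lx m L (i + 1) + 1) := by
      rw [← sum_neg_distrib]
      refine sum_le_sum fun i hi => ?_
      have h4 := hout i (mem_sdiff.1 hi).2 N
      have h5 := h.nonneg (blk (Icc a b) L N) i
      calc -(φ i * F (blk (Icc a b) L N) i) = (-φ i) * F (blk (Icc a b) L N) i := by ring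
        _ ≤ |φ i| * F (blk (Icc a b) L N) i := by
          gcongr
          exact neg_le_abs _
        _ ≤ _ := by gcongr
    have h6 := hpos j hj
    rw [← div_eq_inv_mul, le_div_iff₀ h6, mul_comm]
    linarith
  · exact ⟨_, hout j hj⟩

theorem block_zero (h : WS m r F) (n : ℕ) : (∀ j : ℕ, j ≤ n + 1 → 0 < Ur r j) →
    ∀ a b : ℤ, 0 ≤ a → b = a + n → b ≤ m → ∀ L, ∀ j ∈ Icc a b,
      Tendsto (fun N => F (blk (Icc a b) L N) j) atTop (𝓝 0) := by
  induction n with
  | zero =>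
    intro hU a b ha hab hb L j hj
    have hba : b = a := by simpa using hab
    subst hba
    rw [Icc_self, mem_singleton] at hj
    subst hj
    have h1 : ∀ N, blk (Icc j j) L N = update L j N := by
      intro N
      funext i
      unfold blk
      by_cases hi : i = j
      · subst hi
        simp
      · rw [update_of_ne hi, if_neg (by rw [Icc_self, mem_singleton]; exact hi)]
    obtain ⟨C, hC⟩ := bounded h hU ha hab hb L (j - 1)
    have h2 := h.decay L j ha hb ⟨C, fun N => by rw [← h1]; exact hC N⟩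
    exact h2.congr fun N => by rw [h1]
  | succ n ih =>
    intro hU a b ha hab hb L j hj
    have ih' := ih (fun j hj => hU j (by omega))
    have hS : Icc a b ⊆ Icc 0 (m : ℤ) := fun i hi => by
      rw [mem_Icc] at hi ⊢
      omega
    push_cast at hab
    have e1 : (Icc a b).erase a = Icc (a + 1) b := by
      ext i
      simp only [mem_erase, mem_Icc]
      omega
    have e2 : (Icc a b).erase b = Icc a (b - 1) := by
      ext i
      simp only [mem_erase, mem_Icc]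
      omega
    have hbd : ∀ j ∈ Icc (-1 : ℤ) (m + 1) \ Icc a b, ∃ C, ∀ N, F (blk (Icc a b) L N) j ≤ C :=
      fun j _ => bounded h hU ha (by push_cast; omega) hb L j
    have hU' : ∀ {t : ℤ}, 0 ≤ t → t ≤ n → 0 < Ur r t := fun h0 h1 =>
      Ur_pos' (n := n) (fun j hj => hU j (by omega)) h0 h1
    rw [mem_Icc] at hj
    by_cases hja : j = a
    · -- mirror image
      refine block_step h hS (c := b) (by rw [mem_Icc]; omega) (φ := fun t => Ur r (b - 1 - t))
        (rec_left r (b - 1)) (by simp only [show b - 1 - b = -1 by ring, Ur_neg_one]) ?_ ?_ L hbd j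
        (by rw [e2, mem_Icc]; omega)
      · intro i hi
        rw [e2, mem_Icc] at hi
        exact hU' (by omega) (by omega)
      · rw [e2]
        exact ih' a (b - 1) ha (by omega) (by omega)
    · refine block_step h hS (c := a) (by rw [mem_Icc]; omega) (φ := fun t => Ur r (t - (a + 1)))
        (rec_right r (a + 1)) (by simp only [show a - (a + 1) = -1 by ring, Ur_neg_one]) ?_ ?_ L
        hbd j (by rw [e1, mem_Icc]; omega)
      · intro i hi
        rw [e1, mem_Icc] at hi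
        exact hU' (by omega) (by omega)
      · rw [e1]
        exact ih' (a + 1) b (by omega) (by omega) hb

lemma eq_const (h : WS m r F) (N : ℕ) (j : ℤ) :
    F (blk (Icc 0 (m : ℤ)) (fun _ => 0) N) j = F (fun _ => N) j := by
  refine le_antisymm (h.mono _ _ j (fun i h0 h1 => ?_) fun h0 h1 => ?_)
    (h.mono _ _ j (fun i h0 h1 => ?_) fun h0 h1 => ?_) <;>
  · unfold blk
    rw [if_pos (by rw [mem_Icc]; exact ⟨h0, h1⟩)]

lemma sum_Icc_Ur (m : ℕ) (f : ℤ → ℝ) : ∑ j ∈ Icc (0 : ℤ) m, f j = ∑ i ∈ range (m + 1), f i := by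
  symm
  refine sum_bij (fun i _ => (i : ℤ)) (fun i hi => ?_) (fun i _ j _ e => ?_) (fun j hj => ?_)
    fun i _ => rfl
  · rw [mem_range] at hi
    rw [mem_Icc]
    omega
  · exact_mod_cast e
  · rw [mem_Icc] at hj
    obtain ⟨k, rfl⟩ := Int.eq_ofNat_of_zero_le hj.1
    exact ⟨k, by rw [mem_range]; omega, rfl⟩

end Block

open Block

theorem WS.limit {m : ℕ} {r : ℝ} {F : (ℤ → ℕ) → ℤ → ℝ} (h : WS m r F) (hm : 1 ≤ m)
    (hU : ∀ j : ℕ, j ≤ m + 1 → 0 < Ur r j) :
    Tendsto (fun N : ℕ => F (fun _ => N) (-1)) atTop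
      (𝓝 ((∑ i ∈ range (m + 1), Ur r i) / Ur r (m + 1))) := by
  have hz := block_zero h m hU 0 m le_rfl (by omega) le_rfl (fun _ => 0)
  have hsum : ∀ N : ℕ, F (fun _ => N) (-1) = ((∑ i ∈ range (m + 1), Ur r i) -
      ∑ j ∈ Icc (0 : ℤ) m, Ur r (m - j) * F (blk (Icc 0 (m : ℤ)) (fun _ => 0) N) j) /
        Ur r (m + 1) := by
    intro N
    have h1 := h.ident (fun t => Ur r (m - t)) (rec_left r m) (blk (Icc 0 (m : ℤ)) (fun _ => 0) N)
    have h2 : Icc (-1 : ℤ) (m + 1) = insert (-1) (insert ((m : ℤ) + 1) (Icc (0 : ℤ) m)) := by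
      ext i
      simp only [mem_insert, mem_Icc]
      omega
    rw [h2, sum_insert (by simp only [mem_insert, mem_Icc]; omega),
      sum_insert (by simp only [mem_Icc]; omega)] at h1
    rw [show (m : ℤ) - -1 = m + 1 by ring, show (m : ℤ) - (m + 1) = -1 by ring, Ur_neg_one,
      zero_mul, zero_add, eq_const h] at h1
    have h3 : ∑ j ∈ Icc (0 : ℤ) m, Ur r (m - j) = ∑ i ∈ range (m + 1), Ur r i := by
      rw [sum_Icc_Ur, ← sum_range_reflect]
      refine sum_congr rfl fun i hi => ?_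
      rw [mem_range] at hi
      congr 1
      omega
    rw [h3] at h1
    have h4 : (0 : ℝ) < Ur r (m + 1) := by exact_mod_cast hU (m + 1) le_rfl
    rw [eq_div_iff h4.ne']
    linarith
  have h5 : Tendsto (fun N : ℕ => ∑ j ∈ Icc (0 : ℤ) m, Ur r (m - j) *
      F (blk (Icc 0 (m : ℤ)) (fun _ => 0) N) j) atTop (𝓝 (∑ j ∈ Icc (0 : ℤ) m, Ur r (m - j) * 0)) :=
    tendsto_finsetSum _ fun j hj => (hz j hj).const_mul _
  simp only [mul_zero, sum_const_zero] at h5
  have h6 := (h5.const_sub (∑ i ∈ range (m + 1), Ur r i)).div_const (Ur r (m + 1))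
  rw [sub_zero] at h6
  exact h6.congr fun N => (hsum N).symm

theorem WS.unbounded {m : ℕ} {r : ℝ} {F : (ℤ → ℕ) → ℤ → ℝ} (h : WS m r F) (hm : 1 ≤ m)
    (hU : ∀ j : ℕ, j ≤ m → 0 < Ur r j) (hU2 : Ur r m ≤ 1) :
    ¬ ∃ C, ∀ N : ℕ, F (fun _ => N) (-1) ≤ C := by
  rintro ⟨C, hC⟩
  obtain ⟨n, rfl⟩ : ∃ n, m = n + 1 := ⟨m - 1, by omega⟩
  set S : Finset ℤ := Icc 0 ((n + 1 : ℕ) : ℤ) with hS
  have e1 : S.erase 0 = Icc (0 + 1) ((n + 1 : ℕ) : ℤ) := by
    ext i
    simp only [hS, mem_erase, mem_Icc]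
    omega
  have hV : ∀ L, ∀ j ∈ S.erase 0, Tendsto (fun N => F (blk (S.erase 0) L N) j) atTop (𝓝 0) := by
    rw [e1]
    exact block_zero h n hU (0 + 1) _ (by omega) (by push_cast; ring) le_rfl
  have hO : Icc (-1 : ℤ) (((n + 1 : ℕ) : ℤ) + 1) \ S = {-1, ((n + 1 : ℕ) : ℤ) + 1} := by
    ext i
    rw [hS, Finset.mem_sdiff, mem_Icc, mem_Icc, mem_insert, mem_singleton]
    push_cast
    omega
  have hn1 : (-1 : ℤ) ∉ S := by
    rw [hS, mem_Icc]
    omega
  have hl : Tendsto (fun N => F (blk S (fun _ => 0) N) (-1)) atTop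
      (𝓝 (⨆ N, F (blk S (fun _ => 0) N) (-1))) := by
    refine tendsto_atTop_ciSup (mono_out h _ hn1) ⟨C, ?_⟩
    rintro _ ⟨N, rfl⟩
    exact (eq_const h N (-1)).le.trans (hC N)
  set ρ := ⨆ N, F (blk S (fun _ => 0) N) (-1) with hρd
  have hρ : ∀ j ∈ Icc (-1 : ℤ) (((n + 1 : ℕ) : ℤ) + 1) \ S,
      Tendsto (fun N => F (blk S (fun _ => 0) N) j) atTop (𝓝 ρ) := by
    intro j hj
    rw [hO, mem_insert, mem_singleton] at hj
    rcases hj with rfl | rfl
    · exact hl
    · refine hl.congr fun N => ?_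
      rw [eq_const h, eq_const h]
      exact h.sym N
  have hid := limit_ident h (S := S) (c := 0) subset_rfl (by rw [hS, mem_Icc]; omega)
    (φ := fun t => Ur r (t - 1)) (rec_right r 1)
    (by simp only [show (0 : ℤ) - 1 = -1 by ring, Ur_neg_one]) hV (fun _ => 0) (ρ := fun _ => ρ) hρ
  rw [hO, sum_insert (by rw [mem_singleton]; omega), sum_singleton, sum_Icc_Ur,
    sum_range_succ'] at hid
  simp only [show (-1 : ℤ) - 1 = -2 by ring, Ur_neg_two, Nat.cast_zero,
    show (0 : ℤ) - 1 = -1 by ring, Ur_neg_one, add_sub_cancel_right] at hid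
  have hρ0 : 0 ≤ ρ := ge_of_tendsto' hl fun N => h.nonneg _ _
  have h1 : 0 < ∑ i ∈ range (n + 1), Ur r (((i + 1 : ℕ) : ℤ) - 1) := by
    refine sum_pos (fun i hi => ?_) ⟨0, by simp⟩
    rw [mem_range] at hi
    rw [show ((i + 1 : ℕ) : ℤ) - 1 = (i : ℕ) by push_cast; ring]
    exact hU i (by omega)
  have h2 : Ur r ((n + 1 : ℕ) : ℤ) * ρ ≤ 1 * ρ := by gcongr
  linarith

end Pool.Agent.H95.Wedge
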