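import Pool.Agent.H95.Wedge.DynDefs

namespace Pool.Agent.H95.Wedge

open Finset Function Filter Topology

/-! ## module Cheb -/

theorem Ur_zero' (r : ℝ) : Ur r 0 = 1 := by
  simp [Ur]

theorem Ur_one' (r : ℝ) : Ur r 1 = r := by
  simp [Ur]
  ring

theorem Ur_rec' (r : ℝ) (n : ℤ) : Ur r (n + 2) = r * Ur r (n + 1) - Ur r n := by
  unfold Ur
  rw [Polynomial.Chebyshev.U_add_two]
  simp only [Polynomial.eval_sub, Polynomial.eval_mul, Polynomial.eval_X, Polynomial.eval_ofNat]
  ring

theorem Ur_cos' {r : ℝ} (h1 : -1 ≤ r / 2) (h2 : r / 2 ≤ 1) (n : ℤ) :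
    Ur r n * Real.sin (Real.arccos (r / 2)) = Real.sin ((n + 1) * Real.arccos (r / 2)) := by
  have h := Polynomial.Chebyshev.U_real_cos (Real.arccos (r / 2)) n
  rw [Real.cos_arccos h1 h2] at h
  exact h

theorem Ur_ge_two' {r : ℝ} (hr : 2 ≤ r) (j : ℕ) :
    1 ≤ Ur r j ∧ 0 ≤ Ur r (j + 1 : ℤ) - Ur r j := by
  induction j with
  | zero =>
    have h0 := Ur_zero' r
    have h1 := Ur_one' r
    simp only [Nat.cast_zero, zero_add]
    rw [h0, h1]
    constructor <;> linarith
  | succ j ih =>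
    have h := Ur_rec' r j
    have e1 : ((j + 1 : ℕ) : ℤ) = (j : ℤ) + 1 := by push_cast; ring
    have e2 : ((j + 1 : ℕ) : ℤ) + 1 = (j : ℤ) + 2 := by push_cast; ring
    rw [e2, e1, h]
    obtain ⟨ha, hb⟩ := ih
    constructor
    · linarith
    · nlinarith

theorem Ur_pos {r : ℝ} {n : ℕ} (h : 2 * Real.cos (Real.pi / (n + 1)) < r) (j : ℕ) (hj : j ≤ n) :
    0 < Ur r j := by
  by_cases hr : 2 ≤ r
  · have := (Ur_ge_two' hr j).1
    linarith
  · push_neg at hr
    have hpi := Real.pi_pos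
    have hn : (0 : ℝ) < (n : ℝ) + 1 := by positivity
    have hx0 : 0 ≤ Real.pi / (n + 1) := by positivity
    have hx1 : Real.pi / (n + 1) ≤ Real.pi := by
      apply div_le_self hpi.le
      have : (0 : ℝ) ≤ (n : ℝ) := by positivity
      linarith
    have h1 : -1 ≤ r / 2 := by
      have := Real.neg_one_le_cos (Real.pi / (n + 1))
      linarith
    have h2 : r / 2 < 1 := by linarith
    have hth0 : 0 < Real.arccos (r / 2) := Real.arccos_pos.mpr h2
    have hth1 : Real.arccos (r / 2) < Real.pi / (n + 1) := by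
      have h3 : Real.cos (Real.pi / (n + 1)) < r / 2 := by linarith
      have h4 : Real.cos (Real.pi / (n + 1)) < Real.cos (Real.arccos (r / 2)) := by
        rw [Real.cos_arccos h1 h2.le]
        exact h3
      by_contra hcon
      push_neg at hcon
      have := Real.cos_le_cos_of_nonneg_of_le_pi hx0 (Real.arccos_le_pi _) hcon
      linarith
    have hs : 0 < Real.sin (Real.arccos (r / 2)) := by
      apply Real.sin_pos_of_pos_of_lt_pi hth0
      exact lt_of_lt_of_le hth1 hx1
    have hs2 : 0 < Real.sin (((j : ℤ) + 1) * Real.arccos (r / 2)) := by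
      apply Real.sin_pos_of_pos_of_lt_pi
      · have : (0 : ℝ) < ((j : ℤ) : ℝ) + 1 := by
          push_cast
          positivity
        positivity
      · have hjn : ((j : ℤ) : ℝ) + 1 ≤ (n : ℝ) + 1 := by
          push_cast
          have : (j : ℝ) ≤ n := by exact_mod_cast hj
          linarith
        calc (((j : ℤ) : ℝ) + 1) * Real.arccos (r / 2) ≤ ((n : ℝ) + 1) * Real.arccos (r / 2) :=
              mul_le_mul_of_nonneg_right hjn hth0.le
          _ < ((n : ℝ) + 1) * (Real.pi / (n + 1)) := mul_lt_mul_of_pos_left hth1 hn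
          _ = Real.pi := by field_simp
    have key := Ur_cos' h1 h2.le (j : ℤ)
    rw [← key] at hs2
    exact pos_of_mul_pos_left hs2 hs.le

theorem cos_two_le' {m : ℕ} : 0 ≤ Real.cos (Real.pi / (m + 2)) := by
  apply Real.cos_nonneg_of_neg_pi_div_two_le_of_le
  · have : 0 ≤ Real.pi / (m + 2) := by positivity
    have := Real.pi_pos
    linarith
  · apply div_le_div_of_nonneg_left Real.pi_pos.le (by norm_num)
    have : (0 : ℝ) ≤ (m : ℝ) := by positivity
    linarith

theorem Ur_le_one {r : ℝ} {m : ℕ} (hm : 1 ≤ m) (h1 : 2 * Real.cos (Real.pi / (m + 1)) < r)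
    (h2 : r ≤ 2 * Real.cos (Real.pi / (m + 2))) : Ur r m ≤ 1 := by
  have hpi := Real.pi_pos
  have hm1 : (1 : ℝ) ≤ m := by exact_mod_cast hm
  have hr1 : -1 ≤ r / 2 := by
    have := Real.neg_one_le_cos (Real.pi / (m + 1))
    linarith
  have hc2 := Real.cos_le_one (Real.pi / (m + 2))
  have hr2 : r / 2 ≤ 1 := by linarith
  set θ := Real.arccos (r / 2) with hθ
  have hcos : Real.cos θ = r / 2 := Real.cos_arccos hr1 hr2
  have hx0 : 0 < Real.pi / (m + 2) := by positivity
  have hy0 : 0 < Real.pi / (m + 1) := by positivity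
  have hy1 : Real.pi / (m + 1) ≤ Real.pi / 2 :=
    div_le_div_of_nonneg_left hpi.le (by norm_num) (by linarith)
  -- θ < π/(m+1)
  have hθ1 : θ < Real.pi / (m + 1) := by
    by_contra hcon
    push_neg at hcon
    have := Real.cos_le_cos_of_nonneg_of_le_pi hy0.le (Real.arccos_le_pi _) hcon
    rw [← hθ, hcos] at this
    linarith
  have hθ0 : Real.pi / (m + 2) ≤ θ := by
    by_contra hcon
    push_neg at hcon
    have hlt : Real.cos (Real.pi / (m + 2)) < Real.cos θ := by
      apply Real.cos_lt_cos_of_nonneg_of_le_pi (Real.arccos_nonneg _)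
      · have : Real.pi / (m + 2) ≤ Real.pi := div_le_self hpi.le (by linarith)
        exact this
      · exact hcon
    rw [hcos] at hlt
    linarith
  have hθpos : 0 < θ := lt_of_lt_of_le hx0 hθ0
  have hs : 0 < Real.sin θ := Real.sin_pos_of_pos_of_lt_pi hθpos (by linarith)
  have key := Ur_cos' hr1 hr2 (m : ℤ)
  rw [← hθ] at key
  have hle : Real.sin (((m : ℤ) + 1) * θ) ≤ Real.sin θ := by
    rw [← Real.sin_pi_sub]
    apply Real.sin_le_sin_of_le_of_le_pi_div_two
    · have : (((m : ℤ) : ℝ) + 1) * θ < Real.pi := by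
        push_cast
        calc ((m : ℝ) + 1) * θ < ((m : ℝ) + 1) * (Real.pi / (m + 1)) :=
              mul_lt_mul_of_pos_left hθ1 (by linarith)
          _ = Real.pi := by field_simp
      linarith
    · linarith
    · have : Real.pi ≤ ((m : ℝ) + 2) * θ := by
        calc Real.pi = ((m : ℝ) + 2) * (Real.pi / (m + 2)) := by field_simp
          _ ≤ ((m : ℝ) + 2) * θ := mul_le_mul_of_nonneg_left hθ0 (by linarith)
      push_cast
      linarith
  rw [← key] at hle
  by_contra hcon
  push_neg at hcon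
  nlinarith

/-- the interval of parameters of a given `q ≥ 1` below the threshold -/
theorem exists_index {r : ℝ} (hr : 1 ≤ r) {m : ℕ} (hm : 1 ≤ m)
    (h : r ≤ 2 * Real.cos (Real.pi / (m + 2))) :
    ∃ m' : ℕ, 1 ≤ m' ∧ m' ≤ m ∧ 2 * Real.cos (Real.pi / (m' + 1)) < r ∧
      r ≤ 2 * Real.cos (Real.pi / (m' + 2)) := by
  classical
  have hex : ∃ n : ℕ, 1 ≤ n ∧ r ≤ 2 * Real.cos (Real.pi / (n + 2)) := ⟨m, hm, h⟩
  obtain ⟨hn1, hn2⟩ := Nat.find_spec hex
  refine ⟨Nat.find hex, hn1, Nat.find_min' hex ⟨hm, h⟩, ?_, hn2⟩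
  by_cases h1 : Nat.find hex = 1
  · rw [h1]
    have : Real.pi / ((1 : ℕ) + 1) = Real.pi / 2 := by norm_num
    rw [this, Real.cos_pi_div_two]
    linarith
  · have hlt : Nat.find hex - 1 < Nat.find hex := by omega
    have hmin := Nat.find_min hex hlt
    push_neg at hmin
    have h2 := hmin (by omega)
    have e : ((Nat.find hex - 1 : ℕ) : ℝ) + 2 = (Nat.find hex : ℝ) + 1 := by
      rw [Nat.cast_sub hn1]
      push_cast
      ring
    rw [e] at h2
    exact h2

theorem threshold_iff {q : ℝ} (hq : 0 ≤ q) {m : ℕ} (hm : 1 ≤ m) :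
    4 * Real.cos (Real.pi / (m + 2)) ^ 2 < q ↔ 2 * Real.cos (Real.pi / (m + 2)) < √q := by
  have h0 : 0 ≤ 2 * Real.cos (Real.pi / (m + 2)) := by
    have := @cos_two_le' m
    linarith
  rw [Real.lt_sqrt h0]
  constructor
  · intro h
    nlinarith
  · intro h
    nlinarith

end Pool.Agent.H95.Wedge
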