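import Pool.Agent.H95.Wedge.DynDefs

/-!
The exploration dynamics on the corners of the wedge.
-/

namespace Pool.Agent.H95.Wedge

open Finset Function Filter Topology

section Dyn
variable {m : ℕ} {L : ℤ → ℕ} {ω : Finset (Sym2 Vtx)} {p p' : Rp}

lemma trip_eq {k k' : ℤ} {a a' b b' : ℕ} (h1 : k = k') (h2 : a = a') (h3 : b = b') :
    ((k, a, b) : ℤ × ℕ × ℕ) = (k', a', b') := by rw [h1, h2, h3]

theorem cls_mate (p : Rp) : cls (mate p) = opn p := by
  obtain ⟨k, a, b⟩ := p
  unfold mate opn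
  dsimp only
  split_ifs <;> unfold cls <;> dsimp only <;> split_ifs <;>
    first | contradiction | omega | (refine trip_eq ?_ ?_ ?_ <;> omega)

theorem opn_mate (p : Rp) : opn (mate p) = cls p := by
  obtain ⟨k, a, b⟩ := p
  unfold mate cls
  dsimp only
  split_ifs <;> unfold opn <;> dsimp only <;> split_ifs <;>
    first | contradiction | omega | (refine trip_eq ?_ ?_ ?_ <;> omega)

theorem mate_mate (p : Rp) : mate (mate p) = p := by
  obtain ⟨k, a, b⟩ := p
  rw [mate.eq_1 (k, a, b)]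
  dsimp only
  split_ifs <;> unfold mate <;> dsimp only <;> split_ifs <;>
    first | contradiction | omega | (refine trip_eq ?_ ?_ ?_ <;> omega)

theorem mate_ne (p : Rp) : mate p ≠ p := by
  obtain ⟨k, a, b⟩ := p
  unfold mate
  dsimp only
  split_ifs <;> simp only [ne_eq, Prod.mk.injEq] <;> omega

theorem vtx_cls (p : Rp) : vtx (cls p) = vtx p := by
  obtain ⟨k, a, b⟩ := p
  unfold cls
  dsimp only
  split_ifs <;> unfold vtx pt <;> dsimp only <;> split_ifs <;>
    first | contradiction | omega | (refine trip_eq ?_ ?_ ?_ <;> omega)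

theorem vtx_mate (p : Rp) : vtx (mate p) = vtx (opn p) := by
  rw [← vtx_cls, cls_mate]

theorem head_mate (p : Rp) : head (mate p) = head p := by
  unfold head
  rw [vtx_mate, opn_mate, vtx_cls, Sym2.eq_swap]

theorem vtx_ne (p : Rp) : vtx p ≠ vtx (opn p) := by
  obtain ⟨k, a, b⟩ := p
  unfold opn
  dsimp only
  split_ifs <;> unfold vtx pt <;> dsimp only <;> split_ifs <;>
    first | contradiction | omega | (simp only [ne_eq, Prod.mk.injEq]; omega)

lemma pt_eq {k k' : ℤ} {x y x' y' : ℕ} (h : pt k x y = pt k' x' y') :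
    (x = 0 ∧ y = 0 ∧ x' = 0 ∧ y' = 0) ∨ (x = 0 ∧ 0 < y ∧ x' = 0 ∧ y' = y ∧ k' = k) ∨
    (x = 0 ∧ 0 < y ∧ x' = y ∧ y' = 0 ∧ k' = k + 1) ∨
    (0 < x ∧ y = 0 ∧ x' = 0 ∧ y' = x ∧ k = k' + 1) ∨ (0 < x ∧ k' = k ∧ x' = x ∧ y' = y) := by
  unfold pt at h
  split_ifs at h <;> simp only [Prod.mk.injEq] at h <;> omega

lemma corner_eq {p p' : Rp} (h1 : vtx p = vtx p') (h2 : vtx (opn p) = vtx (opn p')) : p = p' := by
  obtain ⟨k, a, b⟩ := p
  obtain ⟨k', a', b'⟩ := p'
  unfold vtx opn at *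
  dsimp only at h1 h2
  have h1' := pt_eq h1
  clear h1
  split_ifs at h2 <;> dsimp only at h2 <;> have h2' := pt_eq h2 <;> clear h2 <;>
    rcases h1' with h1 | h1 | h1 | h1 | h1 <;> rcases h2' with h2 | h2 | h2 | h2 | h2 <;>
    first | omega | (refine trip_eq ?_ ?_ ?_ <;> omega)

theorem head_eq_iff (p p' : Rp) : head p = head p' ↔ p' = p ∨ p' = mate p := by
  constructor
  · intro h
    unfold head at h
    rw [Sym2.eq_iff] at h
    rcases h with ⟨h1, h2⟩ | ⟨h1, h2⟩
    · exact Or.inl (corner_eq h1 h2).symm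
    · right
      refine corner_eq ?_ ?_
      · rw [vtx_mate, h2]
      · rw [opn_mate, vtx_cls, h1]
  · rintro (rfl | rfl)
    · rfl
    · exact (head_mate p).symm

lemma cls_injective : Injective cls := by
  intro p p' h
  obtain ⟨k, a, b⟩ := p
  obtain ⟨k', a', b'⟩ := p'
  unfold cls at h
  dsimp only at h
  split_ifs at h <;> simp only [Prod.mk.injEq] at h <;>
    first | omega | (refine trip_eq ?_ ?_ ?_ <;> omega)

lemma mate_injective : Injective mate := fun p p' h => by
  rw [← mate_mate p, h, mate_mate]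

lemma opn_injective : Injective opn := fun p p' h => by
  rw [← cls_mate, ← cls_mate] at h
  exact mate_injective (cls_injective h)

theorem raw_injective (ω : Finset (Sym2 Vtx)) : Injective (raw ω) := by
  have key : ∀ p p', head p ∈ ω → head p' ∉ ω → opn p ≠ cls p' := by
    intro p p' h h' e
    rw [← cls_mate] at e
    have := cls_injective e
    apply h'
    rwa [← this, head_mate]
  intro p p' h
  unfold raw at h
  split_ifs at h with h1 h2 h2
  · exact opn_injective h
  · exact absurd h (key p p' h1 h2)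
  · exact absurd h.symm (key p' p h2 h1)
  · exact cls_injective h

theorem stp_injective (m : ℕ) (ω : Finset (Sym2 Vtx)) : Injective (stp m ω) :=
  (Equiv.injective _).comp (raw_injective ω)

theorem x0_mem_K (m : ℕ) (L : ℤ → ℕ) : x0 ∈ K m L := by
  rw [mem_K]
  simp only [x0]
  omega

theorem xe_mem_K (m : ℕ) (L : ℤ → ℕ) : xe m ∈ K m L := by
  rw [mem_K]
  simp only [xe]
  omega

lemma Lx_neg (m : ℕ) (L : ℤ → ℕ) {k : ℤ} (hk : k < 0) : Lx m L k = 0 := by
  unfold Lx
  rw [if_neg (by omega)]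

lemma Lx_big (m : ℕ) (L : ℤ → ℕ) {k : ℤ} (hk : (m : ℤ) < k) : Lx m L k = 0 := by
  unfold Lx
  rw [if_neg (by omega)]

lemma Lx_eq (m : ℕ) (L : ℤ → ℕ) {k : ℤ} (hk : 0 ≤ k) (hk' : k ≤ m) : Lx m L k = L k := by
  unfold Lx
  rw [if_pos ⟨hk, hk'⟩]

/-- shape of the boundary corners -/
theorem opn_not_mem_K (hp : p ∈ K m L) : opn p ∉ K m L ↔
    (p.2.1 % 2 = 0 ∧ p.2.2 % 2 = 0 ∧ p.2.2 = 2 * Lx m L (p.1 + 1)) ∨
    (p.2.1 % 2 = 0 ∧ p.2.2 % 2 = 1 ∧ p.2.1 = 2 * Lx m L p.1) := by
  obtain ⟨k, a, b⟩ := p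
  rw [mem_K] at hp ⊢
  unfold opn
  dsimp only at *
  split_ifs <;> dsimp only <;> omega

theorem cls_mem_K (hp : p ∈ K m L) (h : p ≠ xe m) : cls p ∈ K m L := by
  obtain ⟨k, a, b⟩ := p
  rw [mem_K] at hp ⊢
  have e1 := Lx_neg m L (k := -1) (by omega)
  have e2 := Lx_big m L (k := m + 1) (by omega)
  have e3 : k = -1 → Lx m L k = 0 := fun h => h ▸ e1
  have e4 : k = m → Lx m L (k + 1) = 0 := fun h => h ▸ e2
  unfold cls
  unfold xe at h
  dsimp only at *
  by_cases h0 : k = m ∧ a = 0 ∧ b = 0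
  · exfalso
    obtain ⟨rfl, rfl, rfl⟩ := h0
    exact h rfl
  split_ifs <;> dsimp only <;> (try simp only [sub_add_cancel]) <;> omega

theorem mate_mem_K (hp : p ∈ K m L) (h : opn p ∈ K m L) : mate p ∈ K m L := by
  obtain ⟨k, a, b⟩ := p
  rw [mem_K] at hp h ⊢
  have e1 := Lx_neg m L (k := -1) (by omega)
  have e2 := Lx_big m L (k := m + 1) (by omega)
  have e3 : k = -1 → Lx m L k = 0 := fun h => h ▸ e1
  have e4 : k = m → Lx m L (k + 1) = 0 := fun h => h ▸ e2
  unfold mate
  unfold opn at h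
  dsimp only at *
  split_ifs at h ⊢ <;> dsimp only at * <;> (try simp only [sub_add_cancel]) <;> omega

lemma mem_verts' {v : Vtx} : v ∈ verts m L ↔ ∃ k : ℤ, ∃ x y : ℕ, 0 ≤ k ∧ k < m ∧ x ≤ L k ∧
    y ≤ L (k + 1) ∧ pt k x y = v := by
  simp only [verts, mem_biUnion, mem_Ico, mem_image, mem_product, mem_range, Prod.exists]
  constructor
  · rintro ⟨k, h1, x, y, h2, rfl⟩
    exact ⟨k, x, y, by omega, by omega, by omega, by omega, rfl⟩
  · rintro ⟨k, x, y, h1, h2, h3, h4, rfl⟩
    exact ⟨k, by omega, x, y, by omega, rfl⟩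

lemma mem_edges' {e : Sym2 Vtx} : e ∈ edges m L ↔ ∃ k : ℤ, ∃ x y : ℕ, 0 ≤ k ∧ k < m ∧
    ((x < L k ∧ y ≤ L (k + 1) ∧ s(pt k x y, pt k (x + 1) y) = e) ∨
      (x ≤ L k ∧ y < L (k + 1) ∧ s(pt k x y, pt k x (y + 1)) = e)) := by
  simp only [edges, mem_biUnion, mem_Ico, mem_union, mem_image, mem_product, mem_range,
    Prod.exists]
  constructor
  · rintro ⟨k, h1, ⟨x, y, h2, rfl⟩ | ⟨x, y, h2, rfl⟩⟩
    · exact ⟨k, x, y, by omega, by omega, Or.inl ⟨by omega, by omega, rfl⟩⟩
    · exact ⟨k, x, y, by omega, by omega, Or.inr ⟨by omega, by omega, rfl⟩⟩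
  · rintro ⟨k, x, y, h1, h2, ⟨h3, h4, rfl⟩ | ⟨h3, h4, rfl⟩⟩
    · exact ⟨k, by omega, Or.inl ⟨x, y, by omega, rfl⟩⟩
    · exact ⟨k, by omega, Or.inr ⟨x, y, by omega, rfl⟩⟩

/-- membership in the set of vertices -/
lemma mem_verts (hm : 1 ≤ m) {k : ℤ} {i j : ℕ} : (k, i, j) ∈ verts m L ↔
    (k = 0 ∧ i = 0 ∧ j = 0) ∨
      (1 ≤ i ∧ 0 ≤ k ∧ k ≤ m ∧ i ≤ Lx m L k ∧ j ≤ Lx m L (k + 1)) := by
  rw [mem_verts']
  constructor
  · rintro ⟨k', x, y, h1, h2, h3, h4, h5⟩
    have e1 := Lx_eq m L h1 h2.le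
    have e2 := Lx_eq m L (k := k' + 1) (by omega) (by omega)
    unfold pt at h5
    split_ifs at h5 <;> simp only [Prod.mk.injEq] at h5 <;> obtain ⟨rfl, rfl, rfl⟩ := h5
    · left
      omega
    · right
      omega
    · right
      omega
  · rintro (⟨rfl, rfl, rfl⟩ | ⟨h1, h2, h3, h4, h5⟩)
    · exact ⟨0, 0, 0, le_rfl, by omega, Nat.zero_le _, Nat.zero_le _, by simp [pt]⟩
    · rcases eq_or_lt_of_le h3 with h6 | h6
      · subst h6
        rw [Lx_big m L (k := (m : ℤ) + 1) (by omega)] at h5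
        rw [Lx_eq m L (by omega) le_rfl] at h4
        refine ⟨(m : ℤ) - 1, 0, i, by omega, by omega, Nat.zero_le _, ?_, ?_⟩
        · rwa [sub_add_cancel]
        · unfold pt
          rw [if_pos rfl, if_neg (by omega)]
          exact trip_eq (by omega) rfl (by omega)
      · rw [Lx_eq m L h2 h3] at h4
        rw [Lx_eq m L (k := k + 1) (by omega) (by omega)] at h5
        refine ⟨k, i, j, h2, h6, h4, h5, ?_⟩
        unfold pt
        rw [if_neg (by omega)]

theorem vtx_mem_verts (hm : 1 ≤ m) (hp : p ∈ K m L) : vtx p ∈ verts m L := by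
  obtain ⟨k, a, b⟩ := p
  rw [mem_K] at hp
  dsimp only at hp
  have e3 : k = -1 → Lx m L k = 0 := fun h => Lx_neg m L (by omega)
  have e4 : k = m → Lx m L (k + 1) = 0 := fun h => Lx_big m L (by omega)
  unfold vtx pt
  dsimp only
  split_ifs
  · rw [mem_verts hm]
    omega
  · rw [mem_verts hm]
    right
    omega
  · rw [mem_verts hm]
    right
    omega

theorem good_wedge (m : ℕ) (L : ℤ → ℕ) : Good (verts m L) (edges m L) := by
  have key : ∀ {k : ℤ} {x y x' y' : ℕ} {u v : Vtx}, 0 ≤ k → k < m → x ≤ L k → y ≤ L (k + 1) →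
      x' ≤ L k → y' ≤ L (k + 1) → (x ≠ x' ∨ y ≠ y') → s(pt k x y, pt k x' y') = s(u, v) →
      u ∈ verts m L ∧ v ∈ verts m L ∧ u ≠ v := by
    intro k x y x' y' u v h1 h2 h3 h4 h5 h6 h7 h8
    have h9 : pt k x y ∈ verts m L := mem_verts'.2 ⟨k, x, y, h1, h2, h3, h4, rfl⟩
    have h10 : pt k x' y' ∈ verts m L := mem_verts'.2 ⟨k, x', y', h1, h2, h5, h6, rfl⟩
    have h11 : pt k x y ≠ pt k x' y' := fun e => by
      have := pt_eq e
      omega
    rw [Sym2.eq_iff] at h8
    rcases h8 with ⟨rfl, rfl⟩ | ⟨rfl, rfl⟩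
    · exact ⟨h9, h10, h11⟩
    · exact ⟨h10, h9, h11.symm⟩
  intro u v h
  obtain ⟨k, x, y, h1, h2, ⟨h3, h4, h5⟩ | ⟨h3, h4, h5⟩⟩ := mem_edges'.1 h
  · exact key h1 h2 h3.le h4 h3 h4 (by omega) h5
  · exact key h1 h2 h3 h4.le h3 h4 (by omega) h5

lemma vtx_opn_not_mem (hm : 1 ≤ m) (hp : p ∈ K m L) (h : opn p ∉ K m L) :
    vtx (opn p) ∉ verts m L := by
  rw [opn_not_mem_K hp] at h
  obtain ⟨k, a, b⟩ := p
  dsimp only at h
  unfold opn
  dsimp only
  rcases h with ⟨h1, h2, h3⟩ | ⟨h1, h2, h3⟩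
  · rw [if_pos h1, if_pos h2]
    unfold vtx pt
    dsimp only
    split_ifs
    · omega
    · rw [mem_verts hm]
      omega
    · rw [mem_verts hm]
      omega
  · rw [if_pos h1, if_neg (by omega)]
    unfold vtx pt
    dsimp only
    split_ifs
    · omega
    · omega
    · rw [mem_verts hm]
      omega

theorem head_mem_edges (hm : 1 ≤ m) (hp : p ∈ K m L) : head p ∈ edges m L ↔ opn p ∈ K m L := by
  constructor
  · intro h
    by_contra h'
    exact vtx_opn_not_mem hm hp h' (good_wedge m L _ _ h).2.1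
  · intro h
    obtain ⟨k, a, b⟩ := p
    rw [mem_K] at hp h
    have e3 : k = -1 → Lx m L k = 0 := fun h => Lx_neg m L (by omega)
    have e4 : k = m → Lx m L (k + 1) = 0 := fun h => Lx_big m L (by omega)
    have e5 : 0 ≤ k → Lx m L k = L k := fun h => Lx_eq m L h hp.2.1
    have e6 : k < m → Lx m L (k + 1) = L (k + 1) := fun h => by
      have := hp.1
      exact Lx_eq m L (by dsimp only at *; omega) (by omega)
    rw [mem_edges']
    unfold head vtx opn
    unfold opn at h
    dsimp only at *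
    split_ifs at h ⊢ with ha hb hb <;> dsimp only at *
    · -- even, even
      by_cases hk : k = -1
      · subst hk
        have h1 := e3 rfl
        have h2 := e6 (by omega)
        have h3 : a = 0 := by omega
        subst h3
        refine ⟨0, b / 2, 0, le_rfl, by omega, Or.inl ⟨?_, Nat.zero_le _, ?_⟩⟩
        · norm_num at h2
          norm_num at h
          omega
        · have e : ∀ y : ℕ, pt 0 y 0 = pt (-1) ((0 + 1) / 2) y := by
            intro y
            unfold pt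
            split_ifs <;> first | contradiction | omega | (refine trip_eq ?_ ?_ ?_ <;> omega)
          rw [e, e, show (b + 1) / 2 = b / 2 by omega, show (b + 1 + 1) / 2 = b / 2 + 1 by omega]
      · have h1 := e5 (by omega)
        have h5 : k ≠ m := fun h' => by
          have := e4 h'
          omega
        have h2 := e6 (by omega)
        refine ⟨k, a / 2, b / 2, by omega, by omega, Or.inr ⟨by omega, by omega, ?_⟩⟩
        rw [show (b + 1) / 2 = b / 2 by omega, show (b + 1 + 1) / 2 = b / 2 + 1 by omega,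
          show (a + 1) / 2 = a / 2 by omega]
    · -- even, odd
      have h3 : k ≠ -1 := fun h' => by
        have := e3 h'
        omega
      have h5 : k ≠ m := fun h' => by
        have := e4 h'
        omega
      have h1 := e5 (by omega)
      have h2 := e6 (by omega)
      refine ⟨k, a / 2, (b + 1) / 2, by omega, by omega, Or.inl ⟨by omega, by omega, ?_⟩⟩
      rw [show (a + 1) / 2 = a / 2 by omega, show (a + 1 + 1) / 2 = a / 2 + 1 by omega]
    · -- odd, even
      have h3 : k ≠ -1 := fun h' => by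
        have := e3 h'
        omega
      have h1 := e5 (by omega)
      by_cases hk : k = m
      · have h2 := e4 hk
        have h6 : b = 0 := by omega
        subst h6
        subst hk
        refine ⟨(m : ℤ) - 1, 0, a / 2, by omega, by omega, Or.inr ⟨Nat.zero_le _, ?_, ?_⟩⟩
        · rw [sub_add_cancel]
          omega
        · have e : ∀ y : ℕ, pt ((m : ℤ) - 1) 0 y = pt m y ((0 + 1) / 2) := by
            intro y
            unfold pt
            split_ifs <;> first | contradiction | omega | (refine trip_eq ?_ ?_ ?_ <;> omega)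
          rw [e, e, show (a + 1) / 2 = a / 2 + 1 by omega, show (a - 1 + 1) / 2 = a / 2 by omega,
            Sym2.eq_swap]
      · have h2 := e6 (by omega)
        refine ⟨k, a / 2, b / 2, by omega, by omega, Or.inl ⟨by omega, by omega, ?_⟩⟩
        rw [show (b + 1) / 2 = b / 2 by omega, show (a + 1) / 2 = a / 2 + 1 by omega,
          show (a - 1 + 1) / 2 = a / 2 by omega, Sym2.eq_swap]
    · -- odd, odd
      have h3 : k ≠ -1 := fun h' => by
        have := e3 h'
        omega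
      have h5 : k ≠ m := fun h' => by
        have := e4 h'
        omega
      have h1 := e5 (by omega)
      have h2 := e6 (by omega)
      refine ⟨k, (a + 1) / 2, b / 2, by omega, by omega, Or.inr ⟨by omega, by omega, ?_⟩⟩
      rw [show (b + 1) / 2 = b / 2 + 1 by omega, show (b - 1 + 1) / 2 = b / 2 by omega,
        Sym2.eq_swap]

lemma raw_xe (hm : 1 ≤ m) (hω : ω ⊆ edges m L) : raw ω (xe m) = ((m : ℤ) + 1, 0, 0) := by
  have h1 : head (xe m) ∉ ω := by
    intro h
    have h2 := (head_mem_edges hm (xe_mem_K m L)).1 (hω h)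
    revert h2
    rw [imp_false, opn_not_mem_K (xe_mem_K m L)]
    left
    refine ⟨rfl, rfl, ?_⟩
    show 0 = 2 * Lx m L ((m : ℤ) + 1)
    rw [Lx_big m L (k := (m : ℤ) + 1) (by omega)]
  unfold raw
  rw [if_neg h1]
  simp [cls, xe]

lemma raw_mem_K (hm : 1 ≤ m) (hω : ω ⊆ edges m L) (hp : p ∈ K m L) (h : p ≠ xe m) :
    raw ω p ∈ K m L := by
  unfold raw
  split_ifs with h1
  · exact (head_mem_edges hm hp).1 (hω h1)
  · exact cls_mem_K hp h

lemma raw_ne_x0 (hp : p ∈ K m L) : raw ω p ≠ x0 := by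
  intro h
  rw [mem_K] at hp
  have h1 : cls ((-2 : ℤ), 0, 0) = x0 := by simp [cls, x0]
  unfold raw at h
  split_ifs at h with h2
  · rw [← cls_mate, ← h1] at h
    have h3 := cls_injective h
    have h4 : p = mate ((-2 : ℤ), 0, 0) := by rw [← h3, mate_mate]
    subst h4
    have h5 : mate ((-2 : ℤ), 0, 0) = (-1, 1, 0) := by simp [mate]
    rw [h5] at hp
    dsimp only at hp
    rw [Lx_neg m L (by omega)] at hp
    omega
  · rw [← h1] at h
    have h3 := cls_injective h
    subst h3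
    dsimp only at hp
    omega

/-- the exploration follows `raw` except at the last corner -/
theorem stp_eq_raw (hm : 1 ≤ m) (hω : ω ⊆ edges m L) (hp : p ∈ K m L) (h : p ≠ xe m) :
    stp m ω p = raw ω p := by
  unfold stp
  refine Equiv.swap_apply_of_ne_of_ne (raw_ne_x0 hp) fun e => ?_
  have h1 := raw_mem_K hm hω hp h
  rw [e, mem_K] at h1
  dsimp only at h1
  omega

theorem stp_xe (hm : 1 ≤ m) (hω : ω ⊆ edges m L) : stp m ω (xe m) = x0 := by
  unfold stp
  rw [raw_xe hm hω, Equiv.swap_apply_right]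

/-- the exploration stays in the domain -/
theorem stp_mem_K (hm : 1 ≤ m) (hω : ω ⊆ edges m L) (hp : p ∈ K m L) : stp m ω p ∈ K m L := by
  by_cases h : p = xe m
  · rw [h, stp_xe hm hω]
    exact x0_mem_K m L
  · rw [stp_eq_raw hm hω hp h]
    exact raw_mem_K hm hω hp h

end Dyn

end Pool.Agent.H95.Wedge
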