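import Pool.Agent.H95.Wedge.FK
import Pool.Agent.H95.Wedge.Dyn

/-!
The boundary sums of the wedge.
-/

namespace Pool.Agent.H95.Wedge

open Finset Function Filter Topology

lemma Lx_of_lt {m : ℕ} {L : ℤ → ℕ} {k : ℤ} (h : k < 0 ∨ (m : ℤ) < k) : Lx m L k = 0 := by
  unfold Lx
  rw [if_neg]
  omega

/-- boundary corners -/
lemma bdry_eq (m : ℕ) (L : ℤ → ℕ) : (K m L).filter (fun p => opn p ∉ K m L) =
    ((Icc (-1 : ℤ) m).sigma fun k => range (Lx m L k + 1)).image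
      (fun x => ((x.1, 2 * x.2, 2 * Lx m L (x.1 + 1)) : Rp)) ∪
    ((Icc (-1 : ℤ) m).sigma fun k => Icc 1 (Lx m L (k + 1))).image
      (fun x => ((x.1, 2 * Lx m L x.1, 2 * x.2 - 1) : Rp)) := by
  ext p
  rw [mem_filter, mem_union, mem_image, mem_image]
  constructor
  · rintro ⟨hp, h⟩
    rw [opn_not_mem_K hp] at h
    obtain ⟨k, a, b⟩ := p
    rw [mem_K] at hp
    simp only at hp h
    rcases h with ⟨ha, hb, hB⟩ | ⟨ha, hb, hA⟩
    · left
      refine ⟨⟨k, a / 2⟩, ?_, ?_⟩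
      · rw [mem_sigma, mem_Icc, mem_range]
        simp only
        omega
      · simp only [Prod.mk.injEq, true_and]
        omega
    · right
      refine ⟨⟨k, (b + 1) / 2⟩, ?_, ?_⟩
      · rw [mem_sigma, mem_Icc, mem_Icc]
        simp only
        omega
      · simp only [Prod.mk.injEq, true_and]
        omega
  · rintro (⟨⟨k, i⟩, hx, rfl⟩ | ⟨⟨k, i⟩, hx, rfl⟩)
    · rw [mem_sigma, mem_Icc, mem_range] at hx
      simp only at hx ⊢
      have hK : ((k, 2 * i, 2 * Lx m L (k + 1)) : Rp) ∈ K m L := by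
        rw [mem_K]
        simp only
        omega
      refine ⟨hK, (opn_not_mem_K hK).2 (Or.inl ?_)⟩
      simp
    · rw [mem_sigma, mem_Icc, mem_Icc] at hx
      simp only at hx ⊢
      have hK : ((k, 2 * Lx m L k, 2 * i - 1) : Rp) ∈ K m L := by
        rw [mem_K]
        simp only
        omega
      refine ⟨hK, (opn_not_mem_K hK).2 (Or.inr ⟨by simp, ?_, rfl⟩)⟩
      simp only
      omega

lemma sum_Icc_shift (m : ℕ) (f : ℤ → ℝ) :
    ∑ k ∈ Icc (-1 : ℤ) m, f (k + 1) = ∑ j ∈ Icc (0 : ℤ) (m + 1), f j := by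
  refine sum_nbij' (fun k => k + 1) (fun j => j - 1) ?_ ?_ ?_ ?_ ?_
  · intro k hk
    simp only [mem_Icc] at hk ⊢
    omega
  · intro k hk
    simp only [mem_Icc] at hk ⊢
    omega
  · intro k _; simp
  · intro k _; simp
  · intro k _; rfl

theorem slot_sum {q : ℝ} (hq : 0 < q) {m : ℕ} (hm : 1 ≤ m) (L : ℤ → ℕ) (φ : ℤ → ℝ) :
    ∑ p ∈ (K m L).filter (fun p => opn p ∉ K m L), φ (dir p) * GW q m L (vtx p)
      = ∑ j ∈ Finset.Icc (-1 : ℤ) (m + 1), φ j * F q m L j + φ (m + 1) := by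
  have _ := hm
  rw [bdry_eq, sum_union, sum_image, sum_image, sum_sigma, sum_sigma]
  · -- first family
    have h1 : ∑ k ∈ Icc (-1 : ℤ) m, ∑ i ∈ range (Lx m L k + 1),
        φ (dir (k, 2 * i, 2 * Lx m L (k + 1))) * GW q m L (vtx (k, 2 * i, 2 * Lx m L (k + 1))) =
        ∑ j ∈ Icc (0 : ℤ) (m + 1), φ j * ∑ i ∈ range (Lx m L (j - 1) + 1),
          GW q m L (pt (j - 1) i (Lx m L j)) := by
      rw [← sum_Icc_shift m]
      refine sum_congr rfl fun k _ => ?_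
      rw [mul_sum, add_sub_cancel_right]
      refine sum_congr rfl fun i _ => ?_
      unfold dir vtx
      simp only
      rw [if_pos (by omega), show (2 * i + 1) / 2 = i by omega,
        show (2 * Lx m L (k + 1) + 1) / 2 = Lx m L (k + 1) by omega]
    have h2 : ∑ k ∈ Icc (-1 : ℤ) m, ∑ i ∈ Icc 1 (Lx m L (k + 1)),
        φ (dir (k, 2 * Lx m L k, 2 * i - 1)) * GW q m L (vtx (k, 2 * Lx m L k, 2 * i - 1)) =
        ∑ k ∈ Icc (-1 : ℤ) m, φ k * ∑ i ∈ Icc 1 (Lx m L (k + 1)),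
          GW q m L (pt k (Lx m L k) i) := by
      refine sum_congr rfl fun k _ => ?_
      rw [mul_sum]
      refine sum_congr rfl fun i hi => ?_
      rw [mem_Icc] at hi
      unfold dir vtx
      simp only
      rw [if_neg (by omega), show (2 * Lx m L k + 1) / 2 = Lx m L k by omega,
        show (2 * i - 1 + 1) / 2 = i by omega]
    rw [h1, h2]
    -- the right-hand side
    unfold F
    simp only [mul_add, sum_add_distrib, mul_ite, mul_zero]
    have h3 : ∑ x ∈ Icc (-1 : ℤ) (m + 1), (if 0 ≤ x then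
        φ x * ∑ i ∈ Icc (if x = (m : ℤ) + 1 then 1 else 0) (Lx m L (x - 1)),
          GW q m L (pt (x - 1) i (Lx m L x)) else 0) =
        ∑ j ∈ Icc (0 : ℤ) (m + 1), φ j * ∑ i ∈ Icc (if j = (m : ℤ) + 1 then 1 else 0)
          (Lx m L (j - 1)), GW q m L (pt (j - 1) i (Lx m L j)) := by
      rw [← sum_filter]
      refine sum_congr ?_ fun _ _ => rfl
      ext j
      simp only [mem_filter, mem_Icc]
      omega
    have h4 : ∑ x ∈ Icc (-1 : ℤ) (m + 1), (if x ≤ (m : ℤ) then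
        φ x * ∑ i ∈ Icc 1 (Lx m L (x + 1)), GW q m L (pt x (Lx m L x) i) else 0) =
        ∑ k ∈ Icc (-1 : ℤ) m, φ k * ∑ i ∈ Icc 1 (Lx m L (k + 1)), GW q m L (pt k (Lx m L k) i) := by
      rw [← sum_filter]
      refine sum_congr ?_ fun _ _ => rfl
      ext j
      simp only [mem_filter, mem_Icc]
      omega
    rw [h3, h4]
    have h5 : Icc (0 : ℤ) (m + 1) = insert ((m : ℤ) + 1) (Icc (0 : ℤ) m) := by
      ext j
      simp only [mem_insert, mem_Icc]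
      omega
    rw [h5, sum_insert (by simp), sum_insert (by simp)]
    have h6 : ∀ j ∈ Icc (0 : ℤ) m, φ j * ∑ i ∈ Icc (if j = (m : ℤ) + 1 then 1 else 0)
          (Lx m L (j - 1)), GW q m L (pt (j - 1) i (Lx m L j)) =
        φ j * ∑ i ∈ range (Lx m L (j - 1) + 1), GW q m L (pt (j - 1) i (Lx m L j)) := by
      intro j hj
      rw [mem_Icc] at hj
      rw [if_neg (by omega)]
      congr 1
      refine sum_congr ?_ fun _ _ => rfl
      ext i
      simp only [mem_range, mem_Icc]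
      omega
    rw [sum_congr rfl h6]
    have h7 : ∑ i ∈ range (Lx m L ((m : ℤ) + 1 - 1) + 1),
          GW q m L (pt ((m : ℤ) + 1 - 1) i (Lx m L ((m : ℤ) + 1))) =
        1 + ∑ i ∈ Icc 1 (Lx m L ((m : ℤ) + 1 - 1)),
          GW q m L (pt ((m : ℤ) + 1 - 1) i (Lx m L ((m : ℤ) + 1))) := by
      have h8 : range (Lx m L ((m : ℤ) + 1 - 1) + 1) =
          insert 0 (Icc 1 (Lx m L ((m : ℤ) + 1 - 1))) := by
        ext i
        simp only [mem_range, mem_insert, mem_Icc]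
        omega
      rw [h8, sum_insert (by simp), Lx_of_lt (k := (m : ℤ) + 1) (Or.inr (by omega))]
      congr 1
      have : pt ((m : ℤ) + 1 - 1) 0 0 = (0, 0, 0) := by simp [pt]
      rw [this]
      exact G_self hq _ _ _
    rw [h7, if_pos rfl]
    ring
  · -- injectivity of the second family
    rintro ⟨k, i⟩ hx ⟨k', i'⟩ hx' h
    simp only [mem_coe, mem_sigma, mem_Icc] at hx hx'
    simp only [Prod.mk.injEq] at h
    obtain ⟨rfl, -, h2⟩ := h
    have : i = i' := by omega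
    rw [this]
  · rintro ⟨k, i⟩ hx ⟨k', i'⟩ hx' h
    simp only [Prod.mk.injEq] at h
    obtain ⟨rfl, h2, -⟩ := h
    have : i = i' := by omega
    rw [this]
  · rw [disjoint_left]
    intro p h1 h2
    rw [mem_image] at h1 h2
    obtain ⟨⟨k, i⟩, -, rfl⟩ := h1
    obtain ⟨⟨k', i'⟩, h3, h4⟩ := h2
    rw [mem_sigma, mem_Icc, mem_Icc] at h3
    simp only [Prod.mk.injEq] at h4
    simp only at h3
    omega

lemma GW_nonneg {q : ℝ} (hq : 0 < q) (m : ℕ) (L : ℤ → ℕ) (v : Vtx) : 0 ≤ GW q m L v :=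
  G_nonneg hq _ _ _ _

lemma GW_le_one {q : ℝ} (hq : 0 < q) (m : ℕ) (L : ℤ → ℕ) (v : Vtx) : GW q m L v ≤ 1 :=
  G_le_one hq _ _ _ _

theorem F_nonneg {q : ℝ} (hq : 0 < q) (m : ℕ) (L : ℤ → ℕ) (j : ℤ) : 0 ≤ F q m L j := by
  unfold F
  refine add_nonneg ?_ ?_ <;> split_ifs
  all_goals first
    | exact le_rfl
    | exact sum_nonneg fun i _ => GW_nonneg hq m L _

theorem F_bdd {q : ℝ} (hq : 0 < q) (m : ℕ) (L : ℤ → ℕ) (j : ℤ) :
    F q m L j ≤ Lx m L (j - 1) + Lx m L (j + 1) + 1 := by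
  unfold F
  have h1 : (if 0 ≤ j then ∑ i ∈ Finset.Icc (if j = (m : ℤ) + 1 then 1 else 0) (Lx m L (j - 1)),
      GW q m L (pt (j - 1) i (Lx m L j)) else 0) ≤ Lx m L (j - 1) + 1 := by
    split_ifs with h h'
    · refine (sum_le_sum fun i _ => GW_le_one hq m L _).trans ?_
      rw [sum_const, Nat.card_Icc, nsmul_eq_mul, mul_one]
      simp
    · refine (sum_le_sum fun i _ => GW_le_one hq m L _).trans ?_
      rw [sum_const, Nat.card_Icc, nsmul_eq_mul, mul_one]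
      simp
    · positivity
  have h2 : (if j ≤ (m : ℤ) then ∑ i ∈ Finset.Icc 1 (Lx m L (j + 1)),
      GW q m L (pt j (Lx m L j) i) else 0) ≤ Lx m L (j + 1) := by
    split_ifs with h
    · refine (sum_le_sum fun i _ => GW_le_one hq m L _).trans ?_
      rw [sum_const, Nat.card_Icc, nsmul_eq_mul, mul_one]
      simp
    · positivity
  linarith

lemma mem_verts_pt {m : ℕ} {L : ℤ → ℕ} {v : Vtx} : v ∈ verts m L ↔
    ∃ k : ℤ, 0 ≤ k ∧ k < m ∧ ∃ x y : ℕ, x ≤ L k ∧ y ≤ L (k + 1) ∧ pt k x y = v := by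
  simp only [verts, mem_biUnion, mem_Ico, mem_image, mem_product, mem_range, Prod.exists]
  constructor
  · rintro ⟨k, ⟨h1, h2⟩, x, y, ⟨h3, h4⟩, h5⟩
    exact ⟨k, h1, h2, x, y, by omega, by omega, h5⟩
  · rintro ⟨k, h1, h2, x, y, h3, h4, h5⟩
    exact ⟨k, ⟨h1, h2⟩, x, y, ⟨by omega, by omega⟩, h5⟩

lemma verts_mono {m m' : ℕ} (hm : m ≤ m') {L L' : ℤ → ℕ}
    (h : ∀ i : ℤ, 0 ≤ i → i ≤ m → L i ≤ L' i) : verts m L ⊆ verts m' L' := by
  intro v hv
  rw [mem_verts_pt] at hv ⊢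
  obtain ⟨k, h1, h2, x, y, h3, h4, h5⟩ := hv
  exact ⟨k, h1, by omega, x, y, h3.trans (h k h1 h2.le), h4.trans (h (k + 1) (by omega) (by omega)),
    h5⟩

lemma mem_edges_pt {m : ℕ} {L : ℤ → ℕ} {e : Sym2 Vtx} : e ∈ edges m L ↔
    ∃ k : ℤ, 0 ≤ k ∧ k < m ∧ ∃ x y : ℕ,
      (x < L k ∧ y ≤ L (k + 1) ∧ s(pt k x y, pt k (x + 1) y) = e) ∨
      (x ≤ L k ∧ y < L (k + 1) ∧ s(pt k x y, pt k x (y + 1)) = e) := by
  simp only [edges, mem_biUnion, mem_Ico, mem_union, mem_image, mem_product, mem_range, Prod.exists]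
  constructor
  · rintro ⟨k, ⟨h1, h2⟩, ⟨x, y, ⟨h3, h4⟩, h5⟩ | ⟨x, y, ⟨h3, h4⟩, h5⟩⟩
    · exact ⟨k, h1, h2, x, y, Or.inl ⟨by omega, by omega, h5⟩⟩
    · exact ⟨k, h1, h2, x, y, Or.inr ⟨by omega, by omega, h5⟩⟩
  · rintro ⟨k, h1, h2, x, y, ⟨h3, h4, h5⟩ | ⟨h3, h4, h5⟩⟩
    · exact ⟨k, ⟨h1, h2⟩, Or.inl ⟨x, y, ⟨by omega, by omega⟩, h5⟩⟩
    · exact ⟨k, ⟨h1, h2⟩, Or.inr ⟨x, y, ⟨by omega, by omega⟩, h5⟩⟩

lemma edges_mono {m m' : ℕ} (hm : m ≤ m') {L L' : ℤ → ℕ}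
    (h : ∀ i : ℤ, 0 ≤ i → i ≤ m → L i ≤ L' i) : edges m L ⊆ edges m' L' := by
  intro e he
  rw [mem_edges_pt] at he ⊢
  obtain ⟨k, h1, h2, x, y, h3⟩ := he
  have h4 := h k h1 h2.le
  have h5 := h (k + 1) (by omega) (by omega)
  refine ⟨k, h1, by omega, x, y, ?_⟩
  rcases h3 with ⟨h6, h7, h8⟩ | ⟨h6, h7, h8⟩
  · exact Or.inl ⟨by omega, by omega, h8⟩
  · exact Or.inr ⟨by omega, by omega, h8⟩

/-- monotonicity in the wedge angle and in the sizes -/
theorem GW_mono {q : ℝ} (hq : 1 ≤ q) {m m' : ℕ} (hm : m ≤ m') {L L' : ℤ → ℕ}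
    (h : ∀ i : ℤ, 0 ≤ i → i ≤ m → L i ≤ L' i) (v : Vtx) : GW q m L v ≤ GW q m' L' v :=
  G_mono hq (good_wedge m L) (good_wedge m' L') (verts_mono hm h) (edges_mono hm h) _ _

lemma Lx_mono {m : ℕ} {L L' : ℤ → ℕ} (h : ∀ i : ℤ, 0 ≤ i → i ≤ m → L i ≤ L' i) (k : ℤ) :
    Lx m L k ≤ Lx m L' k := by
  unfold Lx
  split_ifs with h1
  · exact h k h1.1 h1.2
  · exact le_rfl

theorem F_mono {q : ℝ} (hq : 1 ≤ q) (m : ℕ) (L L' : ℤ → ℕ) (j : ℤ)
    (h : ∀ i : ℤ, 0 ≤ i → i ≤ m → L i ≤ L' i) (hj : 0 ≤ j → j ≤ m → L j = L' j) :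
    F q m L j ≤ F q m L' j := by
  have hq0 : 0 < q := by linarith
  have hLj : Lx m L j = Lx m L' j := by
    unfold Lx
    split_ifs with h1
    · exact hj h1.1 h1.2
    · rfl
  unfold F
  rw [hLj]
  have key : ∀ (s t : Finset ℕ) (g : ℕ → Vtx), s ⊆ t →
      ∑ i ∈ s, GW q m L (g i) ≤ ∑ i ∈ t, GW q m L' (g i) := by
    intro s t g hst
    refine (sum_le_sum fun i _ => GW_mono hq le_rfl h (g i)).trans ?_
    exact sum_le_sum_of_subset_of_nonneg hst fun i _ _ => GW_nonneg hq0 m L' _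
  refine add_le_add ?_ ?_
  · split_ifs
    · exact key _ _ _ (Icc_subset_Icc_right (Lx_mono h _))
    · exact key _ _ _ (Icc_subset_Icc_right (Lx_mono h _))
    · exact le_rfl
  · split_ifs
    · exact key _ _ _ (Icc_subset_Icc_right (Lx_mono h _))
    · exact le_rfl

end Pool.Agent.H95.Wedge
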