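import Pool.Agent.H95.Wedge.FK
import Pool.Agent.H95.Wedge.Dyn
import Pool.Agent.H95.Wedge.Sums

/-!
The sum over a side of fixed length vanishes when the side goes to infinity.
-/

namespace Pool.Agent.H95.Wedge

open Finset Function Filter Topology

lemma ce_pos' (q : ℝ) : 0 < ce q := by unfold ce; positivity

lemma ce_le_one' (q : ℝ) : ce q ≤ 1 := by
  unfold ce
  rw [div_le_one (by positivity)]
  have := Real.sqrt_nonneg q
  linarith

lemma mem_edges_h {m : ℕ} {L : ℤ → ℕ} {k : ℤ} {x y : ℕ} (h0 : 0 ≤ k) (h1 : k < m) (hx : x < L k)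
    (hy : y ≤ L (k + 1)) : s(pt k x y, pt k (x + 1) y) ∈ edges m L := by
  unfold edges
  rw [mem_biUnion]
  refine ⟨k, mem_Ico.mpr ⟨h0, h1⟩, mem_union_left _ (mem_image.mpr ⟨(x, y), ?_, rfl⟩)⟩
  rw [mem_product, mem_range, mem_range]
  exact ⟨hx, by omega⟩

lemma mem_edges_v {m : ℕ} {L : ℤ → ℕ} {k : ℤ} {x y : ℕ} (h0 : 0 ≤ k) (h1 : k < m) (hx : x ≤ L k)
    (hy : y < L (k + 1)) : s(pt k x y, pt k x (y + 1)) ∈ edges m L := by
  unfold edges
  rw [mem_biUnion]
  refine ⟨k, mem_Ico.mpr ⟨h0, h1⟩, mem_union_right _ (mem_image.mpr ⟨(x, y), ?_, rfl⟩)⟩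
  rw [mem_product, mem_range, mem_range]
  exact ⟨by omega, hy⟩

lemma GW_step {q : ℝ} (hq : 1 ≤ q) {m : ℕ} {L : ℤ → ℕ} {u v : Vtx} (h : s(u, v) ∈ edges m L) :
    ce q * GW q m L u ≤ GW q m L v := by
  have hG := good_wedge m L
  have h1 := G_step hq hG h
  have h2 := G_trans hq hG (0, 0, 0) u v
  unfold GW
  have h3 := G_nonneg (show 0 < q by linarith) (verts m L) (edges m L) (0, 0, 0) u
  nlinarith

/-- horizontal chain -/
lemma chain_h {q : ℝ} (hq : 1 ≤ q) {m : ℕ} {L : ℤ → ℕ} {k : ℤ} (h0 : 0 ≤ k) (h1 : k < m) {y : ℕ}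
    (hy : y ≤ L (k + 1)) {A : ℕ} (hA : A ≤ L k) (n : ℕ) (hn : n ≤ A) :
    ce q ^ n * GW q m L (pt k (A - n) y) ≤ GW q m L (pt k A y) := by
  induction n with
  | zero => simp
  | succ n ih =>
    have h2 := mem_edges_h (m := m) (L := L) (k := k) (x := A - (n + 1)) (y := y) h0 h1 (by omega) hy
    rw [show A - (n + 1) + 1 = A - n by omega] at h2
    have h3 := GW_step hq h2
    have h4 := pow_pos (ce_pos' q) n
    calc ce q ^ (n + 1) * GW q m L (pt k (A - (n + 1)) y)
        = ce q ^ n * (ce q * GW q m L (pt k (A - (n + 1)) y)) := by ring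
      _ ≤ ce q ^ n * GW q m L (pt k (A - n) y) := mul_le_mul_of_nonneg_left h3 h4.le
      _ ≤ _ := ih (by omega)

/-- vertical chain -/
lemma chain_v {q : ℝ} (hq : 1 ≤ q) {m : ℕ} {L : ℤ → ℕ} {k : ℤ} (h0 : 0 ≤ k) (h1 : k < m) {x : ℕ}
    (hx : x ≤ L k) (n : ℕ) (hn : n ≤ L (k + 1)) :
    ce q ^ n * GW q m L (pt k x n) ≤ GW q m L (pt k x 0) := by
  induction n with
  | zero => simp
  | succ n ih =>
    have h2 := mem_edges_v (m := m) (L := L) (k := k) (x := x) (y := n) h0 h1 hx (by omega)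
    rw [Sym2.eq_swap] at h2
    have h3 := GW_step hq h2
    have h4 := pow_pos (ce_pos' q) n
    calc ce q ^ (n + 1) * GW q m L (pt k x (n + 1))
        = ce q ^ n * (ce q * GW q m L (pt k x (n + 1))) := by ring
      _ ≤ ce q ^ n * GW q m L (pt k x n) := mul_le_mul_of_nonneg_left h3 h4.le
      _ ≤ _ := ih (by omega)

lemma pt_glue (a : ℤ) (N : ℕ) : pt a N 0 = pt (a - 1) 0 N := by
  unfold pt
  by_cases h : N = 0
  · simp [h]
  · simp [h]

/-- diagonal terms of a bounded family of monotone nonnegative arrays tend to zero -/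
lemma diag_small {g : ℕ → ℕ → ℝ} (h0 : ∀ N y, 0 ≤ g N y) (h1 : ∀ N y, g N y ≤ 1)
    (hm : ∀ y, Monotone fun N => g N y) {C : ℝ} (hC : ∀ N, ∑ y ∈ Icc 1 N, g N y ≤ C) :
    Tendsto (fun N => g N N) atTop (𝓝 0) := by
  set G : ℕ → ℝ := fun y => ⨆ N, g N y with hG
  have hb : ∀ y, BddAbove (Set.range fun N => g N y) := fun y => ⟨1, by rintro _ ⟨N, rfl⟩; exact h1 N y⟩
  have hle : ∀ N y, g N y ≤ G y := fun N y => le_ciSup (hb y) N
  have hG0 : ∀ y, 0 ≤ G y := fun y => (h0 0 y).trans (hle 0 y)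
  have hpart : ∀ n, ∑ k ∈ range n, G (k + 1) ≤ C := by
    intro n
    have ht : Tendsto (fun N : ℕ => ∑ k ∈ range n, g N (k + 1)) atTop
        (𝓝 (∑ k ∈ range n, G (k + 1))) :=
      tendsto_finsetSum _ (fun k _ => tendsto_atTop_ciSup (hm (k + 1)) (hb (k + 1)))
    apply le_of_tendsto ht
    filter_upwards [eventually_ge_atTop n] with N hN
    refine le_trans ?_ (hC N)
    have e : ∑ k ∈ range n, g N (k + 1) = ∑ y ∈ Icc 1 n, g N y := by
      apply sum_bij (fun k _ => k + 1)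
      · intro k hk; rw [mem_range] at hk; rw [mem_Icc]; omega
      · intro a _ b _ h; omega
      · intro i hi
        rw [mem_Icc] at hi
        exact ⟨i - 1, by rw [mem_range]; omega, by omega⟩
      · intro k _; rfl
    rw [e]
    apply sum_le_sum_of_subset_of_nonneg
    · intro k hk; rw [mem_Icc] at hk ⊢; omega
    · intro k _ _; exact h0 _ _
  have hs : Summable (fun k => G (k + 1)) :=
    summable_of_sum_range_le (fun k => hG0 _) hpart
  have h2 : Tendsto G atTop (𝓝 0) := (tendsto_add_atTop_iff_nat 1).mp hs.tendsto_atTop_zero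
  exact squeeze_zero (fun N => h0 N N) (fun N => hle N N) h2

theorem F_decay {q : ℝ} (hq : 1 ≤ q) {m : ℕ} (hm : 1 ≤ m) (L : ℤ → ℕ) (a : ℤ) (ha : 0 ≤ a) (ham : a ≤ m)
    (h : ∃ C, ∀ N : ℕ, F q m (Function.update L a N) (a - 1) ≤ C) :
    Tendsto (fun N : ℕ => F q m (Function.update L a N) a) atTop (𝓝 0) := by
  have hq0 : 0 < q := by linarith
  obtain ⟨C, hC⟩ := h
  set A : ℕ := Lx m L (a - 1) with hA
  set B : ℕ := Lx m L (a + 1) with hB
  have e1 : ∀ N : ℕ, Lx m (update L a N) (a - 1) = A := by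
    intro N
    rw [hA]; unfold Lx
    rw [update_of_ne (by omega)]
  have e2 : ∀ N : ℕ, Lx m (update L a N) (a + 1) = B := by
    intro N
    rw [hB]; unfold Lx
    rw [update_of_ne (by omega)]
  have e3 : ∀ N : ℕ, Lx m (update L a N) a = N := by
    intro N
    unfold Lx
    rw [if_pos ⟨ha, ham⟩, update_self]
  set g : ℕ → ℕ → ℝ := fun N y => GW q m (update L a N) (pt (a - 1) A y) with hg
  have hdiag : Tendsto (fun N => g N N) atTop (𝓝 0) := by
    apply diag_small (g := g) (C := C) (fun N y => GW_nonneg hq0 _ _ _) (fun N y => GW_le_one hq0 _ _ _)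
    · intro y N N' hNN
      apply GW_mono hq le_rfl
      intro i _ _
      by_cases hi : i = a
      · subst hi; rw [update_self, update_self]; exact hNN
      · rw [update_of_ne hi, update_of_ne hi]
    · intro N
      refine le_trans ?_ (hC N)
      unfold F
      rw [if_pos (show a - 1 ≤ (m : ℤ) by omega), show a - 1 + 1 = a by ring, e1, e3]
      have h1 : 0 ≤ (if 0 ≤ a - 1 then
          ∑ i ∈ Icc (if a - 1 = m + 1 then 1 else 0) (Lx m (update L a N) (a - 1 - 1)),
            GW q m (update L a N) (pt (a - 1 - 1) i A) else 0) := by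
        split_ifs
        · exact sum_nonneg (fun i _ => GW_nonneg hq0 _ _ _)
        · exact sum_nonneg (fun i _ => GW_nonneg hq0 _ _ _)
        · exact le_rfl
      linarith
  -- comparison of the vertices of the side with the end of the side
  have hc := ce_pos' q
  have hcA : 0 < ce q ^ A := pow_pos hc A
  have hcB : 0 < ce q ^ B := pow_pos hc B
  have hA1 : ∀ N i : ℕ, i ≤ A → ce q ^ A * GW q m (update L a N) (pt (a - 1) i N) ≤ g N N := by
    intro N i hi
    by_cases ha0 : a = 0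
    · have : A = 0 := by rw [hA, ha0]; simp [Lx]
      have hi0 : i = A := by omega
      rw [hi0, this]; simp [hg, this]
    · have h1 := chain_h hq (m := m) (L := update L a N) (k := a - 1) (by omega) (by omega) (y := N)
        (by rw [show a - 1 + 1 = a by ring, update_self]) (A := A)
        (by rw [update_of_ne (by omega), hA]; unfold Lx; split_ifs <;> omega) (A - i) (by omega)
      rw [show A - (A - i) = i by omega] at h1
      refine le_trans ?_ h1
      apply mul_le_mul_of_nonneg_right _ (GW_nonneg hq0 _ _ _)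
      exact pow_le_pow_of_le_one hc.le (ce_le_one' q) (by omega)
  have hB1 : ∀ N i : ℕ, i ≤ B →
      ce q ^ B * GW q m (update L a N) (pt a N i) ≤ GW q m (update L a N) (pt (a - 1) 0 N) := by
    intro N i hi
    rw [← pt_glue]
    by_cases ham' : a = m
    · have : B = 0 := by rw [hB, ham']; simp [Lx]
      have hi0 : i = 0 := by omega
      rw [hi0, this]; simp
    · have h1 := chain_v hq (m := m) (L := update L a N) (k := a) ha (by omega) (x := N)
        (by rw [update_self]) i (by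
          rw [update_of_ne (by omega)]
          have : B ≤ L (a + 1) := by rw [hB]; unfold Lx; split_ifs <;> omega
          omega)
      refine le_trans ?_ h1
      apply mul_le_mul_of_nonneg_right _ (GW_nonneg hq0 _ _ _)
      exact pow_le_pow_of_le_one hc.le (ce_le_one' q) hi
  have hbound : ∀ N : ℕ, F q m (update L a N) a
      ≤ ((A + 1 : ℝ) * (ce q ^ A)⁻¹ + B * ((ce q ^ B)⁻¹ * (ce q ^ A)⁻¹)) * g N N := by
    intro N
    unfold F
    rw [if_pos ha, if_pos ham, e1, e2, e3, if_neg (by omega)]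
    have s1 : ∑ i ∈ Icc 0 A, GW q m (update L a N) (pt (a - 1) i N)
        ≤ (A + 1 : ℝ) * ((ce q ^ A)⁻¹ * g N N) := by
      have : ∀ i ∈ Icc 0 A, GW q m (update L a N) (pt (a - 1) i N) ≤ (ce q ^ A)⁻¹ * g N N := by
        intro i hi
        rw [mem_Icc] at hi
        rw [le_inv_mul_iff₀ hcA]
        exact hA1 N i hi.2
      refine (sum_le_card_nsmul _ _ _ this).trans ?_
      rw [Nat.card_Icc, nsmul_eq_mul]
      push_cast
      simp
    have s2 : ∑ i ∈ Icc 1 B, GW q m (update L a N) (pt a N i)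
        ≤ (B : ℝ) * ((ce q ^ B)⁻¹ * ((ce q ^ A)⁻¹ * g N N)) := by
      have : ∀ i ∈ Icc 1 B, GW q m (update L a N) (pt a N i)
          ≤ (ce q ^ B)⁻¹ * ((ce q ^ A)⁻¹ * g N N) := by
        intro i hi
        rw [mem_Icc] at hi
        rw [le_inv_mul_iff₀ hcB]
        refine (hB1 N i hi.2).trans ?_
        rw [le_inv_mul_iff₀ hcA]
        exact hA1 N 0 (Nat.zero_le _)
      refine (sum_le_card_nsmul _ _ _ this).trans ?_
      rw [Nat.card_Icc, nsmul_eq_mul]
      simp
    calc _ ≤ (A + 1 : ℝ) * ((ce q ^ A)⁻¹ * g N N)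
          + (B : ℝ) * ((ce q ^ B)⁻¹ * ((ce q ^ A)⁻¹ * g N N)) := add_le_add s1 s2
      _ = _ := by ring
  have hlim : Tendsto (fun N => ((A + 1 : ℝ) * (ce q ^ A)⁻¹ + B * ((ce q ^ B)⁻¹ * (ce q ^ A)⁻¹))
      * g N N) atTop (𝓝 0) := by
    simpa using hdiag.const_mul ((A + 1 : ℝ) * (ce q ^ A)⁻¹ + B * ((ce q ^ B)⁻¹ * (ce q ^ A)⁻¹))
  exact squeeze_zero (fun N => F_nonneg hq0 m _ a) hbound hlim

end Pool.Agent.H95.Wedge
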