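import Pool.Agent.H95.Wedge.FK
import Pool.Agent.H95.Wedge.Dyn

/-!
Reflection of the wedge.
-/

namespace Pool.Agent.H95.Wedge

open Finset Function Filter Topology

/-- reflection exchanging the quadrants `k` and `m - 1 - k` -/
def rfn (m : ℕ) (v : Vtx) : Vtx :=
  if v.2.1 = 0 then v else if v.2.2 = 0 then ((m : ℤ) - v.1, v.2.1, 0)
  else ((m : ℤ) - 1 - v.1, v.2.2, v.2.1)

lemma rfn_rfn (m : ℕ) : Involutive (rfn m) := by
  rintro ⟨k, i, j⟩
  unfold rfn
  by_cases h1 : i = 0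
  · simp [h1]
  · by_cases h2 : j = 0
    · simp [h1, h2]
    · simp [h1, h2]

lemma rfn_pt (m : ℕ) (k : ℤ) (x y : ℕ) : rfn m (pt k x y) = pt ((m : ℤ) - 1 - k) y x := by
  unfold rfn pt
  by_cases h1 : x = 0
  · by_cases h2 : y = 0
    · simp [h1, h2]
    · simp [h1, h2]; ring
  · by_cases h2 : y = 0
    · simp [h1, h2]; ring
    · simp [h1, h2]

/-- reflection as a permutation -/
def rfe (m : ℕ) : Vtx ≃ Vtx := (rfn_rfn m).toPerm

lemma rfe_apply (m : ℕ) (v : Vtx) : rfe m v = rfn m v := rfl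

lemma image_verts (m N : ℕ) : (verts m fun _ => N).image (rfe m) = verts m fun _ => N := by
  have hsub : (verts m fun _ => N).image (rfe m) ⊆ verts m fun _ => N := by
    intro v hv
    rw [mem_image] at hv
    obtain ⟨u, hu, rfl⟩ := hv
    unfold verts at hu ⊢
    rw [mem_biUnion] at hu ⊢
    obtain ⟨k, hk, hu⟩ := hu
    rw [mem_image] at hu
    obtain ⟨⟨x, y⟩, hz, rfl⟩ := hu
    rw [mem_Ico] at hk
    rw [mem_product, mem_range, mem_range] at hz
    refine ⟨(m : ℤ) - 1 - k, by rw [mem_Ico]; omega, ?_⟩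
    rw [mem_image]
    exact ⟨(y, x), by rw [mem_product, mem_range, mem_range]; exact ⟨hz.2, hz.1⟩,
      (rfn_pt m k x y).symm⟩
  apply eq_of_subset_of_card_le hsub
  rw [card_image_of_injective _ (rfe m).injective]

lemma image_edges (m N : ℕ) : (edges m fun _ => N).image (Sym2.map (rfe m)) = edges m fun _ => N := by
  have hsub : (edges m fun _ => N).image (Sym2.map (rfe m)) ⊆ edges m fun _ => N := by
    intro e he
    rw [mem_image] at he
    obtain ⟨e', he', rfl⟩ := he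
    unfold edges at he' ⊢
    rw [mem_biUnion] at he' ⊢
    obtain ⟨k, hk, he'⟩ := he'
    rw [mem_Ico] at hk
    refine ⟨(m : ℤ) - 1 - k, by rw [mem_Ico]; omega, ?_⟩
    rw [mem_union, mem_image, mem_image] at he' ⊢
    rcases he' with ⟨⟨x, y⟩, hz, rfl⟩ | ⟨⟨x, y⟩, hz, rfl⟩
    · right
      rw [mem_product, mem_range, mem_range] at hz
      refine ⟨(y, x), by rw [mem_product, mem_range, mem_range]; exact ⟨hz.2, hz.1⟩, ?_⟩
      rw [Sym2.map_mk]
      simp only [rfe_apply, rfn_pt]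
    · left
      rw [mem_product, mem_range, mem_range] at hz
      refine ⟨(y, x), by rw [mem_product, mem_range, mem_range]; exact ⟨hz.2, hz.1⟩, ?_⟩
      rw [Sym2.map_mk]
      simp only [rfe_apply, rfn_pt]
  apply eq_of_subset_of_card_le hsub
  rw [card_image_of_injective _ (Sym2.map.injective (rfe m).injective)]

lemma GW_rfn {q : ℝ} (hq : 0 < q) (m N : ℕ) (v : Vtx) :
    GW q m (fun _ => N) (rfn m v) = GW q m (fun _ => N) v := by
  unfold GW
  have h := G_iso hq (good_wedge m fun _ => N) (rfe m) (0, 0, 0) v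
  rw [image_verts, image_edges] at h
  have h0 : rfe m (0, 0, 0) = (0, 0, 0) := by simp [rfe_apply, rfn]
  rw [h0, rfe_apply] at h
  exact h

theorem F_sym {q : ℝ} (hq : 0 < q) {m : ℕ} (_hm : 1 ≤ m) (N : ℕ) :
    F q m (fun _ => N) (-1) = F q m (fun _ => N) (m + 1) := by
  unfold F
  rw [if_neg (by norm_num), if_pos (by omega : (-1 : ℤ) ≤ m), if_pos (by omega : (0 : ℤ) ≤ (m : ℤ) + 1),
    if_neg (by omega : ¬ ((m : ℤ) + 1 ≤ m)), if_pos rfl]
  have h1 : Lx m (fun _ => N) (-1 + 1) = N := by simp [Lx]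
  have h2 : Lx m (fun _ => N) (-1) = 0 := by simp [Lx]
  have h3 : Lx m (fun _ => N) ((m : ℤ) + 1 - 1) = N := by simp [Lx]
  have h4 : Lx m (fun _ => N) ((m : ℤ) + 1) = 0 := by simp [Lx]
  rw [h1, h2, h3, h4, zero_add, add_zero]
  apply sum_congr rfl
  intro i _
  rw [← GW_rfn hq m N (pt (-1) 0 i), rfn_pt]
  congr 2 <;> ring

end Pool.Agent.H95.Wedge
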