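import Pool.Agent.H95.Wedge.Ident
import Pool.Agent.H95.Wedge.Sums
import Pool.Agent.H95.Wedge.Decay
import Pool.Agent.H95.Wedge.Sym
import Pool.Agent.H95.Wedge.Block
import Pool.Agent.H95.Wedge.Cheb

/-!
Exact value of the tip susceptibility of the wedge.
-/

namespace Pool.Agent.H95.Wedge

open Finset Function Filter Topology

theorem ws {q : ℝ} (hq : 1 ≤ q) {m : ℕ} (hm : 1 ≤ m) : WS m (√q) (F q m) where
  nonneg L j := F_nonneg (by linarith) m L j
  mono L L' j h hj := F_mono hq m L L' j h hj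
  bdd L j := F_bdd (by linarith) m L j
  ident φ hφ L := by
    have h1 := slot_ident (show 0 < q by linarith) hm L φ hφ
    rw [slot_sum (by linarith) hm L φ] at h1
    have h2 : ∑ j ∈ Icc (0 : ℤ) (m + 1), φ j = ∑ j ∈ Icc (0 : ℤ) m, φ j + φ (m + 1) := by
      have : Icc (0 : ℤ) (m + 1) = insert ((m : ℤ) + 1) (Icc (0 : ℤ) m) := by
        ext j; simp only [mem_Icc, mem_insert]; omega
      rw [this, sum_insert (by simp), add_comm]
    linarith
  decay L a h0 h1 h := F_decay hq hm L a h0 h1 h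
  sym N := F_sym (by linarith) hm N

/-- two-point function between the tip and the boundary vertex at distance `k + 1` -/
noncomputable def tp (q : ℝ) (m N k : ℕ) : ℝ := GW q m (fun _ => N) (pt 0 (k + 1) 0)

lemma tp_eq (q : ℝ) (m N k : ℕ) : tipTwoPoint q m N (k + 1) = tp q m N k := rfl

lemma F_neg_one (q : ℝ) (m N : ℕ) : F q m (fun _ => N) (-1) = ∑ k ∈ range N, tp q m N k := by
  unfold F
  rw [if_neg (by norm_num), if_pos (by omega), zero_add]
  have h1 : Lx m (fun _ => N) (-1 + 1) = N := by simp [Lx]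
  have h2 : Lx m (fun _ => N) (-1) = 0 := by simp [Lx]
  rw [h1, h2]
  symm
  apply sum_bij (fun k _ => k + 1)
  · intro k hk; rw [mem_range] at hk; rw [mem_Icc]; omega
  · intro a _ b _ h; omega
  · intro i hi
    rw [mem_Icc] at hi
    exact ⟨i - 1, by rw [mem_range]; omega, by omega⟩
  · intro k _
    simp [tp, pt]

lemma tp_mono {q : ℝ} (hq : 1 ≤ q) {m m' : ℕ} (hm : m ≤ m') (k : ℕ) {N N' : ℕ} (h : N ≤ N') :
    tp q m N k ≤ tp q m' N' k := GW_mono hq hm (fun _ _ _ => h) _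

lemma tp_nonneg {q : ℝ} (hq : 0 < q) (m N k : ℕ) : 0 ≤ tp q m N k := G_nonneg hq _ _ _ _
lemma tp_le_one {q : ℝ} (hq : 0 < q) (m N k : ℕ) : tp q m N k ≤ 1 := G_le_one hq _ _ _ _

/-- infinite-volume two-point function -/
noncomputable def tpi (q : ℝ) (m k : ℕ) : ℝ := ⨆ N : ℕ, tp q m N k

lemma bdd_tp {q : ℝ} (hq : 0 < q) (m k : ℕ) : BddAbove (Set.range fun N : ℕ => tp q m N k) :=
  ⟨1, by rintro _ ⟨N, rfl⟩; exact tp_le_one hq _ _ _⟩

lemma tendsto_tp {q : ℝ} (hq : 1 ≤ q) (m k : ℕ) :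
    Tendsto (fun N : ℕ => tp q m N k) atTop (𝓝 (tpi q m k)) :=
  tendsto_atTop_ciSup (fun _ _ h => tp_mono hq le_rfl k h) (bdd_tp (by linarith) m k)

lemma tp_le_tpi {q : ℝ} (hq : 0 < q) (m N k : ℕ) : tp q m N k ≤ tpi q m k :=
  le_ciSup (bdd_tp hq m k) N

lemma tpi_nonneg {q : ℝ} (hq : 0 < q) (m k : ℕ) : 0 ≤ tpi q m k :=
  (tp_nonneg hq m 0 k).trans (tp_le_tpi hq m 0 k)

/-- partial sums of the infinite-volume function, from a bound of the finite sums -/
lemma partial_le {q : ℝ} (hq : 1 ≤ q) (m : ℕ) {C : ℝ}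
    (h : ∀ N : ℕ, ∑ k ∈ range N, tp q m N k ≤ C) (n : ℕ) : ∑ k ∈ range n, tpi q m k ≤ C := by
  have ht : Tendsto (fun N : ℕ => ∑ k ∈ range n, tp q m N k) atTop
      (𝓝 (∑ k ∈ range n, tpi q m k)) := tendsto_finsetSum _ (fun k _ => tendsto_tp hq m k)
  apply le_of_tendsto ht
  filter_upwards [eventually_ge_atTop n] with N hN
  refine le_trans ?_ (h N)
  apply sum_le_sum_of_subset_of_nonneg
  · intro k hk; rw [mem_range] at hk ⊢; omega
  · intro k _ _; exact tp_nonneg (by linarith) _ _ _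

lemma mono_sum {q : ℝ} (hq : 1 ≤ q) {m m' : ℕ} (hm : m ≤ m') {N N' : ℕ} (h : N ≤ N') :
    ∑ k ∈ range N, tp q m N k ≤ ∑ k ∈ range N', tp q m' N' k := by
  calc ∑ k ∈ range N, tp q m N k ≤ ∑ k ∈ range N, tp q m' N' k :=
        sum_le_sum (fun k _ => tp_mono hq hm k h)
    _ ≤ _ := by
        apply sum_le_sum_of_subset_of_nonneg
        · intro k hk; rw [mem_range] at hk ⊢; omega
        · intro k _ _; exact tp_nonneg (by linarith) _ _ _

lemma hasSum_tpi {q : ℝ} (hq : 1 ≤ q) (m : ℕ) {s : ℝ}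
    (h : Tendsto (fun N : ℕ => ∑ k ∈ range N, tp q m N k) atTop (𝓝 s)) : HasSum (tpi q m) s := by
  have hmono : Monotone fun N : ℕ => ∑ k ∈ range N, tp q m N k := fun _ _ h => mono_sum hq le_rfl h
  have hle := hmono.ge_of_tendsto h
  have hs : Summable (tpi q m) :=
    summable_of_sum_range_le (tpi_nonneg (by linarith) m) (partial_le hq m hle)
  have h1 : ∑' k, tpi q m k ≤ s := hs.tsum_le_of_sum_range_le (partial_le hq m hle)
  have h2 : s ≤ ∑' k, tpi q m k := by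
    apply le_of_tendsto' h
    intro N
    refine le_trans (sum_le_sum (fun k _ => tp_le_tpi (by linarith) m N k)) ?_
    exact hs.sum_le_tsum _ (fun k _ => tpi_nonneg (by linarith) m k)
  rw [le_antisymm h2 h1]
  exact hs.hasSum

lemma bounded_of_summable {q : ℝ} (hq : 1 ≤ q) {m : ℕ} (hs : Summable (tpi q m)) (N : ℕ) :
    ∑ k ∈ range N, tp q m N k ≤ ∑' k, tpi q m k := by
  refine le_trans (sum_le_sum (fun k _ => tp_le_tpi (by linarith) m N k)) ?_
  exact hs.sum_le_tsum _ (fun k _ => tpi_nonneg (by linarith) m k)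

theorem wedge_main (q : ℝ) (hq : 1 ≤ q) (m : ℕ) (hm : 1 ≤ m) : ∃ g : ℕ → ℝ,
    (∀ k, Tendsto (fun N => tipTwoPoint q m N (k + 1)) atTop (𝓝 (g k))) ∧
    (Summable g ↔ 4 * Real.cos (Real.pi / (m + 2)) ^ 2 < q) ∧
    (4 * Real.cos (Real.pi / (m + 2)) ^ 2 < q →
      HasSum g ((∑ i ∈ range (m + 1), (Polynomial.Chebyshev.U ℝ i).eval (√q / 2))
        / (Polynomial.Chebyshev.U ℝ (m + 1)).eval (√q / 2))) := by
  have hq0 : 0 ≤ q := by linarith
  have key : 4 * Real.cos (Real.pi / (m + 2)) ^ 2 < q →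
      HasSum (tpi q m) ((∑ i ∈ range (m + 1), (Polynomial.Chebyshev.U ℝ i).eval (√q / 2))
        / (Polynomial.Chebyshev.U ℝ (m + 1)).eval (√q / 2)) := by
    intro h
    rw [threshold_iff hq0 hm] at h
    have hU : ∀ j : ℕ, j ≤ m + 1 → 0 < Ur (√q) j := fun j hj =>
      Ur_pos (n := m + 1) (by
        push_cast
        rw [show (m : ℝ) + 1 + 1 = m + 2 by ring]; exact h) j hj
    have h1 := (ws hq hm).limit hm hU
    simp only [F_neg_one] at h1
    exact hasSum_tpi hq m h1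
  refine ⟨tpi q m, fun k => ?_, ⟨fun hs => ?_, fun h => (key h).summable⟩, key⟩
  · simp only [tp_eq]
    exact tendsto_tp hq m k
  · by_contra hcon
    rw [threshold_iff hq0 hm, not_lt] at hcon
    obtain ⟨m', h1, h2, h3, h4⟩ := exists_index (Real.one_le_sqrt.mpr hq) hm hcon
    have hU : ∀ j : ℕ, j ≤ m' → 0 < Ur (√q) j := fun j hj => Ur_pos h3 j hj
    apply (ws hq h1).unbounded h1 hU (Ur_le_one h1 h3 h4)
    refine ⟨∑' k, tpi q m k, fun N => ?_⟩
    rw [F_neg_one]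
    exact (mono_sum hq h2 le_rfl).trans (bounded_of_summable hq hs N)

end Pool.Agent.H95.Wedge
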