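import Pool.Agent.H95.Wedge.Ident
import Pool.Agent.H95.Wedge.Sums
import Pool.Agent.H95.Wedge.Cheb

/-!
The boundary inequality of the finite wedge whose last ray has been removed. For `m ≤ 4` this domain
is a domain of the square lattice.
-/

namespace Pool.Agent.H95.Wedge

open Function Finset
open Pool.Agent.H95.SumRule (Cyc tt tt_succ Gc Gc_eq Gc_eq_zero prim prim_succ sum_Gc
  exists_cyc_of_finite)

open Classical in
/-- the edges without endpoint on the last ray -/
noncomputable def ER (m : ℕ) (L : ℤ → ℕ) : Finset (Sym2 Vtx) :=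
  (edges m L).filter fun e : Sym2 Vtx => ∀ v : Vtx, v ∈ e → v.1 ≠ (m : ℤ)

section
variable {m : ℕ} {L : ℤ → ℕ} {ω : Finset (Sym2 Vtx)}

lemma mem_ER {e : Sym2 Vtx} : e ∈ ER m L ↔ e ∈ edges m L ∧ ∀ v ∈ e, v.1 ≠ (m : ℤ) := by
  classical
  unfold ER
  rw [mem_filter]

lemma vtx_l (k : ℤ) {i : ℕ} (hi : 1 ≤ i) : vtx (k, 0, 2 * i) = (k + 1, i, 0) := by
  have h2 : (2 * i + 1) / 2 = i := by omega
  unfold vtx pt
  rw [h2, if_pos (by norm_num), if_neg (by omega)]

lemma opn_l (k : ℤ) (i : ℕ) : opn (k, 0, 2 * i) = (k, 0, 2 * i + 1) := by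
  simp [opn]

lemma cls_l (k : ℤ) (i : ℕ) : cls (k, 0, 2 * i) = (k + 1, 2 * i, 0) := by
  simp [cls]

lemma vtx_l1 (k : ℤ) (i : ℕ) : vtx (k, 0, 2 * i + 1) = (k + 1, i + 1, 0) := by
  have h2 : (2 * i + 1 + 1) / 2 = i + 1 := by omega
  unfold vtx pt
  rw [h2, if_pos (by norm_num), if_neg (by omega)]

lemma vtx_1 (k : ℤ) (i : ℕ) : vtx (k, 1, 2 * i) = (k, 1, i) := by
  have h2 : (2 * i + 1) / 2 = i := by omega
  unfold vtx pt
  rw [h2, if_neg (by norm_num)]
  norm_num

lemma opn_1 (k : ℤ) (i : ℕ) : opn (k, 1, 2 * i) = (k, 0, 2 * i) := by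
  simp [opn]

lemma ER_subset : ER m L ⊆ edges m L := fun _ he => (mem_ER.mp he).1

/-- vertices of the last ray are isolated -/
lemma reach_ER (hm : 1 ≤ m) (hω : ω ⊆ ER m L) {v : Vtx}
    (h : (openGraph ω).Reachable (0, 0, 0) v) : v.1 ≠ (m : ℤ) := by
  obtain ⟨w⟩ := h
  have key : ∀ {a b : Vtx} (_ : (openGraph ω).Walk a b), a.1 ≠ (m : ℤ) → b.1 ≠ (m : ℤ) := by
    intro a b w
    induction w with
    | nil => exact id
    | cons h _ ih =>
      intro _
      apply ih
      rw [openGraph_adj] at h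
      exact (mem_ER.mp (hω h.1)).2 _ (Sym2.mem_mk_right _ _)
  apply key w
  show (0 : ℤ) ≠ (m : ℤ)
  omega

/-- the last corner of the tip before the last ray -/
lemma GG_tip (hm : 1 ≤ m) (hω : ω ⊆ ER m L) (φ : ℤ → ℝ) :
    GG φ m ω ((m : ℤ) - 1, 0, 0) = φ m := by
  have hω' : ω ⊆ edges m L := hω.trans ER_subset
  have hT := per_cyc hm hω'
  have hp := hT.pos
  have hl := last_corner hm hω' hT
  have hne : per m ω ≠ 1 := by
    intro h1
    rw [h1] at hl
    have : x0 = xe m := hl
    simp only [x0, xe, Prod.mk.injEq] at this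
    omega
  have hhead : head ((m : ℤ) - 1, 0, 0) ∉ ω := by
    intro h
    have h2 := (mem_ER.mp (hω h)).2 (vtx (opn ((m : ℤ) - 1, 0, 0)))
      (by unfold head; exact Sym2.mem_mk_right _ _)
    apply h2
    simp [opn, vtx, pt]
  have hs : stp m ω ((m : ℤ) - 1, 0, 0) = xe m := by
    unfold stp raw
    rw [if_neg hhead]
    have : cls ((m : ℤ) - 1, 0, 0) = xe m := by
      simp [cls, xe]
    rw [this, Equiv.swap_apply_of_ne_of_ne]
    · simp only [x0, xe, ne_eq, Prod.mk.injEq]; omega
    · simp only [xe, ne_eq, Prod.mk.injEq]; omega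
  have hprev : (stp m ω)^[per m ω - 2] x0 = ((m : ℤ) - 1, 0, 0) := by
    apply stp_injective m ω
    rw [← iterate_succ_apply' (stp m ω), show (per m ω - 2).succ = per m ω - 1 by omega, hl, hs]
  have ht := turn_slot hm hω' hT (N := per m ω - 1) (by omega) (by rw [hl]; exact xe_slot m L)
  have e1 : per m ω - 1 = (per m ω - 2) + 1 := by omega
  rw [e1, tt_succ, hprev] at ht
  rw [← e1, hl] at ht
  have hd : dir (xe m) = m + 1 := by simp [dir, xe]
  rw [eps_of_not_mem hhead, hd] at ht
  unfold GG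
  rw [Gc_eq (stp_injective m ω) hT (by omega : per m ω - 2 < per m ω) hprev,
    if_pos (eps_of_not_mem hhead)]
  congr 1
  linarith

/-- corners along the last ray -/
lemma GG_ray (hm : 1 ≤ m) (hω : ω ⊆ ER m L) {φ : ℤ → ℝ} (hφ : φ (m + 1) ≤ 0) {i : ℕ} (hi : 1 ≤ i)
    (hp : ((m : ℤ) - 1, 1, 2 * i) ∈ K m L) :
    GG φ m ω ((m : ℤ) - 1, 1, 2 * i) ≤ 0 := by
  classical
  have hω' : ω ⊆ edges m L := hω.trans ER_subset
  have hT := per_cyc hm hω'
  set p : Rp := ((m : ℤ) - 1, 1, 2 * i) with hpdef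
  by_cases hv : ∃ n < per m ω, (stp m ω)^[n] x0 = p
  · obtain ⟨n, hn, hc⟩ := hv
    -- the vertex across
    have hopn : opn p = ((m : ℤ) - 1, 0, 2 * i) := opn_1 _ _
    have hvo : vtx (opn p) = ((m : ℤ), i, 0) := by
      rw [hopn, vtx_l _ hi, sub_add_cancel]
    have hhead : head p ∉ ω := by
      intro h
      have h2 := (mem_ER.mp (hω h)).2 (vtx (opn p)) (by unfold head; exact Sym2.mem_mk_right _ _)
      apply h2
      rw [hvo]
    have hopK : opn p ∈ K m L := by
      rw [hopn]
      rw [mem_K] at hp ⊢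
      simp only [hpdef] at hp ⊢
      omega
    have hpe : head p ∈ edges m L := (head_mem_edges hm hp).mpr hopK
    set ω₂ := insert (head p) ω with hω₂def
    have hω₂ : ω₂ ⊆ edges m L := insert_subset hpe hω'
    have hT₂ := per_cyc hm hω₂
    -- the corners visited before time n have another head
    have hhd : ∀ k < n, head ((stp m ω)^[k] x0) ≠ head p := by
      intro k hk h
      rcases (head_eq_iff p _).mp h.symm with h3 | h3
      · have := hT.inj (stp_injective m ω) (m := k) (n := n) (by omega) hn (h3.trans hc.symm)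
        omega
      · have h4 := reach_iter hm hω' hT k (by omega)
        rw [h3, vtx_mate, hvo] at h4
        exact reach_ER hm hω h4 rfl
    have hstep : ∀ k < n, stp m ω₂ ((stp m ω)^[k] x0) = stp m ω ((stp m ω)^[k] x0) ∧
        eps ω₂ ((stp m ω)^[k] x0) = eps ω ((stp m ω)^[k] x0) := by
      intro k hk
      have h1 := hhd k hk
      by_cases hin : head ((stp m ω)^[k] x0) ∈ ω
      · have hin' : head ((stp m ω)^[k] x0) ∈ ω₂ := mem_insert_of_mem hin
        unfold stp raw at h1 hin hin' ⊢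
        rw [if_pos hin, if_pos hin', eps_of_mem hin, eps_of_mem hin']
        exact ⟨rfl, rfl⟩
      · have hin' : head ((stp m ω)^[k] x0) ∉ ω₂ := by
          intro h'
          rcases mem_insert.mp h' with h4 | h4
          · exact h1 h4
          · exact hin h4
        unfold stp raw at h1 hin hin' ⊢
        rw [if_neg hin, if_neg hin', eps_of_not_mem hin, eps_of_not_mem hin']
        exact ⟨rfl, rfl⟩
    have hagree : ∀ k ≤ n, (stp m ω₂)^[k] x0 = (stp m ω)^[k] x0 ∧
        tt (stp m ω₂) (eps ω₂) x0 k = tt (stp m ω) (eps ω) x0 k := by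
      intro k
      induction k with
      | zero => intro _; exact ⟨rfl, by simp [tt]⟩
      | succ k ih =>
        intro hk
        obtain ⟨h1, h2⟩ := ih (by omega)
        obtain ⟨h3, h4⟩ := hstep k (by omega)
        refine ⟨?_, ?_⟩
        · rw [iterate_succ_apply', iterate_succ_apply', h1, h3]
        · rw [tt_succ, tt_succ, h2, h1, h4]
    obtain ⟨ha1, ha2⟩ := hagree n le_rfl
    have hmem : head p ∈ ω₂ := mem_insert_self _ _
    -- the two next corners
    have hs1 : (stp m ω₂)^[n + 1] x0 = ((m : ℤ) - 1, 0, 2 * i) := by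
      rw [iterate_succ_apply', ha1, hc]
      unfold stp raw
      rw [if_pos hmem, hopn, Equiv.swap_apply_of_ne_of_ne]
      · simp only [x0, ne_eq, Prod.mk.injEq]; omega
      · simp only [ne_eq, Prod.mk.injEq]; omega
    have hhead2 : head ((m : ℤ) - 1, 0, 2 * i) ∉ ω₂ := by
      have hv1 : vtx ((m : ℤ) - 1, 0, 2 * i) = ((m : ℤ), i, 0) := by rw [← hopn]; exact hvo
      intro h
      rcases mem_insert.mp h with h | h
      · unfold head at h
        rw [hv1, hvo, Sym2.eq_iff] at h
        have hv2 : (vtx (opn ((m : ℤ) - 1, 0, 2 * i))) = ((m : ℤ), i + 1, 0) := by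
          rw [opn_l, vtx_l1, sub_add_cancel]
        have hvp : vtx p = ((m : ℤ) - 1, 1, i) := vtx_1 _ _
        rw [hv2, hvp] at h
        simp only [Prod.mk.injEq] at h
        omega
      · have h2 := (mem_ER.mp (hω h)).2 (vtx ((m : ℤ) - 1, 0, 2 * i))
          (by unfold head; exact Sym2.mem_mk_left _ _)
        apply h2
        rw [hv1]
    have hs2 : (stp m ω₂)^[n + 2] x0 = ((m : ℤ), 2 * i, 0) := by
      rw [iterate_succ_apply', hs1]
      unfold stp raw
      rw [if_neg hhead2]
      have hcls : cls ((m : ℤ) - 1, 0, 2 * i) = ((m : ℤ), 2 * i, 0) := by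
        rw [cls_l, sub_add_cancel]
      rw [hcls, Equiv.swap_apply_of_ne_of_ne]
      · simp only [x0, ne_eq, Prod.mk.injEq]; omega
      · simp only [ne_eq, Prod.mk.injEq]; omega
    -- the period is large
    have hx0 : ∀ k, 0 < k → k ≤ n + 2 → (stp m ω₂)^[k] x0 ≠ x0 := by
      intro k hk1 hk2 h
      rcases Nat.lt_or_ge n k with h1 | h1
      · rcases (show k = n + 1 ∨ k = n + 2 by omega) with h2 | h2
        · rw [h2, hs1] at h
          simp only [x0, Prod.mk.injEq] at h
          omega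
        · rw [h2, hs2] at h
          simp only [x0, Prod.mk.injEq] at h
          omega
      · rw [(hagree k h1).1] at h
        exact hT.min k hk1 (by omega) h
    have hlt : n + 2 < per m ω₂ := by
      by_contra hcon
      push Not at hcon
      exact hx0 _ hT₂.pos hcon hT₂.ret
    have hsl : opn ((m : ℤ), 2 * i, 0) ∉ K m L := by
      have ho : opn ((m : ℤ), 2 * i, 0) = ((m : ℤ), 2 * i, 1) := by simp [opn]
      have : Lx m L ((m : ℤ) + 1) = 0 := Lx_of_lt (Or.inr (by omega))
      rw [ho, mem_K]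
      simp only [this]
      omega
    have ht := turn_slot hm hω₂ hT₂ (N := n + 2) hlt (by rw [hs2]; exact hsl)
    rw [hs2, show n + 2 = (n + 1) + 1 from rfl, tt_succ, tt_succ, ha1, hc, hs1, eps_of_mem hmem,
      eps_of_not_mem hhead2, ha2] at ht
    have hd : dir ((m : ℤ), 2 * i, 0) = m + 1 := by simp [dir]
    rw [hd] at ht
    unfold GG
    rw [Gc_eq (stp_injective m ω) hT hn hc, if_pos (eps_of_not_mem hhead)]
    have : tt (stp m ω) (eps ω) x0 n = m + 1 := by linarith
    rw [this]
    exact hφ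
  · unfold GG
    rw [Gc_eq_zero]
    intro n hn hc
    exact hv ⟨n, hn, hc⟩

/-- corners whose head is an erased edge -/
lemma erased_cases (hm : 1 ≤ m) {p : Rp} (hp : p ∈ K m L) (hp2 : opn p ∈ K m L)
    (he : head p ∉ ER m L) :
    (vtx p).1 = (m : ℤ) ∨ p = ((m : ℤ) - 1, 0, 0) ∨
      ∃ i : ℕ, 1 ≤ i ∧ p = ((m : ℤ) - 1, 1, 2 * i) := by
  have hpe : head p ∈ edges m L := (head_mem_edges hm hp).mpr hp2
  have h1 : ∃ v ∈ head p, v.1 = (m : ℤ) := by
    by_contra hcon
    push Not at hcon
    exact he (mem_ER.mpr ⟨hpe, hcon⟩)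
  obtain ⟨v, hv, hvm⟩ := h1
  unfold head at hv
  rw [Sym2.mem_iff] at hv
  rcases hv with rfl | rfl
  · exact Or.inl hvm
  · by_cases h0 : (vtx p).1 = (m : ℤ)
    · exact Or.inl h0
    · right
      obtain ⟨k, a, b⟩ := p
      rw [mem_K] at hp
      have hLm : Lx m L ((m : ℤ) + 1) = 0 := Lx_of_lt (Or.inr (by omega))
      unfold vtx at hvm h0
      rcases Nat.mod_two_eq_zero_or_one a with ha | ha <;>
        rcases Nat.mod_two_eq_zero_or_one b with hb | hb
      · have ho : opn (k, a, b) = (k, a, b + 1) := by simp [opn, ha, hb]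
        rw [ho] at hvm
        unfold pt at hvm h0
        simp only at hvm h0 hp
        left
        split_ifs at hvm h0 <;> simp only [Prod.mk.injEq] at * <;> omega
      · have ho : opn (k, a, b) = (k, a + 1, b) := by simp [opn, ha, hb]
        rw [ho] at hvm
        unfold pt at hvm h0
        simp only at hvm h0 hp
        exfalso
        have hkm : k = (m : ℤ) := by
          split_ifs at hvm h0 <;> simp only at * <;> omega
        subst hkm
        rw [hLm] at hp
        omega
      · have ho : opn (k, a, b) = (k, a - 1, b) := by simp [opn, ha, hb]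
        rw [ho] at hvm
        unfold pt at hvm h0
        simp only at hvm h0 hp
        right
        refine ⟨b / 2, ?_, ?_⟩
        · split_ifs at hvm h0 <;> simp only at * <;> omega
        · split_ifs at hvm h0 <;> simp only [Prod.mk.injEq] at * <;> omega
      · have ho : opn (k, a, b) = (k, a, b - 1) := by simp [opn, ha, hb]
        rw [ho] at hvm
        unfold pt at hvm h0
        simp only at hvm h0 hp
        exfalso
        split_ifs at hvm h0 <;> simp only at * <;> omega

/-- the expected contribution of a random tile vanishes -/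
lemma sum_tile' (hm : 1 ≤ m) {q : ℝ} (hq : 0 < q) {φ : ℤ → ℝ}
    (hφ : ∀ t, φ (t + 1) + φ (t - 1) = √q * φ t) {E : Finset (Sym2 Vtx)} (hE : E ⊆ edges m L)
    {p : Rp} (hp : p ∈ K m L) (hp2 : opn p ∈ K m L) (hpe : head p ∈ E) :
    ∑ ω ∈ E.powerset, W q (verts m L) ω * (GG φ m ω p + GG φ m ω (mate p)) = 0 := by
  classical
  apply sum_involution (fun ω _ => if head p ∈ ω then ω.erase (head p) else insert (head p) ω)
  · intro ω hω
    rw [mem_powerset] at hω
    by_cases hin : head p ∈ ω
    · rw [if_pos hin]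
      have := local_GG hm hq hφ (((erase_subset (head p) ω).trans hω).trans hE) hp hp2
        (notMem_erase _ _)
      rw [insert_erase hin] at this
      linarith
    · rw [if_neg hin]
      exact local_GG hm hq hφ (hω.trans hE) hp hp2 hin
  · intro ω hω _
    by_cases hin : head p ∈ ω
    · rw [if_pos hin]
      intro h'
      have : head p ∈ ω.erase (head p) := by rw [h']; exact hin
      exact notMem_erase _ _ this
    · rw [if_neg hin]
      intro h'
      apply hin
      rw [← h']; exact mem_insert_self _ _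
  · intro ω hω
    by_cases hin : head p ∈ ω
    · simp only [if_pos hin, if_neg (notMem_erase _ _)]
      exact insert_erase hin
    · simp only [if_neg hin, if_pos (mem_insert_self _ _)]
      exact erase_insert hin
  · intro ω hω
    rw [mem_powerset] at hω
    by_cases hin : head p ∈ ω
    · simp only [if_pos hin]
      exact mem_powerset.mpr ((erase_subset _ _).trans hω)
    · simp only [if_neg hin]
      exact mem_powerset.mpr (insert_subset hpe hω)

open Classical in
lemma sum_random' (hm : 1 ≤ m) {q : ℝ} (hq : 0 < q) {φ : ℤ → ℝ}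
    (hφ : ∀ t, φ (t + 1) + φ (t - 1) = √q * φ t) {E : Finset (Sym2 Vtx)} (hE : E ⊆ edges m L) :
    ∑ p ∈ (K m L).filter (fun p => opn p ∈ K m L ∧ head p ∈ E),
      ∑ ω ∈ E.powerset, W q (verts m L) ω * GG φ m ω p = 0 := by
  apply sum_involution (fun p _ => mate p)
  · intro p hp
    rw [mem_filter] at hp
    rw [← sum_add_distrib, ← sum_tile' hm hq hφ hE hp.1 hp.2.1 hp.2.2]
    apply sum_congr rfl
    intro ω _
    ring
  · intro p _ _
    exact mate_ne p
  · intro p hp
    rw [mem_filter] at hp ⊢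
    have hm1 : mate p ∈ K m L := mate_mem_K hp.1 hp.2.1
    refine ⟨hm1, (head_mem_edges hm hm1).mp ?_, ?_⟩
    · rw [head_mate]; exact (head_mem_edges hm hp.1).mpr hp.2.1
    · rw [head_mate]; exact hp.2.2
  · intro p _
    exact mate_mate p

end

open Classical in
/-- boundary inequality -/
theorem cut_ident {q : ℝ} (hq : 0 < q) {m : ℕ} (hm : 1 ≤ m) (L : ℤ → ℕ) (hL : 1 ≤ L m) (φ : ℤ → ℝ)
    (hφ : ∀ t, φ (t + 1) + φ (t - 1) = √q * φ t) (hφm : φ (m + 1) ≤ 0) :
    ∑ j ∈ Finset.Icc (0 : ℤ) (m + 1), φ j ≤ φ m +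
      ∑ p ∈ (K m L).filter (fun p => opn p ∉ K m L),
        φ (dir p) * G q (verts m L) (ER m L) (0, 0, 0) (vtx p) := by
  set V := verts m L with hV
  set E := ER m L with hE
  set Z : ℝ := ∑ ω ∈ E.powerset, W q V ω with hZ
  have hZpos : 0 < Z := sum_pos (fun ω _ => W_pos hq V ω) ⟨∅, by simp⟩
  have tot : ∑ p ∈ K m L, ∑ ω ∈ E.powerset, W q V ω * GG φ m ω p
      = Z * ∑ j ∈ Finset.Icc (0 : ℤ) (m + 1), φ j := by
    rw [sum_comm, hZ, sum_mul]
    apply sum_congr rfl
    intro ω hω
    rw [← mul_sum, sum_GG hm ((mem_powerset.mp hω).trans ER_subset)]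
  rw [← sum_filter_add_sum_filter_not (K m L) (fun p => opn p ∉ K m L),
    ← sum_filter_add_sum_filter_not ((K m L).filter fun p => ¬ opn p ∉ K m L)
      (fun p => head p ∈ E), filter_filter, filter_filter] at tot
  have hr : (K m L).filter (fun p => ¬ opn p ∉ K m L ∧ head p ∈ E)
      = (K m L).filter (fun p => opn p ∈ K m L ∧ head p ∈ E) := by
    apply filter_congr
    intro p _
    rw [not_not]
  rw [hr, sum_random' hm hq hφ ER_subset, zero_add] at tot
  have hs : ∀ p ∈ (K m L).filter (fun p => opn p ∉ K m L),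
      ∑ ω ∈ E.powerset, W q V ω * GG φ m ω p =
        Z * (φ (dir p) * G q V E (0, 0, 0) (vtx p)) := by
    intro p hp
    rw [mem_filter] at hp
    have h1 := G_eq hq V E (0, 0, 0) (vtx p)
    have h2 : Z * (φ (dir p) * G q V E (0, 0, 0) (vtx p))
        = φ (dir p) * (Z * G q V E (0, 0, 0) (vtx p)) := by ring
    rw [h2, hZ, h1, mul_sum]
    apply sum_congr rfl
    intro ω hω
    rw [GG_slot hm ((mem_powerset.mp hω).trans ER_subset) φ hp.1 hp.2]
    split_ifs <;> ring
  have hthird : ∑ p ∈ (K m L).filter (fun p => ¬ opn p ∉ K m L ∧ ¬ head p ∈ E),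
      ∑ ω ∈ E.powerset, W q V ω * GG φ m ω p ≤ Z * φ m := by
    have hle : ∀ p ∈ (K m L).filter (fun p => ¬ opn p ∉ K m L ∧ ¬ head p ∈ E),
        ∑ ω ∈ E.powerset, W q V ω * GG φ m ω p ≤
          if p = ((m : ℤ) - 1, 0, 0) then Z * φ m else 0 := by
      intro p hp
      rw [mem_filter, not_not] at hp
      obtain ⟨hpK, hpo, hpE⟩ := hp
      split_ifs with h
      · rw [h, hZ, sum_mul]
        apply le_of_eq
        apply sum_congr rfl
        intro ω hω
        rw [GG_tip hm (mem_powerset.mp hω)]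
      · apply sum_nonpos
        intro ω hω
        apply mul_nonpos_of_nonneg_of_nonpos (W_pos hq V ω).le
        rcases erased_cases hm hpK hpo hpE with h1 | h1 | ⟨i, hi, h1⟩
        · have hz : GG φ m ω p = 0 := by
            unfold GG
            apply Gc_eq_zero
            intro n hn hc
            have h2 := reach_iter hm ((mem_powerset.mp hω).trans ER_subset)
              (per_cyc hm ((mem_powerset.mp hω).trans ER_subset)) n hn
            rw [hc] at h2
            exact reach_ER hm (mem_powerset.mp hω) h2 h1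
          exact hz.le
        · exact absurd h1 h
        · subst h1
          exact GG_ray hm (mem_powerset.mp hω) hφm hi hpK
    refine (sum_le_sum hle).trans ?_
    rw [sum_ite_eq' _ ((m : ℤ) - 1, 0, 0) (fun _ => Z * φ m)]
    have hmem : (((m : ℤ) - 1, 0, 0) : Rp) ∈
        (K m L).filter (fun p => ¬ opn p ∉ K m L ∧ ¬ head p ∈ E) := by
      have hLm : Lx m L m = L m := by
        unfold Lx
        rw [if_pos ⟨by omega, le_rfl⟩]
      have ho : opn ((m : ℤ) - 1, 0, 0) = ((m : ℤ) - 1, 0, 1) := by simp [opn]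
      rw [mem_filter, not_not, ho, mem_K, mem_K]
      simp only [sub_add_cancel, hLm]
      refine ⟨by omega, by omega, ?_⟩
      intro h
      have h2 := (mem_ER.mp h).2 (vtx (opn ((m : ℤ) - 1, 0, 0)))
        (by unfold head; exact Sym2.mem_mk_right _ _)
      apply h2
      simp [opn, vtx, pt]
    rw [if_pos hmem]
  rw [sum_congr rfl hs, ← mul_sum] at tot
  have : Z * ∑ j ∈ Finset.Icc (0 : ℤ) (m + 1), φ j ≤ Z * (φ m +
      ∑ p ∈ (K m L).filter (fun p => opn p ∉ K m L),
        φ (dir p) * G q V E (0, 0, 0) (vtx p)) := by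
    rw [← tot, mul_add]
    linarith
  exact le_of_mul_le_mul_left this hZpos

theorem Ur_nonpos {r : ℝ} {m : ℕ} (hm : 1 ≤ m) (h1 : 2 * Real.cos (Real.pi / (m + 1)) < r)
    (h2 : r ≤ 2 * Real.cos (Real.pi / (m + 2))) : Ur r (m + 1 : ℤ) ≤ 0 := by
  have hpi := Real.pi_pos
  have hm1 : (1 : ℝ) ≤ m := by exact_mod_cast hm
  have hr1 : -1 ≤ r / 2 := by
    have := Real.neg_one_le_cos (Real.pi / (m + 1))
    linarith
  have hc2 := Real.cos_le_one (Real.pi / (m + 2))
  have hr2 : r / 2 ≤ 1 := by linarith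
  set θ := Real.arccos (r / 2) with hθ
  have hcos : Real.cos θ = r / 2 := Real.cos_arccos hr1 hr2
  have hx0 : 0 < Real.pi / (m + 2) := by positivity
  have hy0 : 0 < Real.pi / (m + 1) := by positivity
  have hy1 : Real.pi / (m + 1) ≤ Real.pi / 2 :=
    div_le_div_of_nonneg_left hpi.le (by norm_num) (by linarith)
  have hθ1 : θ < Real.pi / (m + 1) := by
    by_contra hcon
    push Not at hcon
    have := Real.cos_le_cos_of_nonneg_of_le_pi hy0.le (Real.arccos_le_pi _) hcon
    rw [← hθ, hcos] at this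
    linarith
  have hθ0 : Real.pi / (m + 2) ≤ θ := by
    by_contra hcon
    push Not at hcon
    have hlt : Real.cos (Real.pi / (m + 2)) < Real.cos θ := by
      apply Real.cos_lt_cos_of_nonneg_of_le_pi (Real.arccos_nonneg _)
      · have : Real.pi / (m + 2) ≤ Real.pi := div_le_self hpi.le (by linarith)
        exact this
      · exact hcon
    rw [hcos] at hlt
    linarith
  have hθpos : 0 < θ := lt_of_lt_of_le hx0 hθ0
  have hs : 0 < Real.sin θ := Real.sin_pos_of_pos_of_lt_pi hθpos (by linarith)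
  have key := Ur_cos' hr1 hr2 (m + 1 : ℤ)
  rw [← hθ] at key
  have hge : Real.pi ≤ ((m : ℝ) + 2) * θ := by
    calc Real.pi = ((m : ℝ) + 2) * (Real.pi / (m + 2)) := by field_simp
      _ ≤ ((m : ℝ) + 2) * θ := mul_le_mul_of_nonneg_left hθ0 (by linarith)
  have hle : ((m : ℝ) + 1) * θ ≤ Real.pi := by
    calc ((m : ℝ) + 1) * θ ≤ ((m : ℝ) + 1) * (Real.pi / (m + 1)) :=
          mul_le_mul_of_nonneg_left hθ1.le (by linarith)
      _ = Real.pi := by field_simp
  have hnon : 0 ≤ Real.sin (((m : ℝ) + 2) * θ - Real.pi) := by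
    apply Real.sin_nonneg_of_nonneg_of_le_pi
    · linarith
    · have : ((m : ℝ) + 2) * θ = ((m : ℝ) + 1) * θ + θ := by ring
      linarith
  rw [Real.sin_sub_pi] at hnon
  push_cast at key
  have e1 : ((m : ℝ) + 1 + 1) * θ = ((m : ℝ) + 2) * θ := by ring
  rw [e1] at key
  by_contra hcon
  push Not at hcon
  have := mul_pos hcon hs
  linarith

lemma G_ray_zero {q : ℝ} (hq : 0 < q) {m : ℕ} (hm : 1 ≤ m) (L : ℤ → ℕ) {v : Vtx}
    (hv : v.1 = (m : ℤ)) : G q (verts m L) (ER m L) (0, 0, 0) v = 0 := by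
  classical
  have h1 := G_eq hq (verts m L) (ER m L) (0, 0, 0) v
  have h2 : ∑ ω ∈ (ER m L).powerset, W q (verts m L) ω *
      (if (openGraph ω).Reachable (0, 0, 0) v then 1 else 0) = 0 := by
    apply sum_eq_zero
    intro ω hω
    rw [if_neg, mul_zero]
    intro h
    exact reach_ER hm (mem_powerset.mp hω) h hv
  rw [h2] at h1
  have hZpos : 0 < ∑ ω ∈ (ER m L).powerset, W q (verts m L) ω :=
    sum_pos (fun ω _ => W_pos hq _ ω) ⟨∅, by simp⟩
  exact (mul_eq_zero.mp h1).resolve_left hZpos.ne'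

/-- a boundary vertex which is connected to the tip with probability at least `c / N` -/
theorem cut_arm {q : ℝ} (hq : 0 < q) {m : ℕ} (hm : 1 ≤ m)
    (h1 : 2 * Real.cos (Real.pi / (m + 1)) < √q) (h2 : √q ≤ 2 * Real.cos (Real.pi / (m + 2))) :
    ∃ c : ℝ, 0 < c ∧ ∀ N : ℕ, 1 ≤ N → ∃ v : Vtx, 0 ≤ v.1 ∧ v.1 < m ∧ 1 ≤ v.2.1 ∧ v.2.1 ≤ N ∧
      v.2.2 ≤ N ∧ (v.2.1 = N ∨ v.2.2 = N) ∧
      c / N ≤ G q (verts m fun _ => N) (ER m fun _ => N) (0, 0, 0) v := by
  classical
  set φ : ℤ → ℝ := Ur √q with hφdef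
  have hφ : ∀ t, φ (t + 1) + φ (t - 1) = √q * φ t := by
    intro t
    have := Ur_rec' √q (t - 1)
    rw [show t - 1 + 2 = t + 1 by ring, show t - 1 + 1 = t by ring] at this
    rw [hφdef]
    linarith
  have hφpos : ∀ j : ℕ, j ≤ m → 0 < φ j := fun j hj => Ur_pos h1 j hj
  have hφm : φ (m + 1) ≤ 0 := Ur_nonpos hm h1 h2
  have hφ0 : φ 0 = 1 := Ur_zero' _
  have hφneg : φ (-1) = 0 := by
    have h3 := hφ 0
    have h4 : φ (0 + 1) = √q := by rw [zero_add]; exact Ur_one' _
    rw [h4, hφ0] at h3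
    rw [zero_sub] at h3
    linarith
  have hφpos' : ∀ j : ℤ, 0 ≤ j → j ≤ m → 0 < φ j := by
    intro j hj hj'
    have := hφpos j.toNat (by omega)
    rwa [Int.toNat_of_nonneg hj] at this
  set Φ : ℝ := ∑ j ∈ Icc (0 : ℤ) m, φ j with hΦ
  have hΦ1 : ∀ j : ℤ, 0 ≤ j → j ≤ m → φ j ≤ Φ := by
    intro j hj hj'
    apply single_le_sum (f := φ) _ (mem_Icc.mpr ⟨hj, hj'⟩)
    intro i hi
    rw [mem_Icc] at hi
    exact (hφpos' i hi.1 hi.2).le
  have hΦpos : 0 < Φ := lt_of_lt_of_le (hφpos' 0 le_rfl (by omega)) (hΦ1 0 le_rfl (by omega))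
  refine ⟨1 / (6 * (m + 2) * Φ), by positivity, ?_⟩
  intro N hN
  set L : ℤ → ℕ := fun _ => N with hL
  set S := (K m L).filter (fun p => opn p ∉ K m L) with hS
  set g : Rp → ℝ := fun p => G q (verts m L) (ER m L) (0, 0, 0) (vtx p) with hg
  have hg0 : ∀ p, 0 ≤ g p := fun p => G_nonneg hq _ _ _ _
  have hid := cut_ident hq hm L (by rw [hL]; exact hN) φ hφ hφm
  have hNpos : (0 : ℝ) < N := by exact_mod_cast hN
  -- existence of a good corner
  have hex : ∃ p ∈ S, 0 ≤ dir p ∧ dir p ≤ m ∧ 1 / (6 * (m + 2) * Φ) / N ≤ g p := by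
    by_contra hcon
    push Not at hcon
    set δ : ℝ := 1 / (6 * (m + 2) * Φ) / N with hδ
    have hδ0 : 0 < δ := by positivity
    have hle : ∀ p ∈ S, φ (dir p) * g p ≤ (if p = xe m then φ (m + 1) else 0) + Φ * δ := by
      intro p hp
      have hΦδ : 0 ≤ Φ * δ := by positivity
      by_cases hx : p = xe m
      · rw [if_pos hx]
        have hd : dir p = m + 1 := by rw [hx]; simp [dir, xe]
        have hg1 : g p = 1 := by
          have : vtx p = (0, 0, 0) := by rw [hx]; simp [vtx, xe, pt]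
          rw [hg]
          simp only [this]
          exact G_self hq _ _ _
        rw [hd, hg1]
        linarith
      · rw [if_neg hx, zero_add]
        rw [hS, mem_filter, mem_K] at hp
        rcases lt_or_ge (dir p) 0 with h3 | h3
        · have hd : dir p = -1 := by
            have : -1 ≤ dir p := by unfold dir; split_ifs <;> omega
            omega
          rw [hd, hφneg, zero_mul]
          exact hΦδ
        · rcases lt_or_ge (m : ℤ) (dir p) with h4 | h4
          · have hd : dir p = m + 1 := by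
              have : dir p ≤ m + 1 := by unfold dir; split_ifs <;> omega
              omega
            rw [hd]
            exact (mul_nonpos_of_nonpos_of_nonneg hφm (hg0 p)).trans hΦδ
          · have hpS : p ∈ S := by rw [hS, mem_filter, mem_K]; exact hp
            have h5 := hcon p hpS h3 h4
            exact mul_le_mul (hΦ1 _ h3 h4) h5.le (hg0 p) hΦpos.le
    have hsum := sum_le_sum hle
    rw [sum_add_distrib, sum_ite_eq' S (xe m) (fun _ => φ (m + 1)), sum_const, nsmul_eq_mul] at hsum
    have hxS : xe m ∈ S := by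
      rw [hS, mem_filter]
      exact ⟨xe_mem_K m L, xe_slot m L⟩
    rw [if_pos hxS] at hsum
    -- the number of boundary corners
    have hcard : (S.card : ℝ) ≤ 3 * (m + 2) * N := by
      have hc : S.card ≤ (m + 2) * (N + 1) + (m + 2) * N := by
        rw [hS, bdry_eq]
        have hLx : ∀ k, Lx m L k ≤ N := by
          intro k; unfold Lx; split_ifs
          · exact le_rfl
          · exact Nat.zero_le _
        have hI : (Icc (-1 : ℤ) m).card = m + 2 := by
          rw [Int.card_Icc]; omega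
        refine (card_union_le _ _).trans (Nat.add_le_add ?_ ?_)
        · refine card_image_le.trans ?_
          rw [card_sigma]
          refine (sum_le_card_nsmul _ _ (N + 1) ?_).trans ?_
          · intro k _
            rw [card_range]
            have := hLx k
            omega
          · rw [hI, smul_eq_mul]
        · refine card_image_le.trans ?_
          rw [card_sigma]
          refine (sum_le_card_nsmul _ _ N ?_).trans ?_
          · intro k _
            rw [Nat.card_Icc]
            have := hLx (k + 1)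
            omega
          · rw [hI, smul_eq_mul]
      have hc' : (S.card : ℝ) ≤ (m + 2) * (N + 1) + (m + 2) * N := by exact_mod_cast hc
      have hN1 : (1 : ℝ) ≤ N := by exact_mod_cast hN
      nlinarith [show (0 : ℝ) ≤ m by positivity]
    have hIcc : Icc (0 : ℤ) (m + 1) = insert ((m : ℤ) + 1) (Icc (0 : ℤ) m) := by
      ext j
      simp only [mem_insert, mem_Icc]
      omega
    have hIcc2 : Icc (0 : ℤ) m = insert (m : ℤ) (Icc (0 : ℤ) (m - 1)) := by
      ext j
      simp only [mem_insert, mem_Icc]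
      omega
    rw [hIcc, sum_insert (by simp), hIcc2, sum_insert (by simp)] at hid
    have h6 : (1 : ℝ) ≤ ∑ j ∈ Icc (0 : ℤ) (m - 1), φ j := by
      rw [← hφ0]
      apply single_le_sum (f := φ) _ (mem_Icc.mpr ⟨le_rfl, by omega⟩)
      intro i hi
      rw [mem_Icc] at hi
      exact (hφpos' i hi.1 (by omega)).le
    have h7 : (S.card : ℝ) * (Φ * δ) ≤ 1 / 2 := by
      calc (S.card : ℝ) * (Φ * δ) ≤ (3 * (m + 2) * N) * (Φ * δ) :=
            mul_le_mul_of_nonneg_right hcard (by positivity)
        _ = 1 / 2 := by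
            rw [hδ]
            have : (m : ℝ) + 2 ≠ 0 := by positivity
            field_simp
            norm_num
    linarith
  obtain ⟨p, hp, hd0, hdm, hpg⟩ := hex
  have hpos : 0 < 1 / (6 * (m + 2) * Φ) / (N : ℝ) := by positivity
  have hvm : (vtx p).1 ≠ (m : ℤ) := by
    intro h
    have := G_ray_zero hq hm L h
    rw [hg] at hpg
    simp only at hpg
    linarith
  refine ⟨vtx p, ?_⟩
  have hN1 : 1 ≤ N := hN
  rw [hS, bdry_eq, mem_union, mem_image, mem_image] at hp
  rcases hp with ⟨⟨k, i⟩, hx, rfl⟩ | ⟨⟨k, i⟩, hx, rfl⟩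
  · rw [mem_sigma, mem_Icc, mem_range] at hx
    simp only at hx hd0 hdm hvm hpg ⊢
    have hdir : dir ((k, 2 * i, 2 * Lx m L (k + 1)) : Rp) = k + 1 := by
      unfold dir; rw [if_pos (by simp)]
    rw [hdir] at hd0 hdm
    have hLk : Lx m L (k + 1) = N := by
      unfold Lx; rw [if_pos ⟨hd0, hdm⟩]
    have hi : i ≤ N := by
      have : Lx m L k ≤ N := by
        unfold Lx; split_ifs
        · exact le_rfl
        · exact Nat.zero_le _
      omega
    have hv : vtx ((k, 2 * i, 2 * Lx m L (k + 1)) : Rp) = pt k i N := by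
      unfold vtx
      rw [hLk]
      simp only
      rw [show (2 * i + 1) / 2 = i by omega, show (2 * N + 1) / 2 = N by omega]
    rw [hg] at hpg
    simp only at hpg
    rw [hv] at hvm hpg ⊢
    by_cases hi0 : i = 0
    · have hpt : pt k i N = (k + 1, N, 0) := by
        unfold pt; rw [if_pos hi0, if_neg (by omega)]
      rw [hpt] at hvm hpg ⊢
      simp only at hvm ⊢
      refine ⟨hd0, by omega, hN1, le_rfl, by omega, by simp, hpg⟩
    · have hpt : pt k i N = (k, i, N) := by
        unfold pt; rw [if_neg hi0]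
      have hk0 : 0 ≤ k := by
        by_contra hcon
        have : Lx m L k = 0 := Lx_of_lt (Or.inl (by omega))
        omega
      rw [hpt] at hvm hpg ⊢
      simp only at hvm ⊢
      exact ⟨hk0, by omega, by omega, hi, le_rfl, by simp, hpg⟩
  · rw [mem_sigma, mem_Icc, mem_Icc] at hx
    simp only at hx hd0 hdm hvm hpg ⊢
    have hdir : dir ((k, 2 * Lx m L k, 2 * i - 1) : Rp) = k := by
      unfold dir; rw [if_neg (by simp only; omega)]
    rw [hdir] at hd0 hdm
    have hk1 : k + 1 ≤ m := by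
      by_contra hcon
      have : Lx m L (k + 1) = 0 := Lx_of_lt (Or.inr (by omega))
      omega
    have hLk : Lx m L k = N := by
      unfold Lx; rw [if_pos ⟨hd0, hdm⟩]
    have hLk1 : Lx m L (k + 1) = N := by
      unfold Lx; rw [if_pos ⟨by omega, hk1⟩]
    have hv : vtx ((k, 2 * Lx m L k, 2 * i - 1) : Rp) = (k, N, i) := by
      unfold vtx pt
      rw [hLk]
      simp only
      rw [show (2 * N + 1) / 2 = N by omega, show (2 * i - 1 + 1) / 2 = i by omega,
        if_neg (by omega)]
    rw [hg] at hpg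
    simp only at hpg
    rw [hv] at hvm hpg ⊢
    simp only at hvm ⊢
    exact ⟨hd0, by omega, hN1, le_rfl, by omega, by simp, hpg⟩

end Pool.Agent.H95.Wedge
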