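import Mathlib

/-!
Critical random-cluster (FK) model on wedges made of `m` quadrants of the square lattice glued
around a common tip.
-/

namespace Pool.Agent.H95.Wedge

/-! ### The random-cluster model on a finite graph -/

section
variable {α : Type*}

/-- The graph of open edges of a configuration. -/
def openGraph (ω : Finset (Sym2 α)) : SimpleGraph α := SimpleGraph.fromEdgeSet (ω : Set (Sym2 α))

/-- Number of connected components of `(V, ω)`. -/
noncomputable def clusters (V : Finset α) (ω : Finset (Sym2 α)) : ℕ :=
  Set.ncard {C : (openGraph ω).ConnectedComponent | ∃ v ∈ V, (openGraph ω).connectedComponentMk v = C}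

/-- FK weight `(p / (1 - p)) ^ |ω| * q ^ c(ω)`. -/
noncomputable def fkWeight (p q : ℝ) (V : Finset α) (ω : Finset (Sym2 α)) : ℝ :=
  (p / (1 - p)) ^ ω.card * q ^ clusters V ω

open Classical in
/-- FK probability of the event `A` on the graph with vertex set `V` and edge set `E`, free boundary
conditions. -/
noncomputable def fkProb (p q : ℝ) (V : Finset α) (E : Finset (Sym2 α))
    (A : Finset (Sym2 α) → Prop) : ℝ :=
  (∑ ω ∈ E.powerset.filter A, fkWeight p q V ω) / ∑ ω ∈ E.powerset, fkWeight p q V ω

end

/-- The self-dual point of the square lattice. -/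
noncomputable def selfDual (q : ℝ) : ℝ := √q / (1 + √q)

/-! ### The wedge -/

/-- Vertices of the wedge. -/
abbrev Vtx := ℤ × ℕ × ℕ

/-- The point with coordinates `(x, y)` of the `k`-th quadrant. The vertical axis of quadrant `k` is
glued to the horizontal axis of quadrant `k + 1`, and all origins are glued to one point, the tip
`(0, 0, 0)`. -/
def pt (k : ℤ) (x y : ℕ) : Vtx := if x = 0 then (if y = 0 then (0, 0, 0) else (k + 1, y, 0)) else (k, x, y)

/-- The vertices of the finite wedge: quadrant `k < m` is the rectangle `{0, …, L k} × {0, …, L (k + 1)}`. -/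
noncomputable def verts (m : ℕ) (L : ℤ → ℕ) : Finset Vtx :=
  (Finset.Ico (0 : ℤ) m).biUnion fun k =>
    (Finset.range (L k + 1) ×ˢ Finset.range (L (k + 1) + 1)).image fun z => pt k z.1 z.2

/-- The nearest-neighbour edges of these rectangles. -/
noncomputable def edges (m : ℕ) (L : ℤ → ℕ) : Finset (Sym2 Vtx) :=
  (Finset.Ico (0 : ℤ) m).biUnion fun k =>
    ((Finset.range (L k) ×ˢ Finset.range (L (k + 1) + 1)).image
      fun z => s(pt k z.1 z.2, pt k (z.1 + 1) z.2)) ∪
    ((Finset.range (L k + 1) ×ˢ Finset.range (L (k + 1))).image
      fun z => s(pt k z.1 z.2, pt k z.1 (z.2 + 1)))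

/-- Probability that the tip and the boundary vertex at distance `k` from the tip are connected in the
wedge of `m` squares `{0, …, N}²`, for the FK model at its self-dual point with free boundary
conditions. -/
noncomputable def tipTwoPoint (q : ℝ) (m N k : ℕ) : ℝ :=
  fkProb (selfDual q) q (verts m fun _ => N) (edges m fun _ => N)
    fun ω => (openGraph ω).Reachable (0, 0, 0) (pt 0 k 0)

end Pool.Agent.H95.Wedge
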