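import Pool.Agent.H95.Wedge.DynDefs
import Pool.Agent.H95.Susc.Fkg

namespace Pool.Agent.H95.Wedge

open Finset Function Filter Topology

open Pool.Agent.H95.Susc (fil mem_fil ws Lat ws_congr ws_nonneg ws_mono_edges ws_fkg lat_of_single)
open Pool.Agent.H95.Perc (Inc)

/-! ## module FK (port of H95/SumRule/Weight, H95/Susc/Fkg, H95/Susc/Basic to general vertex types) -/

section FK
variable {α : Type*} [DecidableEq α] {V V' : Finset α} {E E' ω : Finset (Sym2 α)} {q : ℝ}

omit [DecidableEq α] in
theorem openGraph_adj' {x y : α} : (openGraph ω).Adj x y ↔ s(x, y) ∈ ω ∧ x ≠ y := by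
  simp [openGraph]

theorem openGraph_adj {x y : α} : (openGraph ω).Adj x y ↔ s(x, y) ∈ ω ∧ x ≠ y := by
  simp [openGraph]

omit [DecidableEq α] in
lemma openGraph_mono {ω' : Finset (Sym2 α)} (h : ω ⊆ ω') : openGraph ω ≤ openGraph ω' := by
  intro x y hxy
  rw [openGraph_adj'] at *
  exact ⟨h hxy.1, hxy.2⟩

lemma reach_insert {x y : α} (hxy : x ≠ y) {u v : α} :
    (openGraph (insert s(x, y) ω)).Reachable u v ↔
      (openGraph ω).Reachable u v ∨ ((openGraph ω).Reachable u x ∧ (openGraph ω).Reachable y v) ∨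
      ((openGraph ω).Reachable u y ∧ (openGraph ω).Reachable x v) := by
  constructor
  · rintro ⟨p⟩
    induction p with
    | nil => exact Or.inl (SimpleGraph.Reachable.refl _)
    | cons hadj p ih =>
      rename_i a b c
      rw [openGraph_adj, mem_insert] at hadj
      obtain ⟨h1 | h1, hne⟩ := hadj
      · rw [Sym2.eq_iff] at h1
        rcases h1 with ⟨rfl, rfl⟩ | ⟨rfl, rfl⟩
        · rcases ih with h | h | h
          · exact Or.inr (Or.inl ⟨SimpleGraph.Reachable.refl _, h⟩)
          · exact Or.inr (Or.inl ⟨SimpleGraph.Reachable.refl _, h.2⟩)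
          · exact Or.inl h.2
        · rcases ih with h | h | h
          · exact Or.inr (Or.inr ⟨SimpleGraph.Reachable.refl _, h⟩)
          · exact Or.inl h.2
          · exact Or.inr (Or.inr ⟨SimpleGraph.Reachable.refl _, h.2⟩)
      · have hab : (openGraph ω).Reachable a b :=
          SimpleGraph.Adj.reachable (openGraph_adj.mpr ⟨h1, hne⟩)
        rcases ih with h | h | h
        · exact Or.inl (hab.trans h)
        · exact Or.inr (Or.inl ⟨hab.trans h.1, h.2⟩)
        · exact Or.inr (Or.inr ⟨hab.trans h.1, h.2⟩)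
  · have hm : openGraph ω ≤ openGraph (insert s(x, y) ω) := openGraph_mono (subset_insert _ _)
    have hxy' : (openGraph (insert s(x, y) ω)).Reachable x y :=
      SimpleGraph.Adj.reachable (openGraph_adj.mpr ⟨mem_insert_self _ _, hxy⟩)
    rintro (h | h | h)
    · exact h.mono hm
    · exact (h.1.mono hm).trans (hxy'.trans (h.2.mono hm))
    · exact (h.1.mono hm).trans (hxy'.symm.trans (h.2.mono hm))

open Classical in
omit [DecidableEq α] in
lemma clusters_eq (V : Finset α) (ω : Finset (Sym2 α)) :
    clusters V ω = (V.image (fun v => (openGraph ω).connectedComponentMk v)).card := by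
  unfold clusters
  rw [← Set.ncard_coe_finset]
  congr 1
  ext C; simp

lemma clusters_insert_of_reach {x y : α} (hxy : x ≠ y)
    (h : (openGraph ω).Reachable x y) : clusters V (insert s(x, y) ω) = clusters V ω := by
  classical
  rw [clusters_eq, clusters_eq]
  symm
  apply card_bij (fun C _ => C.map (SimpleGraph.Hom.ofLE (openGraph_mono (subset_insert s(x, y) ω))))
  · intro C hC
    simp only [mem_image] at hC ⊢
    obtain ⟨v, hv, rfl⟩ := hC
    exact ⟨v, hv, rfl⟩
  · intro C hC C' hC' he
    simp only [mem_image] at hC hC'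
    obtain ⟨v, hv, rfl⟩ := hC
    obtain ⟨v', hv', rfl⟩ := hC'
    simp only [SimpleGraph.ConnectedComponent.map_mk, SimpleGraph.ConnectedComponent.eq] at he ⊢
    have he' := (reach_insert hxy).mp he
    simp only [SimpleGraph.Hom.coe_ofLE, id_eq] at he'
    rcases he' with h1 | h1 | h1
    · exact h1
    · exact h1.1.trans (h.trans h1.2)
    · exact h1.1.trans (h.symm.trans h1.2)
  · intro C hC
    simp only [mem_image] at hC
    obtain ⟨v, hv, rfl⟩ := hC
    exact ⟨(openGraph ω).connectedComponentMk v, mem_image_of_mem _ hv, rfl⟩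

lemma clusters_insert_of_not_reach {x y : α} (hxy : x ≠ y) (hx : x ∈ V) (hy : y ∈ V)
    (h : ¬ (openGraph ω).Reachable x y) : clusters V ω = clusters V (insert s(x, y) ω) + 1 := by
  classical
  rw [clusters_eq, clusters_eq]
  have hmem : (openGraph ω).connectedComponentMk y ∈
      V.image (fun v => (openGraph ω).connectedComponentMk v) := mem_image_of_mem _ hy
  rw [← card_erase_add_one hmem]
  congr 1
  apply card_bij (fun C _ => C.map (SimpleGraph.Hom.ofLE (openGraph_mono (subset_insert s(x, y) ω))))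
  · intro C hC
    rw [mem_erase] at hC
    simp only [mem_image] at hC ⊢
    obtain ⟨_, v, hv, rfl⟩ := hC
    exact ⟨v, hv, rfl⟩
  · intro C hC C' hC' he
    rw [mem_erase] at hC hC'
    simp only [mem_image] at hC hC'
    obtain ⟨hn, v, hv, rfl⟩ := hC
    obtain ⟨hn', v', hv', rfl⟩ := hC'
    simp only [SimpleGraph.ConnectedComponent.map_mk, SimpleGraph.ConnectedComponent.eq, ne_eq] at he hn hn' ⊢
    have he' := (reach_insert hxy).mp he
    simp only [SimpleGraph.Hom.coe_ofLE, id_eq] at he'
    rcases he' with h1 | h1 | h1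
    · exact h1
    · exact absurd h1.2.symm hn'
    · exact absurd h1.1 hn
  · intro C hC
    simp only [mem_image] at hC
    obtain ⟨v, hv, rfl⟩ := hC
    by_cases hvy : (openGraph ω).Reachable v y
    · refine ⟨(openGraph ω).connectedComponentMk x, ?_, ?_⟩
      · rw [mem_erase]
        refine ⟨?_, mem_image_of_mem _ hx⟩
        simp only [ne_eq, SimpleGraph.ConnectedComponent.eq]
        exact h
      · simp only [SimpleGraph.ConnectedComponent.map_mk, SimpleGraph.ConnectedComponent.eq]
        refine (reach_insert hxy).mpr ?_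
        simp only [SimpleGraph.Hom.coe_ofLE, id_eq]
        exact Or.inr (Or.inl ⟨SimpleGraph.Reachable.refl _, hvy.symm⟩)
    · refine ⟨(openGraph ω).connectedComponentMk v, ?_, rfl⟩
      rw [mem_erase]
      refine ⟨?_, mem_image_of_mem _ hv⟩
      simp only [ne_eq, SimpleGraph.ConnectedComponent.eq]
      exact hvy

lemma sd_ratio (hq : 0 < q) : selfDual q / (1 - selfDual q) = √q := by
  have : 0 < √q := Real.sqrt_pos.mpr hq
  unfold selfDual
  field_simp
  ring

omit [DecidableEq α] in
theorem W_pos' (hq : 0 < q) (V : Finset α) (ω : Finset (Sym2 α)) : 0 < W q V ω := by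
  unfold W fkWeight
  rw [sd_ratio hq]
  have : 0 < √q := Real.sqrt_pos.mpr hq
  positivity

theorem W_pos (hq : 0 < q) (V : Finset α) (ω : Finset (Sym2 α)) : 0 < W q V ω :=
  W_pos' hq V ω

theorem W_insert_of_reach (hq : 0 < q) {x y : α} (hxy : x ≠ y) (hn : s(x, y) ∉ ω)
    (h : (openGraph ω).Reachable x y) : W q V (insert s(x, y) ω) = √q * W q V ω := by
  unfold W fkWeight
  rw [sd_ratio hq, card_insert_of_notMem hn, clusters_insert_of_reach hxy h, pow_succ]
  ring

theorem W_insert_of_not_reach (hq : 0 < q) {x y : α} (hxy : x ≠ y) (hx : x ∈ V) (hy : y ∈ V)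
    (hn : s(x, y) ∉ ω) (h : ¬ (openGraph ω).Reachable x y) :
    W q V ω = √q * W q V (insert s(x, y) ω) := by
  unfold W fkWeight
  rw [sd_ratio hq, card_insert_of_notMem hn, clusters_insert_of_not_reach hxy hx hy h, pow_succ,
    pow_succ]
  have : √q * √q = q := Real.mul_self_sqrt hq.le
  linear_combination (√q ^ #ω * q ^ clusters V (insert s(x, y) ω)) * (-this)

/-- probability of an event for the free self-dual measure -/
noncomputable def PP (q : ℝ) (V : Finset α) (E : Finset (Sym2 α)) (A : Finset (Sym2 α) → Prop) : ℝ :=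
  fkProb (selfDual q) q V E A

lemma ws_true_pos (hq : 0 < q) (V : Finset α) (E : Finset (Sym2 α)) :
    0 < ws (W q V) E (fun _ => True) := by
  unfold ws
  exact sum_pos (fun ω _ => W_pos hq V ω) ⟨∅, by rw [mem_fil]; simp⟩

lemma PP_eq (V : Finset α) (E : Finset (Sym2 α)) (A : Finset (Sym2 α) → Prop) :
    PP q V E A = ws (W q V) E A / ws (W q V) E (fun _ => True) := by
  classical
  unfold PP fkProb ws fil
  simp only [filter_true]
  congr 1

lemma PP_nonneg (hq : 0 < q) (V : Finset α) (E : Finset (Sym2 α)) (A : Finset (Sym2 α) → Prop) :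
    0 ≤ PP q V E A := by
  rw [PP_eq]
  exact div_nonneg (ws_nonneg (fun ω => (W_pos hq V ω).le) _ _) (ws_true_pos hq _ _).le

lemma PP_mono (hq : 0 < q) {A B : Finset (Sym2 α) → Prop}
    (h : ∀ ω ⊆ E, A ω → B ω) : PP q V E A ≤ PP q V E B := by
  rw [PP_eq, PP_eq]
  apply div_le_div_of_nonneg_right _ (ws_true_pos hq _ _).le
  unfold ws
  apply sum_le_sum_of_subset_of_nonneg _ (fun ω _ _ => (W_pos hq V ω).le)
  intro ω hω
  rw [mem_fil] at hω ⊢
  exact ⟨hω.1, h ω hω.1 hω.2⟩

lemma PP_congr {A B : Finset (Sym2 α) → Prop}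
    (h : ∀ ω ⊆ E, A ω ↔ B ω) : PP q V E A = PP q V E B := by
  rw [PP_eq, PP_eq, ws_congr h]

lemma PP_true (hq : 0 < q) (V : Finset α) (E : Finset (Sym2 α)) : PP q V E (fun _ => True) = 1 := by
  rw [PP_eq]; exact div_self (ws_true_pos hq _ _).ne'

lemma PP_le_one (hq : 0 < q) (V : Finset α) (E : Finset (Sym2 α)) (A : Finset (Sym2 α) → Prop) :
    PP q V E A ≤ 1 := by
  rw [← PP_true hq V E]; exact PP_mono hq (fun _ _ _ => trivial)

omit [DecidableEq α] in
open Classical in
theorem G_eq' (hq : 0 < q) (V : Finset α) (E : Finset (Sym2 α)) (x y : α) :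
    (∑ ω ∈ E.powerset, W q V ω) * G q V E x y
      = ∑ ω ∈ E.powerset, W q V ω * (if (openGraph ω).Reachable x y then 1 else 0) := by
  have hpos : 0 < ∑ ω ∈ E.powerset, W q V ω :=
    sum_pos (fun ω _ => W_pos' hq V ω) ⟨∅, by simp⟩
  unfold G fkProb
  have e1 : (∑ ω ∈ E.powerset, fkWeight (selfDual q) q V ω) = ∑ ω ∈ E.powerset, W q V ω := rfl
  rw [e1, mul_div_cancel₀ _ hpos.ne', sum_filter]
  apply sum_congr rfl
  intro ω _
  unfold W
  split_ifs <;> simp

open Classical in
theorem G_eq (hq : 0 < q) (V : Finset α) (E : Finset (Sym2 α)) (x y : α) :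
    (∑ ω ∈ E.powerset, W q V ω) * G q V E x y
      = ∑ ω ∈ E.powerset, W q V ω * (if (openGraph ω).Reachable x y then 1 else 0) :=
  G_eq' hq V E x y

theorem G_nonneg (hq : 0 < q) (V : Finset α) (E : Finset (Sym2 α)) (x y : α) : 0 ≤ G q V E x y :=
  PP_nonneg hq V E _

theorem G_le_one (hq : 0 < q) (V : Finset α) (E : Finset (Sym2 α)) (x y : α) : G q V E x y ≤ 1 :=
  PP_le_one hq V E _

theorem G_self (hq : 0 < q) (V : Finset α) (E : Finset (Sym2 α)) (x : α) : G q V E x x = 1 := by
  have h := PP_true hq V E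
  rw [← h]
  exact PP_congr (fun _ _ => ⟨fun _ => trivial, fun _ => SimpleGraph.Reachable.refl _⟩)

theorem G_symm (V : Finset α) (E : Finset (Sym2 α)) (x y : α) : G q V E x y = G q V E y x :=
  PP_congr (fun _ _ => ⟨fun h => h.symm, fun h => h.symm⟩)

lemma W_lat (hq : 1 ≤ q) (hE : Good V E) : Lat (W q V) E := by
  apply lat_of_single (fun ω => W_pos (by linarith) V ω)
  intro a b e hab hb he heb
  have hq0 : 0 < q := by linarith
  have hs1 : 1 ≤ √q := Real.one_le_sqrt.mpr hq
  induction e with
  | _ x y =>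
    obtain ⟨hx, hy, hne⟩ := hE x y he
    have hea : s(x, y) ∉ a := fun h => heb (hab h)
    have pa := W_pos hq0 V a
    have pb := W_pos hq0 V b
    by_cases h1 : (openGraph a).Reachable x y
    · have h2 : (openGraph b).Reachable x y := h1.mono (openGraph_mono hab)
      rw [W_insert_of_reach hq0 hne hea h1, W_insert_of_reach hq0 hne heb h2]
      apply le_of_eq; ring
    · have e1 := W_insert_of_not_reach (V := V) hq0 hne hx hy hea h1
      have pa' := W_pos hq0 V (insert s(x, y) a)
      have pb' := W_pos hq0 V (insert s(x, y) b)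
      by_cases h2 : (openGraph b).Reachable x y
      · have e2 := W_insert_of_reach (V := V) hq0 hne heb h2
        rw [e1, e2]
        have : 1 ≤ √q * √q := by nlinarith
        nlinarith [mul_pos pa' pb]
      · have e2 := W_insert_of_not_reach (V := V) hq0 hne hx hy heb h2
        rw [e1, e2]
        apply le_of_eq; ring

/-- changing the vertex set multiplies all weights by a constant -/
lemma W_change (hq : 0 < q) (hV : V ⊆ V') (hE : Good V E) (hω : ω ⊆ E) :
    W q V' ω * W q V ∅ = W q V ω * W q V' ∅ := by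
  induction ω using Finset.induction_on with
  | empty => ring
  | insert e ω he ih =>
    have hω' : ω ⊆ E := fun x hx => hω (mem_insert_of_mem hx)
    have ih' := ih hω'
    have heE : e ∈ E := hω (mem_insert_self _ _)
    induction e with
    | _ x y =>
      obtain ⟨hx, hy, hne⟩ := hE x y heE
      by_cases h1 : (openGraph ω).Reachable x y
      · rw [W_insert_of_reach hq hne he h1, W_insert_of_reach hq hne he h1]
        linear_combination √q * ih'
      · have e1 := W_insert_of_not_reach (V := V) hq hne hx hy he h1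
        have e2 := W_insert_of_not_reach (V := V') hq hne (hV hx) (hV hy) he h1
        rw [e1, e2] at ih'
        have hs : 0 < √q := Real.sqrt_pos.mpr hq
        have : √q * (W q V' (insert s(x, y) ω) * W q V ∅)
            = √q * (W q V (insert s(x, y) ω) * W q V' ∅) := by
          linarith
        exact mul_left_cancel₀ hs.ne' this

theorem PP_fkg (hq : 1 ≤ q) (hE : Good V E) {A B : Finset (Sym2 α) → Prop}
    (hA : Inc A) (hB : Inc B) : PP q V E A * PP q V E B ≤ PP q V E (fun ω => A ω ∧ B ω) := by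
  have hq0 : 0 < q := by linarith
  have h := ws_fkg (fun ω => (W_pos hq0 V ω).le) (W_lat hq hE) hA hB
  have hZ := ws_true_pos hq0 V E
  rw [PP_eq, PP_eq, PP_eq, div_mul_div_comm, div_le_div_iff₀ (by positivity) hZ]
  nlinarith

/-- ratio of weights for a smaller edge set, seen from a bigger vertex set -/
lemma PP_eq_of_subset (hq : 0 < q) (hV : V ⊆ V') (hE : Good V E)
    (A : Finset (Sym2 α) → Prop) :
    PP q V E A = ws (W q V') E A / ws (W q V') E (fun _ => True) := by
  rw [PP_eq]
  have key : ∀ B : Finset (Sym2 α) → Prop,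
      ws (W q V') E B * W q V ∅ = ws (W q V) E B * W q V' ∅ := by
    intro B
    unfold ws
    rw [sum_mul, sum_mul]
    apply sum_congr rfl
    intro ω hω
    exact W_change hq hV hE (mem_fil.mp hω).1
  have p1 := W_pos hq V ∅
  have p2 := W_pos hq V' ∅
  rw [div_eq_div_iff (ws_true_pos hq _ _).ne' (ws_true_pos hq _ _).ne']
  have k1 := key A
  have k2 := key (fun _ => True)
  have : (ws (W q V) E A * ws (W q V') E (fun _ => True)) * (W q V ∅ * W q V' ∅)
      = (ws (W q V') E A * ws (W q V) E (fun _ => True)) * (W q V ∅ * W q V' ∅) := by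
    calc _ = (ws (W q V) E A * W q V' ∅) * (ws (W q V') E (fun _ => True) * W q V ∅) := by ring
      _ = (ws (W q V') E A * W q V ∅) * (ws (W q V) E (fun _ => True) * W q V' ∅) := by
          rw [k1, k2]
      _ = _ := by ring
  exact mul_right_cancel₀ (mul_pos p1 p2).ne' this

/-- monotonicity in the domain -/
theorem PP_mono_domain (hq : 1 ≤ q) (hE : Good V E) (hE' : Good V' E') (hV : V ⊆ V') (h : E ⊆ E')
    {A : Finset (Sym2 α) → Prop} (hA : Inc A) : PP q V E A ≤ PP q V' E' A := by
  have hq0 : 0 < q := by linarith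
  rw [PP_eq_of_subset hq0 hV hE, PP_eq]
  have h := ws_mono_edges (fun ω => (W_pos hq0 V' ω).le) h (W_lat hq hE') hA
  rw [div_le_div_iff₀ (ws_true_pos hq0 _ _) (ws_true_pos hq0 _ _)]
  linarith

omit [DecidableEq α] in
lemma inc_reach (x y : α) : Inc (fun ω : Finset (Sym2 α) => (openGraph ω).Reachable x y) :=
  fun _ _ hs h => h.mono (openGraph_mono hs)

theorem G_mono (hq : 1 ≤ q) (hE : Good V E) (hE' : Good V' E') (hV : V ⊆ V') (h : E ⊆ E') (x y : α) :
    G q V E x y ≤ G q V' E' x y :=
  PP_mono_domain hq hE hE' hV h (inc_reach x y)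

theorem G_trans (hq : 1 ≤ q) (hE : Good V E) (x y z : α) :
    G q V E x y * G q V E y z ≤ G q V E x z := by
  refine (PP_fkg hq hE (inc_reach x y) (inc_reach y z)).trans (PP_mono (by linarith) ?_)
  intro ω _ h
  exact h.1.trans h.2

theorem PP_edge (hq : 1 ≤ q) (hE : Good V E) {x y : α} (he : s(x, y) ∈ E) :
    ce q ≤ PP q V E (fun ω => s(x, y) ∈ ω) := by
  have hq0 : 0 < q := by linarith
  have hs1 : 1 ≤ √q := Real.one_le_sqrt.mpr hq
  obtain ⟨hx, hy, hne⟩ := hE x y he
  rw [PP_eq]
  have split : ws (W q V) E (fun _ => True)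
      = ws (W q V) E (fun ω => s(x, y) ∈ ω) + ws (W q V) E (fun ω => s(x, y) ∉ ω) := by
    unfold ws
    rw [← sum_union]
    · congr 1
      ext ω
      rw [mem_union, mem_fil, mem_fil, mem_fil]
      tauto
    · rw [disjoint_left]
      intro ω h1 h2
      rw [mem_fil] at h1 h2
      exact h2.2 h1.2
  have hle : ws (W q V) E (fun ω => s(x, y) ∉ ω) ≤ √q * ws (W q V) E (fun ω => s(x, y) ∈ ω) := by
    have h1 : ws (W q V) E (fun ω => s(x, y) ∉ ω)
        ≤ ∑ ω ∈ fil E (fun ω => s(x, y) ∉ ω), √q * W q V (insert s(x, y) ω) := by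
      unfold ws
      apply sum_le_sum
      intro ω hω
      have hω2 := (mem_fil.mp hω).2
      have pp := W_pos hq0 V ω
      by_cases h : (openGraph ω).Reachable x y
      · rw [W_insert_of_reach hq0 hne hω2 h]
        have : 1 ≤ √q * √q := by nlinarith
        nlinarith
      · rw [W_insert_of_not_reach hq0 hne hx hy hω2 h]
    refine h1.trans ?_
    rw [← mul_sum]
    apply mul_le_mul_of_nonneg_left _ (by linarith)
    rw [← sum_image (f := W q V) (g := fun ω => insert s(x, y) ω)
      (s := fil E (fun ω => s(x, y) ∉ ω))]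
    · unfold ws
      apply sum_le_sum_of_subset_of_nonneg _ (fun ω _ _ => (W_pos hq0 V ω).le)
      intro ω hω
      rw [mem_image] at hω
      obtain ⟨ω', h1, rfl⟩ := hω
      rw [mem_fil] at h1 ⊢
      exact ⟨insert_subset he h1.1, mem_insert_self _ _⟩
    · intro a ha b hb hab
      have ha2 := (mem_fil.mp ha).2
      have hb2 := (mem_fil.mp hb).2
      rw [← erase_insert ha2, ← erase_insert hb2]
      exact congrArg (fun z => z.erase s(x, y)) hab
  have hpos := ws_true_pos hq0 V E
  unfold ce
  rw [div_le_div_iff₀ (by linarith) hpos]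
  linarith

theorem G_step (hq : 1 ≤ q) (hE : Good V E) {x y : α} (h : s(x, y) ∈ E) : ce q ≤ G q V E x y := by
  have hne := (hE x y h).2.2
  refine (PP_edge hq hE h).trans (PP_mono (by linarith) ?_)
  intro ω _ h
  exact SimpleGraph.Adj.reachable (openGraph_adj.mpr ⟨h, hne⟩)

/-! ### isomorphisms -/

/-- image of a configuration -/
def act (σ : α ≃ α) (ω : Finset (Sym2 α)) : Finset (Sym2 α) := ω.image (Sym2.map σ)

lemma mem_act {σ : α ≃ α} {x y : α} : s(σ x, σ y) ∈ act σ ω ↔ s(x, y) ∈ ω := by
  unfold act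
  rw [mem_image]
  constructor
  · rintro ⟨e, he, h⟩
    have : Sym2.map σ e = Sym2.map σ s(x, y) := by rw [h]; rfl
    have := Sym2.map.injective σ.injective this
    rw [← this]; exact he
  · intro h
    exact ⟨s(x, y), h, rfl⟩

lemma reach_act {σ : α ≃ α} {x y : α} :
    (openGraph (act σ ω)).Reachable (σ x) (σ y) ↔ (openGraph ω).Reachable x y := by
  let e : openGraph ω ≃g openGraph (act σ ω) :=
    { toEquiv := σ
      map_rel_iff' := by
        intro a b
        rw [openGraph_adj, openGraph_adj, mem_act]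
        simp }
  exact SimpleGraph.Iso.reachable_iff (φ := e)

lemma act_insert (σ : α ≃ α) (x y : α) (ω : Finset (Sym2 α)) :
    act σ (insert s(x, y) ω) = insert s(σ x, σ y) (act σ ω) := by
  unfold act; rw [image_insert]; rfl

lemma act_injective (σ : α ≃ α) : Function.Injective (act σ) :=
  image_injective (Sym2.map.injective σ.injective)

lemma W_act (hq : 0 < q) {σ : α ≃ α} (hE : Good V E) (hω : ω ⊆ E) :
    W q (V.image σ) (act σ ω) * W q V ∅ = W q V ω * W q (V.image σ) ∅ := by
  induction ω using Finset.induction_on with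
  | empty => unfold act; rw [image_empty]; ring
  | insert e ω he ih =>
    have hω' : ω ⊆ E := fun x hx => hω (mem_insert_of_mem hx)
    have ih' := ih hω'
    have heE : e ∈ E := hω (mem_insert_self _ _)
    induction e with
    | _ x y =>
      obtain ⟨hx, hy, hadj⟩ := hE x y heE
      have hne : σ x ≠ σ y := fun h => hadj (σ.injective h)
      have he2 : s(σ x, σ y) ∉ act σ ω := fun h => he (mem_act.mp h)
      rw [act_insert]
      by_cases h1 : (openGraph ω).Reachable x y
      · rw [W_insert_of_reach hq hadj he h1, W_insert_of_reach hq hne he2 (reach_act.mpr h1)]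
        linear_combination √q * ih'
      · have e1 := W_insert_of_not_reach (V := V) hq hadj hx hy he h1
        have e2 := W_insert_of_not_reach (V := V.image σ) hq hne (mem_image_of_mem _ hx)
          (mem_image_of_mem _ hy) he2 (fun h => h1 (reach_act.mp h))
        rw [e1, e2] at ih'
        have hs : 0 < √q := Real.sqrt_pos.mpr hq
        have : √q * (W q (V.image σ) (insert s(σ x, σ y) (act σ ω)) * W q V ∅)
            = √q * (W q V (insert s(x, y) ω) * W q (V.image σ) ∅) := by
          linarith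
        exact mul_left_cancel₀ hs.ne' this

lemma fil_act {σ : α ≃ α} (E : Finset (Sym2 α)) (A : Finset (Sym2 α) → Prop) :
    fil (act σ E) A = (fil E (fun ω => A (act σ ω))).image (act σ) := by
  ext ω
  rw [mem_fil, mem_image]
  constructor
  · rintro ⟨h1, h2⟩
    obtain ⟨ω', h3, rfl⟩ := subset_image_iff.mp h1
    exact ⟨ω', mem_fil.mpr ⟨h3, h2⟩, rfl⟩
  · rintro ⟨ω', h1, rfl⟩
    obtain ⟨h1, h2⟩ := mem_fil.mp h1
    exact ⟨image_subset_image h1, h2⟩

/-- invariance under isomorphisms -/
theorem PP_act (hq : 0 < q) {σ : α ≃ α} (hE : Good V E) (A : Finset (Sym2 α) → Prop) :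
    PP q (V.image σ) (act σ E) A = PP q V E (fun ω => A (act σ ω)) := by
  rw [PP_eq, PP_eq]
  have key : ∀ B : Finset (Sym2 α) → Prop,
      ws (W q (V.image σ)) (act σ E) B * W q V ∅
        = ws (W q V) E (fun ω => B (act σ ω)) * W q (V.image σ) ∅ := by
    intro B
    unfold ws
    rw [fil_act, sum_image (fun a _ b _ h => act_injective σ h), sum_mul, sum_mul]
    apply sum_congr rfl
    intro ω hω
    exact W_act hq hE (mem_fil.mp hω).1
  have p1 := W_pos hq V ∅
  have p2 := W_pos hq (V.image σ) ∅
  rw [div_eq_div_iff (ws_true_pos hq _ _).ne' (ws_true_pos hq _ _).ne']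
  have k1 := key A
  have k2 := key (fun _ => True)
  have : (ws (W q (V.image σ)) (act σ E) A * ws (W q V) E (fun _ => True))
        * (W q V ∅ * W q (V.image σ) ∅)
      = (ws (W q V) E (fun ω => A (act σ ω))
          * ws (W q (V.image σ)) (act σ E) (fun _ => True)) * (W q V ∅ * W q (V.image σ) ∅) := by
    calc _ = (ws (W q (V.image σ)) (act σ E) A * W q V ∅)
          * (ws (W q V) E (fun _ => True) * W q (V.image σ) ∅) := by ring
      _ = (ws (W q V) E (fun ω => A (act σ ω)) * W q (V.image σ) ∅)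
          * (ws (W q (V.image σ)) (act σ E) (fun _ => True) * W q V ∅) := by
          rw [k1, k2]
      _ = _ := by ring
  exact mul_right_cancel₀ (mul_pos p1 p2).ne' this

theorem G_iso (hq : 0 < q) (hE : Good V E) (σ : α ≃ α) (x y : α) :
    G q (V.image σ) (E.image (Sym2.map σ)) (σ x) (σ y) = G q V E x y := by
  have h := PP_act hq (σ := σ) hE (fun ω => (openGraph ω).Reachable (σ x) (σ y))
  have h2 : PP q V E (fun ω => (openGraph (act σ ω)).Reachable (σ x) (σ y))
      = PP q V E (fun ω => (openGraph ω).Reachable x y) := PP_congr (fun _ _ => reach_act)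
  exact h.trans h2

end FK

end Pool.Agent.H95.Wedge
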