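import Pool.Agent.H95.Wedge.DynDefs
import Pool.Agent.H95.SumRule.Hopf

/-!
The discrete Hopf theorem on the wedge: total turning of the exploration path up to a boundary corner.
-/

namespace Pool.Agent.H95.Wedge

open Finset Function

namespace Turn

open Pool.Agent.H95.SumRule (oct oct_adj IsUnit2)

/-- positive steps -/
inductive St : Rp → Rp → Prop
  | a (k : ℤ) (a b : ℕ) : St (k, a, b) (k, a + 1, b)
  | b (k : ℤ) (a b : ℕ) : St (k, a, b) (k, a, b + 1)
  | c (k : ℤ) (b : ℕ) : St (k, 0, b) (k + 1, b, 0)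

/-- adjacent corners -/
def Nb (p p' : Rp) : Prop := St p p' ∨ St p' p

lemma Nb.symm {p p' : Rp} (h : Nb p p') : Nb p' p := Or.symm h

lemma ne_iff (k a b k' a' b') : ((k, a, b) : Rp) ≠ (k', a', b') ↔ ¬ (k = k' ∧ a = a' ∧ b = b') := by
  simp [Prod.ext_iff]

/-- comparison of the first coordinate of a corner in the next quadrant -/
def c3 (s t : ℕ) : ℤ := if t < s then 3 else if s = t then 4 else 5

/-- comparison of the second coordinate of a corner in the previous quadrant -/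
def c7 (s t : ℕ) : ℤ := if t < s then 7 else if s = t then 6 else 5

/-- octant index of the direction from `p` to `p'` -/
def oo (p p' : Rp) : ℤ := 2 * p.1 +
  if p'.1 = p.1 then oct ((p'.2.1 : ℤ) - p.2.1, (p'.2.2 : ℤ) - p.2.2)
  else if p'.1 = p.1 + 1 then c3 p'.2.1 p.2.2
  else if p'.1 = p.1 - 1 then c7 p'.2.2 p.2.1
  else 5

lemma oo_same (k : ℤ) (a b a' b' : ℕ) :
    oo (k, a, b) (k, a', b') = 2 * k + oct ((a' : ℤ) - a, (b' : ℤ) - b) := by
  unfold oo
  rw [if_pos rfl]

lemma oo_succ {k k' : ℤ} (h : k' = k + 1) (a b a' b' : ℕ) :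
    oo (k, a, b) (k', a', b') = 2 * k + c3 a' b := by
  unfold oo
  simp only
  rw [if_neg (by omega), if_pos h]

lemma oo_pred {k k' : ℤ} (h : k' = k - 1) (a b a' b' : ℕ) :
    oo (k, a, b) (k', a', b') = 2 * k + c7 b' a := by
  unfold oo
  simp only
  rw [if_neg (by omega), if_neg (by omega), if_pos h]

lemma oo_far {k k' : ℤ} (h : k' < k - 1 ∨ k + 1 < k') (a b a' b' : ℕ) :
    oo (k, a, b) (k', a', b') = 2 * k + 5 := by
  unfold oo
  simp only
  rw [if_neg (by omega), if_neg (by omega), if_neg (by omega)]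

lemma oct_adj' {u v u' v' : ℤ} (h1 : ¬ (u = 0 ∧ v = 0)) (h2 : ¬ (u' = 0 ∧ v' = 0))
    (h : IsUnit2 (u' - u, v' - v)) :
    (oct (u', v') - oct (u, v)) % 8 = 0 ∨ (oct (u', v') - oct (u, v)) % 8 = 1 ∨
      (oct (u', v') - oct (u, v)) % 8 = 7 :=
  oct_adj (v := (u, v)) (w := (u', v')) h1 h2 h

/-- moving the end point -/
lemma oo_y' {x y y' : Rp} (h : St y y') (h1 : x ≠ y) (h2 : x ≠ y') :
    (oo x y' - oo x y) % 8 = 0 ∨ (oo x y' - oo x y) % 8 = 1 ∨ (oo x y' - oo x y) % 8 = 7 := by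
  obtain ⟨κ, α, β⟩ := x
  cases h with
  | a k a b =>
    rw [ne_iff] at h1 h2
    rcases (by omega : k = κ ∨ k = κ + 1 ∨ k = κ - 1 ∨ (k < κ - 1 ∨ κ + 1 < k)) with h | h | h | h
    · subst h
      rw [oo_same, oo_same]
      have := oct_adj' (u := (a : ℤ) - α) (v := (b : ℤ) - β) (u' := ((a + 1 : ℕ) : ℤ) - α)
        (v' := (b : ℤ) - β) (by omega) (by push_cast; omega) (by left; push_cast; constructor <;> ring)
      omega
    · rw [oo_succ h, oo_succ h]
      unfold c3
      split_ifs <;> omega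
    · rw [oo_pred h, oo_pred h]
      omega
    · rw [oo_far h, oo_far h]
      omega
  | b k a b =>
    rw [ne_iff] at h1 h2
    rcases (by omega : k = κ ∨ k = κ + 1 ∨ k = κ - 1 ∨ (k < κ - 1 ∨ κ + 1 < k)) with h | h | h | h
    · subst h
      rw [oo_same, oo_same]
      have := oct_adj' (u := (a : ℤ) - α) (v := (b : ℤ) - β) (u' := (a : ℤ) - α)
        (v' := ((b + 1 : ℕ) : ℤ) - β) (by omega) (by push_cast; omega)
        (by right; left; push_cast; constructor <;> ring)
      omega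
    · rw [oo_succ h, oo_succ h]
      omega
    · rw [oo_pred h, oo_pred h]
      unfold c7
      split_ifs <;> omega
    · rw [oo_far h, oo_far h]
      omega
  | c k b =>
    rw [ne_iff] at h1 h2
    rcases (by omega : k = κ ∨ k = κ + 1 ∨ k = κ - 1 ∨ k = κ - 2 ∨ (k < κ - 2 ∨ κ + 1 < k)) with
      h | h | h | h | h
    · subst h
      rw [oo_same, oo_succ rfl]
      unfold oct c3
      simp only
      split_ifs <;> omega
    · rw [oo_succ h, oo_far (k := κ) (k' := k + 1) (by omega)]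
      unfold c3
      split_ifs <;> omega
    · have h' : κ = k + 1 := by omega
      subst h'
      rw [oo_pred h, oo_same]
      unfold oct c7
      simp only
      split_ifs <;> omega
    · rw [oo_far (k := κ) (k' := k) (by omega), oo_pred (k := κ) (k' := k + 1) (by omega)]
      unfold c7
      split_ifs <;> omega
    · rw [oo_far (k := κ) (k' := k) (by omega), oo_far (k := κ) (k' := k + 1) (by omega)]
      omega

lemma oo_y {x y y' : Rp} (h : Nb y y') (h1 : x ≠ y) (h2 : x ≠ y') :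
    (oo x y' - oo x y) % 8 = 0 ∨ (oo x y' - oo x y) % 8 = 1 ∨ (oo x y' - oo x y) % 8 = 7 := by
  rcases h with h | h
  · exact oo_y' h h1 h2
  · have := oo_y' h h2 h1
    omega

/-- moving the starting point -/
lemma oo_x' {x x' y : Rp} (h : St x x') (h1 : x ≠ y) (h2 : x' ≠ y) :
    (oo x' y - oo x y) % 8 = 0 ∨ (oo x' y - oo x y) % 8 = 1 ∨ (oo x' y - oo x y) % 8 = 2 ∨
      (oo x' y - oo x y) % 8 = 7 ∨ (oo x' y - oo x y) % 8 = 6 := by
  obtain ⟨κ, α, β⟩ := y
  cases h with
  | a k a b =>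
    rw [ne_iff] at h1 h2
    rcases (by omega : κ = k ∨ κ = k + 1 ∨ κ = k - 1 ∨ (κ < k - 1 ∨ k + 1 < κ)) with h | h | h | h
    · subst h
      rw [oo_same, oo_same]
      have := oct_adj' (u := (α : ℤ) - a) (v := (β : ℤ) - b) (u' := (α : ℤ) - ((a + 1 : ℕ) : ℤ))
        (v' := (β : ℤ) - b) (by omega) (by push_cast; omega)
        (by right; right; left; push_cast; constructor <;> ring)
      omega
    · rw [oo_succ h, oo_succ h]
      omega
    · rw [oo_pred h, oo_pred h]
      unfold c7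
      split_ifs <;> omega
    · rw [oo_far h, oo_far h]
      omega
  | b k a b =>
    rw [ne_iff] at h1 h2
    rcases (by omega : κ = k ∨ κ = k + 1 ∨ κ = k - 1 ∨ (κ < k - 1 ∨ k + 1 < κ)) with h | h | h | h
    · subst h
      rw [oo_same, oo_same]
      have := oct_adj' (u := (α : ℤ) - a) (v := (β : ℤ) - b) (u' := (α : ℤ) - a)
        (v' := (β : ℤ) - ((b + 1 : ℕ) : ℤ)) (by omega) (by push_cast; omega)
        (by right; right; right; push_cast; constructor <;> ring)
      omega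
    · rw [oo_succ h, oo_succ h]
      unfold c3
      split_ifs <;> omega
    · rw [oo_pred h, oo_pred h]
      omega
    · rw [oo_far h, oo_far h]
      omega
  | c k b =>
    rw [ne_iff] at h1 h2
    rcases (by omega : κ = k ∨ κ = k + 1 ∨ κ = k + 2 ∨ κ = k - 1 ∨ (κ < k - 1 ∨ k + 2 < κ)) with
      h | h | h | h | h
    · subst h
      rw [oo_same, oo_pred (by omega)]
      unfold oct c7
      simp only
      split_ifs <;> omega
    · subst h
      rw [oo_same, oo_succ rfl]
      unfold oct c3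
      simp only
      split_ifs <;> omega
    · rw [oo_far (k := k) (k' := κ) (by omega), oo_succ (k := k + 1) (k' := κ) (by omega)]
      unfold c3
      split_ifs <;> omega
    · rw [oo_pred h, oo_far (k := k + 1) (k' := κ) (by omega)]
      unfold c7
      split_ifs <;> omega
    · rw [oo_far (k := k) (k' := κ) (by omega), oo_far (k := k + 1) (k' := κ) (by omega)]
      omega

lemma oo_x {x x' y : Rp} (h : Nb x x') (h1 : x ≠ y) (h2 : x' ≠ y) :
    (oo x' y - oo x y) % 8 = 0 ∨ (oo x' y - oo x y) % 8 = 1 ∨ (oo x' y - oo x y) % 8 = 2 ∨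
      (oo x' y - oo x y) % 8 = 7 ∨ (oo x' y - oo x y) % 8 = 6 := by
  rcases h with h | h
  · exact oo_x' h h1 h2
  · have := oo_x' h h2 h1
    omega

/-! ### integer lift -/

/-- lift of the octant index -/
def lf (o : ℤ) : ℤ := if 5 ≤ o then o - 8 else o

/-- integer lift of `oo` -/
def Lft (p p' : Rp) : ℤ := 2 * p.1 +
  if p'.1 = p.1 then lf (oct ((p'.2.1 : ℤ) - p.2.1, (p'.2.2 : ℤ) - p.2.2))
  else if p'.1 = p.1 + 1 then c3 p'.2.1 p.2.2
  else if p'.1 = p.1 - 1 then c7 p'.2.2 p.2.1 - 8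
  else if p.1 < p'.1 then 5 else -3

lemma Lft_same (k : ℤ) (a b a' b' : ℕ) :
    Lft (k, a, b) (k, a', b') = 2 * k + lf (oct ((a' : ℤ) - a, (b' : ℤ) - b)) := by
  unfold Lft
  rw [if_pos rfl]

lemma Lft_succ {k k' : ℤ} (h : k' = k + 1) (a b a' b' : ℕ) :
    Lft (k, a, b) (k', a', b') = 2 * k + c3 a' b := by
  unfold Lft
  simp only
  rw [if_neg (by omega), if_pos h]

lemma Lft_pred {k k' : ℤ} (h : k' = k - 1) (a b a' b' : ℕ) :
    Lft (k, a, b) (k', a', b') = 2 * k + (c7 b' a - 8) := by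
  unfold Lft
  simp only
  rw [if_neg (by omega), if_neg (by omega), if_pos h]

lemma Lft_far1 {k k' : ℤ} (h : k + 1 < k') (a b a' b' : ℕ) :
    Lft (k, a, b) (k', a', b') = 2 * k + 5 := by
  unfold Lft
  simp only
  rw [if_neg (by omega), if_neg (by omega), if_neg (by omega), if_pos (by omega)]

lemma Lft_far2 {k k' : ℤ} (h : k' < k - 1) (a b a' b' : ℕ) :
    Lft (k, a, b) (k', a', b') = 2 * k + -3 := by
  unfold Lft
  simp only
  rw [if_neg (by omega), if_neg (by omega), if_neg (by omega), if_neg (by omega)]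

lemma Lft_mod (x y : Rp) : (Lft x y - oo x y) % 8 = 0 := by
  unfold Lft oo lf
  split_ifs <;> omega

/-- representative in `[-3, 4]` -/
def dl (d : ℤ) : ℤ := if d % 8 ≤ 4 then d % 8 else d % 8 - 8

lemma dl_mod (d : ℤ) : (dl d - d) % 8 = 0 := by
  unfold dl; split_ifs <;> omega

lemma dl_y {d : ℤ} (h : d % 8 = 0 ∨ d % 8 = 1 ∨ d % 8 = 7) : -1 ≤ dl d ∧ dl d ≤ 1 := by
  unfold dl; split_ifs <;> omega

lemma dl_x {d : ℤ} (h : d % 8 = 0 ∨ d % 8 = 1 ∨ d % 8 = 2 ∨ d % 8 = 7 ∨ d % 8 = 6) :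
    -2 ≤ dl d ∧ dl d ≤ 2 := by
  unfold dl; split_ifs <;> omega

/-- combinatorial Hopf identity -/
theorem hopf_abs (S : ℕ → ℕ → ℤ) (N : ℕ)
    (hY : ∀ i j, i < j → j < N → -1 ≤ dl (S i (j + 1) - S i j) ∧ dl (S i (j + 1) - S i j) ≤ 1)
    (hX : ∀ i j, i + 1 < j → j ≤ N → -2 ≤ dl (S (i + 1) j - S i j) ∧ dl (S (i + 1) j - S i j) ≤ 2) :
    ∑ i ∈ range (N - 1), (dl (S i (i + 2) - S i (i + 1)) + dl (S (i + 1) (i + 2) - S i (i + 2)))
      = ∑ t ∈ range (N - 1), dl (S 0 (t + 2) - S 0 (t + 1))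
        + ∑ s ∈ range (N - 1), dl (S (s + 1) N - S s N) := by
  induction N with
  | zero => simp
  | succ N ih =>
    rcases Nat.eq_zero_or_pos N with h0 | hpos
    · subst h0; simp
    have ih' := ih (fun i j hij hj => hY i j hij (by omega)) (fun i j hij hj => hX i j hij (by omega))
    obtain ⟨M, rfl⟩ : ∃ M, N = M + 1 := ⟨N - 1, by omega⟩
    simp only [Nat.add_sub_cancel] at ih' ⊢
    have key : ∑ s ∈ range M, dl (S (s + 1) (M + 1 + 1) - S s (M + 1 + 1))
        = ∑ s ∈ range M, dl (S (s + 1) (M + 1) - S s (M + 1))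
          + (dl (S M (M + 2) - S M (M + 1)) - dl (S 0 (M + 2) - S 0 (M + 1))) := by
      rw [← Finset.sum_range_sub (fun s => dl (S s (M + 2) - S s (M + 1))) M,
        ← Finset.sum_add_distrib]
      apply Finset.sum_congr rfl
      intro s hs
      have hs' : s < M := Finset.mem_range.mp hs
      have e4 : M + 1 + 1 = M + 2 := rfl
      rw [e4]
      have a1 := hX s (M + 2) (by omega) (by omega)
      have a2 := hX s (M + 1) (by omega) (by omega)
      have a3 := hY s (M + 1) (by omega) (by omega)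
      have a4 := hY (s + 1) (M + 1) (by omega) (by omega)
      rw [e4] at a3 a4
      have b1 := dl_mod (S (s + 1) (M + 2) - S s (M + 2))
      have b2 := dl_mod (S (s + 1) (M + 1) - S s (M + 1))
      have b3 := dl_mod (S s (M + 2) - S s (M + 1))
      have b4 := dl_mod (S (s + 1) (M + 2) - S (s + 1) (M + 1))
      generalize dl (S (s + 1) (M + 2) - S s (M + 2)) = d1 at *
      generalize dl (S (s + 1) (M + 1) - S s (M + 1)) = d2 at *
      generalize dl (S s (M + 2) - S s (M + 1)) = d3 at *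
      generalize dl (S (s + 1) (M + 2) - S (s + 1) (M + 1)) = d4 at *
      omega
    rw [Finset.sum_range_succ, Finset.sum_range_succ _ M, Finset.sum_range_succ _ M, key]
    have e4 : M + 1 + 1 = M + 2 := rfl
    rw [e4]
    linarith

/-! ### steps of the exploration -/

/-- direction of travel at a corner -/
def ang (p : Rp) : ℤ := 2 * (p.1 +
  (if p.2.1 % 2 = 0 then (if p.2.2 % 2 = 0 then 1 else 0) else (if p.2.2 % 2 = 0 then 2 else 3))) + 1

lemma step_cls (p : Rp) : Nb p (cls p) ∧ (oo p (cls p) - ang p - 1) % 8 = 0 ∧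
    (ang (cls p) - ang p - 2) % 8 = 0 := by
  obtain ⟨k, a, b⟩ := p
  unfold cls
  simp only
  split_ifs with h1 h2 h3 h4 h5
  · subst h3
    refine ⟨Or.inl (St.c k b), ?_, ?_⟩
    · rw [oo_succ rfl]
      simp [ang, c3, h2]
      omega
    · simp [ang, h2]
      omega
  · obtain ⟨a', rfl⟩ : ∃ a', a = a' + 1 := ⟨a - 1, by omega⟩
    rw [Nat.add_sub_cancel]
    refine ⟨Or.inr (St.a k a' b), ?_, ?_⟩
    · rw [oo_same]
      unfold ang oct
      simp only
      split_ifs <;> omega
    · unfold ang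
      simp only
      split_ifs <;> omega
  · refine ⟨Or.inl (St.b k a b), ?_, ?_⟩
    · rw [oo_same]
      unfold ang oct
      simp only
      split_ifs <;> omega
    · unfold ang
      simp only
      split_ifs <;> omega
  · subst h5
    refine ⟨Or.inr ?_, ?_, ?_⟩
    · have := St.c (k - 1) a
      rwa [sub_add_cancel] at this
    · rw [oo_pred rfl]
      unfold ang c7
      simp only
      split_ifs <;> omega
    · unfold ang
      simp only
      split_ifs <;> omega
  · obtain ⟨b', rfl⟩ : ∃ b', b = b' + 1 := ⟨b - 1, by omega⟩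
    rw [Nat.add_sub_cancel]
    refine ⟨Or.inr (St.b k a b'), ?_, ?_⟩
    · rw [oo_same]
      unfold ang oct
      simp only
      split_ifs <;> omega
    · unfold ang
      simp only
      split_ifs <;> omega
  · refine ⟨Or.inl (St.a k a b), ?_, ?_⟩
    · rw [oo_same]
      unfold ang oct
      simp only
      split_ifs <;> omega
    · unfold ang
      simp only
      split_ifs <;> omega

lemma step_opn (p : Rp) : Nb p (opn p) ∧ (oo p (opn p) - ang p + 1) % 8 = 0 ∧
    (ang (opn p) - ang p + 2) % 8 = 0 := by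
  obtain ⟨k, a, b⟩ := p
  unfold opn
  simp only
  split_ifs with h1 h2 h3
  · refine ⟨Or.inl (St.b k a b), ?_, ?_⟩
    · rw [oo_same]
      unfold ang oct
      simp only
      split_ifs <;> omega
    · unfold ang
      simp only
      split_ifs <;> omega
  · refine ⟨Or.inl (St.a k a b), ?_, ?_⟩
    · rw [oo_same]
      unfold ang oct
      simp only
      split_ifs <;> omega
    · unfold ang
      simp only
      split_ifs <;> omega
  · obtain ⟨a', rfl⟩ : ∃ a', a = a' + 1 := ⟨a - 1, by omega⟩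
    rw [Nat.add_sub_cancel]
    refine ⟨Or.inr (St.a k a' b), ?_, ?_⟩
    · rw [oo_same]
      unfold ang oct
      simp only
      split_ifs <;> omega
    · unfold ang
      simp only
      split_ifs <;> omega
  · obtain ⟨b', rfl⟩ : ∃ b', b = b' + 1 := ⟨b - 1, by omega⟩
    rw [Nat.add_sub_cancel]
    refine ⟨Or.inr (St.b k a b'), ?_, ?_⟩
    · rw [oo_same]
      unfold ang oct
      simp only
      split_ifs <;> omega
    · unfold ang
      simp only
      split_ifs <;> omega

lemma step_raw (ω : Finset (Sym2 Vtx)) (p : Rp) : Nb p (raw ω p) ∧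
    (oo p (raw ω p) - ang p - eps ω p) % 8 = 0 ∧ (ang (raw ω p) - ang p - 2 * eps ω p) % 8 = 0 := by
  unfold raw eps
  split_ifs
  · have := step_opn p
    refine ⟨this.1, by omega, by omega⟩
  · have := step_cls p
    refine ⟨this.1, by omega, by omega⟩

lemma eps_cases (ω : Finset (Sym2 Vtx)) (p : Rp) : eps ω p = -1 ∨ eps ω p = 1 := by
  unfold eps; split_ifs <;> simp

/-! ### bounds for the lift -/

variable {m : ℕ} {L : ℤ → ℕ} {ω : Finset (Sym2 Vtx)}

/-- shape of boundary corners -/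
def Bd (m : ℕ) (L : ℤ → ℕ) (y : Rp) : Prop :=
  (y.2.1 % 2 = 0 ∧ y.2.2 % 2 = 0 ∧ y.2.2 = 2 * Lx m L (y.1 + 1)) ∨
  (y.2.1 % 2 = 0 ∧ y.2.2 % 2 = 1 ∧ y.2.1 = 2 * Lx m L y.1)

lemma bd_of_opn {p : Rp} (hp : p ∈ K m L) (h : opn p ∉ K m L) : Bd m L p := by
  obtain ⟨k, a, b⟩ := p
  rw [mem_K] at hp h
  simp only at hp
  unfold Bd
  simp only
  unfold opn at h
  simp only at h
  split_ifs at h with h1 h2 h3
  · left
    simp only at h
    refine ⟨h1, h2, ?_⟩
    by_contra hc
    apply h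
    refine ⟨hp.1, hp.2.1, hp.2.2.1, ?_⟩
    omega
  · right
    simp only at h
    refine ⟨h1, by omega, ?_⟩
    by_contra hc
    apply h
    refine ⟨hp.1, hp.2.1, ?_, hp.2.2.2⟩
    omega
  · exfalso
    simp only at h
    apply h
    refine ⟨hp.1, hp.2.1, ?_, hp.2.2.2⟩
    omega
  · exfalso
    simp only at h
    apply h
    refine ⟨hp.1, hp.2.1, hp.2.2.1, ?_⟩
    omega

lemma lf_up {u v : ℤ} (hv : 0 ≤ v) (h : ¬ (u = 0 ∧ v = 0)) :
    0 ≤ lf (oct (u, v)) ∧ lf (oct (u, v)) ≤ 4 := by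
  unfold lf oct
  simp only
  split_ifs <;> omega

lemma lf_right {u v : ℤ} (hu : 0 ≤ u) (h : ¬ (u = 0 ∧ v = 0)) :
    -2 ≤ lf (oct (u, v)) ∧ lf (oct (u, v)) ≤ 2 := by
  unfold lf oct
  simp only
  split_ifs <;> omega

lemma c3_bd (s t : ℕ) : 3 ≤ c3 s t ∧ c3 s t ≤ 5 := by
  unfold c3; split_ifs <;> omega

lemma c7_bd (s t : ℕ) : 5 ≤ c7 s t ∧ c7 s t ≤ 7 := by
  unfold c7; split_ifs <;> omega

/-- in its own quadrant a boundary corner is seen in a half plane -/
lemma lf_bd {k : ℤ} {α β : ℕ} (hy : Bd m L (k, α, β)) :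
    (∀ a b : ℕ, (k, a, b) ∈ K m L → ((k, a, b) : Rp) ≠ (k, α, β) →
      0 ≤ lf (oct ((α : ℤ) - a, (β : ℤ) - b)) ∧ lf (oct ((α : ℤ) - a, (β : ℤ) - b)) ≤ 4) ∨
    (∀ a b : ℕ, (k, a, b) ∈ K m L → ((k, a, b) : Rp) ≠ (k, α, β) →
      -2 ≤ lf (oct ((α : ℤ) - a, (β : ℤ) - b)) ∧ lf (oct ((α : ℤ) - a, (β : ℤ) - b)) ≤ 2) := by
  unfold Bd at hy
  simp only at hy
  rcases hy with hy | hy
  · left
    intro a b hx hne
    rw [mem_K] at hx
    simp only at hx
    rw [ne_iff] at hne
    exact lf_up (by omega) (by omega)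
  · right
    intro a b hx hne
    rw [mem_K] at hx
    simp only at hx
    rw [ne_iff] at hne
    exact lf_right (by omega) (by omega)

lemma Lft_x' {x x' y : Rp} (h : St x x') (hx : x ∈ K m L) (hx' : x' ∈ K m L) (h1 : x ≠ y)
    (h2 : x' ≠ y) (hy : Bd m L y) : -5 ≤ Lft x' y - Lft x y ∧ Lft x' y - Lft x y ≤ 5 := by
  obtain ⟨κ, α, β⟩ := y
  cases h with
  | a k a b =>
    rcases (by omega : κ = k ∨ κ = k + 1 ∨ κ = k - 1 ∨ κ < k - 1 ∨ k + 1 < κ) with h | h | h | h | h
    · subst h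
      rw [Lft_same, Lft_same]
      rcases lf_bd hy with g | g
      · have g1 := g _ _ hx h1
        have g2 := g _ _ hx' h2
        omega
      · have g1 := g _ _ hx h1
        have g2 := g _ _ hx' h2
        omega
    · rw [Lft_succ h, Lft_succ h]
      omega
    · rw [Lft_pred h, Lft_pred h]
      have := c7_bd β a
      have := c7_bd β (a + 1)
      omega
    · rw [Lft_far2 h, Lft_far2 h]
      omega
    · rw [Lft_far1 h, Lft_far1 h]
      omega
  | b k a b =>
    rcases (by omega : κ = k ∨ κ = k + 1 ∨ κ = k - 1 ∨ κ < k - 1 ∨ k + 1 < κ) with h | h | h | h | h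
    · subst h
      rw [Lft_same, Lft_same]
      rcases lf_bd hy with g | g
      · have g1 := g _ _ hx h1
        have g2 := g _ _ hx' h2
        omega
      · have g1 := g _ _ hx h1
        have g2 := g _ _ hx' h2
        omega
    · rw [Lft_succ h, Lft_succ h]
      have := c3_bd α b
      have := c3_bd α (b + 1)
      omega
    · rw [Lft_pred h, Lft_pred h]
      omega
    · rw [Lft_far2 h, Lft_far2 h]
      omega
    · rw [Lft_far1 h, Lft_far1 h]
      omega
  | c k b =>
    rcases (by omega : κ = k ∨ κ = k + 1 ∨ κ = k + 2 ∨ κ = k - 1 ∨ κ < k - 1 ∨ k + 2 < κ) with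
      h | h | h | h | h | h
    · subst h
      rw [Lft_same, Lft_pred (k := κ + 1) (by omega)]
      have := c7_bd β b
      rcases lf_bd hy with g | g
      · have g1 := g _ _ hx h1
        omega
      · have g1 := g _ _ hx h1
        omega
    · subst h
      rw [Lft_same, Lft_succ rfl]
      have := c3_bd α b
      rcases lf_bd hy with g | g
      · have g1 := g _ _ hx' h2
        omega
      · have g1 := g _ _ hx' h2
        omega
    · rw [Lft_far1 (k := k) (k' := κ) (by omega), Lft_succ (k := k + 1) (k' := κ) (by omega)]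
      have := c3_bd α 0
      omega
    · rw [Lft_pred h, Lft_far2 (k := k + 1) (k' := κ) (by omega)]
      have := c7_bd β 0
      omega
    · rw [Lft_far2 (k := k) (k' := κ) (by omega), Lft_far2 (k := k + 1) (k' := κ) (by omega)]
      omega
    · rw [Lft_far1 (k := k) (k' := κ) (by omega), Lft_far1 (k := k + 1) (k' := κ) (by omega)]
      omega

lemma Lft_x {x x' y : Rp} (h : Nb x x') (hx : x ∈ K m L) (hx' : x' ∈ K m L) (h1 : x ≠ y)
    (h2 : x' ≠ y) (hy : Bd m L y) : dl (oo x' y - oo x y) = Lft x' y - Lft x y := by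
  have h3 : -5 ≤ Lft x' y - Lft x y ∧ Lft x' y - Lft x y ≤ 5 := by
    rcases h with h | h
    · exact Lft_x' h hx hx' h1 h2 hy
    · have := Lft_x' h hx' hx h2 h1 hy
      omega
  have h4 := dl_x (oo_x h h1 h2)
  have h5 := dl_mod (oo x' y - oo x y)
  have h6 := Lft_mod x y
  have h7 := Lft_mod x' y
  omega

lemma Lft_x0_bd {y : Rp} (hy : y ∈ K m L) (h : x0 ≠ y) : 0 ≤ Lft x0 y ∧ Lft x0 y ≤ 3 := by
  obtain ⟨κ, α, β⟩ := y
  rw [mem_K] at hy
  simp only at hy
  unfold x0 at *
  rw [ne_iff] at h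
  rcases (by omega : κ = -1 ∨ κ = 0 ∨ 0 < κ) with h1 | h1 | h1
  · subst h1
    have h2 : Lx m L (-1) = 0 := by
      unfold Lx
      rw [if_neg (by omega)]
    rw [h2] at hy
    have h3 : α = 0 := by omega
    subst h3
    rw [Lft_same]
    unfold lf oct
    simp only
    split_ifs <;> omega
  · rw [Lft_succ (by omega)]
    unfold c3
    split_ifs <;> omega
  · rw [Lft_far1 (by omega)]
    omega

lemma Lft_y {y y' : Rp} (h : Nb y y') (hy : y ∈ K m L) (hy' : y' ∈ K m L) (h1 : x0 ≠ y)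
    (h2 : x0 ≠ y') : dl (oo x0 y' - oo x0 y) = Lft x0 y' - Lft x0 y := by
  have h3 := Lft_x0_bd hy h1
  have h4 := Lft_x0_bd hy' h2
  have h5 := dl_y (oo_y h h1 h2)
  have h6 := dl_mod (oo x0 y' - oo x0 y)
  have h7 := Lft_mod x0 y
  have h8 := Lft_mod x0 y'
  omega

lemma Lft_last {x y : Rp} (h : Nb x y) (hx : x ∈ K m L) (hy : Bd m L y) :
    -2 ≤ Lft x y - 2 * dir y ∧ Lft x y - 2 * dir y ≤ 2 := by
  unfold Bd at hy
  rw [mem_K] at hx
  rcases h with h | h
  · cases h with
    | a k a b =>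
      simp only at hx hy
      rw [Lft_same]
      unfold lf oct dir
      simp only
      split_ifs <;> omega
    | b k a b =>
      simp only at hx hy
      rw [Lft_same]
      unfold lf oct dir
      simp only
      split_ifs <;> omega
    | c k b =>
      simp only at hx hy
      rw [Lft_succ rfl]
      unfold c3 dir
      simp only
      split_ifs <;> omega
  · cases h with
    | a k a b =>
      simp only at hx hy
      rw [Lft_same]
      unfold lf oct dir
      simp only
      split_ifs <;> omega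
    | b k a b =>
      simp only at hx hy
      rw [Lft_same]
      unfold lf oct dir
      simp only
      split_ifs <;> omega
    | c k b =>
      simp only at hx hy
      rw [Lft_pred (k := k + 1) (by omega)]
      unfold c7 dir
      simp only
      split_ifs <;> omega

lemma ang_bd {y : Rp} (hy : Bd m L y) : ang y = 2 * dir y + 1 := by
  unfold Bd at hy
  unfold ang dir
  split_ifs <;> omega

end Turn

open Turn in
theorem turn_path {m : ℕ} {L : ℤ → ℕ} {ω : Finset (Sym2 Vtx)} {N : ℕ} (γ : ℕ → Rp) (h0 : γ 0 = x0)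
    (hs : ∀ n < N, γ (n + 1) = raw ω (γ n)) (hinj : ∀ i j, i < j → j ≤ N → γ i ≠ γ j)
    (hK : ∀ n ≤ N, γ n ∈ K m L) (hN : opn (γ N) ∉ K m L) :
    ∑ n ∈ range N, eps ω (γ n) = dir (γ N) := by
  have hbd := bd_of_opn (hK N le_rfl) hN
  rcases Nat.eq_zero_or_pos N with hz | hpos
  · subst hz
    rw [h0]
    simp [dir, x0]
  obtain ⟨M, rfl⟩ : ∃ M, N = M + 1 := ⟨N - 1, by omega⟩
  have hst : ∀ i < M + 1, Nb (γ i) (γ (i + 1)) ∧
      (oo (γ i) (γ (i + 1)) - ang (γ i) - eps ω (γ i)) % 8 = 0 ∧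
      (ang (γ (i + 1)) - ang (γ i) - 2 * eps ω (γ i)) % 8 = 0 := by
    intro i hi
    rw [hs i hi]
    exact step_raw ω (γ i)
  have H := hopf_abs (fun i j => oo (γ i) (γ j)) (M + 1)
    (fun i j hij hj => dl_y (oo_y (hst j (by omega)).1 (hinj i j hij (by omega))
      (hinj i (j + 1) (by omega) (by omega))))
    (fun i j hij hj => dl_x (oo_x (hst i (by omega)).1 (hinj i j (by omega) hj)
      (hinj (i + 1) j hij hj)))
  simp only [Nat.add_sub_cancel] at H
  have hturn : ∀ i ∈ range M, (dl (oo (γ i) (γ (i + 2)) - oo (γ i) (γ (i + 1)))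
      + dl (oo (γ (i + 1)) (γ (i + 2)) - oo (γ i) (γ (i + 2)))) = eps ω (γ i) + eps ω (γ (i + 1)) := by
    intro i hi
    have hi' : i < M := mem_range.mp hi
    have o1 := hst i (by omega)
    have o2 := hst (i + 1) (by omega)
    rw [show i + 1 + 1 = i + 2 by rfl] at o2
    have a1 := dl_y (oo_y o2.1 (hinj i (i + 1) (by omega) (by omega))
      (hinj i (i + 2) (by omega) (by omega)))
    have a2 := dl_x (oo_x o1.1 (hinj i (i + 2) (by omega) (by omega))
      (hinj (i + 1) (i + 2) (by omega) (by omega)))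
    have b1 := dl_mod (oo (γ i) (γ (i + 2)) - oo (γ i) (γ (i + 1)))
    have b2 := dl_mod (oo (γ (i + 1)) (γ (i + 2)) - oo (γ i) (γ (i + 2)))
    have e1 := eps_cases ω (γ i)
    have e2 := eps_cases ω (γ (i + 1))
    obtain ⟨_, o1a, o1b⟩ := o1
    obtain ⟨_, o2a, o2b⟩ := o2
    generalize dl (oo (γ i) (γ (i + 2)) - oo (γ i) (γ (i + 1))) = d1 at *
    generalize dl (oo (γ (i + 1)) (γ (i + 2)) - oo (γ i) (γ (i + 2))) = d2 at *
    omega
  rw [sum_congr rfl hturn] at H
  have S1 : ∑ t ∈ range M, dl (oo (γ 0) (γ (t + 2)) - oo (γ 0) (γ (t + 1)))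
      = Lft (γ 0) (γ (M + 1)) - Lft (γ 0) (γ 1) := by
    rw [← Finset.sum_range_sub (fun t => Lft (γ 0) (γ (t + 1))) M]
    apply sum_congr rfl
    intro t ht
    have ht' : t < M := mem_range.mp ht
    have n1 := hinj 0 (t + 1) (by omega) (by omega)
    have n2 := hinj 0 (t + 2) (by omega) (by omega)
    rw [h0] at n1 n2 ⊢
    exact Lft_y (hst (t + 1) (by omega)).1 (hK _ (by omega)) (hK _ (by omega)) n1 n2
  have S2 : ∑ s ∈ range M, dl (oo (γ (s + 1)) (γ (M + 1)) - oo (γ s) (γ (M + 1)))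
      = Lft (γ M) (γ (M + 1)) - Lft (γ 0) (γ (M + 1)) := by
    rw [← Finset.sum_range_sub (fun s => Lft (γ s) (γ (M + 1))) M]
    apply sum_congr rfl
    intro s hs'
    have hs'' : s < M := mem_range.mp hs'
    exact Lft_x (hst s (by omega)).1 (hK _ (by omega)) (hK _ (by omega))
      (hinj s (M + 1) (by omega) le_rfl) (hinj (s + 1) (M + 1) (by omega) le_rfl) hbd
  rw [S1, S2] at H
  have S3 : ∑ i ∈ range M, (eps ω (γ i) + eps ω (γ (i + 1)))
      = 2 * (∑ n ∈ range (M + 1), eps ω (γ n)) - eps ω (γ 0) - eps ω (γ M) := by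
    rw [sum_add_distrib]
    have q1 : ∑ i ∈ range M, eps ω (γ i) = (∑ n ∈ range (M + 1), eps ω (γ n)) - eps ω (γ M) := by
      rw [sum_range_succ]; ring
    have q2 : ∑ i ∈ range M, eps ω (γ (i + 1)) =
        (∑ n ∈ range (M + 1), eps ω (γ n)) - eps ω (γ 0) := by
      rw [sum_range_succ']; ring
    rw [q1, q2]; ring
  rw [S3] at H
  have hang : ∀ n ≤ M + 1, (ang (γ n) - 1 - 2 * ∑ i ∈ range n, eps ω (γ i)) % 8 = 0 := by
    intro n
    induction n with
    | zero =>
      intro _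
      rw [h0]
      simp [ang, x0]
    | succ n ih =>
      intro hn
      have h1 := ih (by omega)
      have h2 := (hst n (by omega)).2.2
      rw [sum_range_succ]
      omega
  have hfin := hang (M + 1) le_rfl
  rw [ang_bd hbd] at hfin
  have hlast := Lft_last (hst M (by omega)).1 (hK M (by omega)) hbd
  have hfirst : Lft (γ 0) (γ 1) = 1 + eps ω (γ 0) := by
    have h1 := Lft_mod (γ 0) (γ 1)
    have h2 := (hst 0 (by omega)).2.1
    rw [zero_add] at h2
    have h3 : ang (γ 0) = 1 := by rw [h0]; simp [ang, x0]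
    have h4 := eps_cases ω (γ 0)
    have n1 := hinj 0 1 (by omega) (by omega)
    rw [h0] at n1
    have h5 := Lft_x0_bd (hK 1 (by omega)) n1
    rw [← h0] at h5
    omega
  have h4 := eps_cases ω (γ M)
  omega

end Pool.Agent.H95.Wedge
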