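import Pool.Agent.H95.Wedge.DynDefs
import Pool.Agent.H95.Wedge.Dyn

/-!
Parity of crossings: the exploration path from the first corner to the last one separates the clusters
from each other, counted modulo two.
-/

namespace Pool.Agent.H95.Wedge

open Finset Function Filter Topology

/-- indicator modulo two -/
noncomputable def wdi (P : Prop) : ZMod 2 := by
  classical exact if P then 1 else 0

lemma wdi_pos {P : Prop} (h : P) : wdi P = 1 := by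
  unfold wdi; exact if_pos h

lemma wdi_neg {P : Prop} (h : ¬ P) : wdi P = 0 := by
  unfold wdi; exact if_neg h

lemma wdi_congr {P Q : Prop} (h : P ↔ Q) : wdi P = wdi Q := by
  rw [show P = Q from propext h]

lemma wdi_eq (P : Prop) [Decidable P] : wdi P = if P then 1 else 0 := by
  by_cases h : P
  · rw [wdi_pos h, if_pos h]
  · rw [wdi_neg h, if_neg h]

/-- corners whose head lies on the outward ray of a vertex -/
def wdCut (v : Vtx) (p : Rp) : Prop :=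
  (p.2.1 % 2 = 0 ∧ p.2.2 % 2 = 0 ∧ v.2.2 = 0 ∧ p.1 + 1 = v.1 ∧ p.2.1 = 0 ∧ 2 * v.2.1 ≤ p.2.2) ∨
  (p.2.1 % 2 = 0 ∧ p.2.2 % 2 = 1 ∧ p.1 = v.1 ∧ 2 * v.2.1 ≤ p.2.1 ∧ p.2.2 + 1 = 2 * v.2.2) ∨
  (p.2.1 % 2 = 1 ∧ p.2.2 % 2 = 0 ∧ p.1 = v.1 ∧ 2 * v.2.1 + 1 ≤ p.2.1 ∧ p.2.2 = 2 * v.2.2)

lemma wd_cls_cases (κ : ℤ) (a b : ℕ) :
    (a % 2 = 0 ∧ b % 2 = 0 ∧ a = 0 ∧ cls (κ, a, b) = (κ + 1, b, 0)) ∨
    (a % 2 = 0 ∧ b % 2 = 0 ∧ a ≠ 0 ∧ cls (κ, a, b) = (κ, a - 1, b)) ∨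
    (a % 2 = 0 ∧ b % 2 = 1 ∧ cls (κ, a, b) = (κ, a, b + 1)) ∨
    (a % 2 = 1 ∧ b % 2 = 0 ∧ b = 0 ∧ cls (κ, a, b) = (κ - 1, 0, a)) ∨
    (a % 2 = 1 ∧ b % 2 = 0 ∧ b ≠ 0 ∧ cls (κ, a, b) = (κ, a, b - 1)) ∨
    (a % 2 = 1 ∧ b % 2 = 1 ∧ cls (κ, a, b) = (κ, a + 1, b)) := by
  unfold cls
  simp only
  rcases Nat.mod_two_eq_zero_or_one a with ha | ha <;>
  rcases Nat.mod_two_eq_zero_or_one b with hb | hb <;>
  by_cases ha0 : a = 0 <;> by_cases hb0 : b = 0 <;>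
  simp [ha, hb, ha0, hb0]

lemma wd_mate_h (k : ℤ) (i j : ℕ) :
    (j = 0 ∧ mate (k, 2 * i + 1, 2 * j) = (k - 1, 0, 2 * i)) ∨
    (j ≠ 0 ∧ mate (k, 2 * i + 1, 2 * j) = (k, 2 * i, 2 * j - 1)) := by
  unfold mate
  simp only
  have h1 : ¬ ((2 * i + 1) % 2 = 0) := by omega
  have h2 : (2 * j) % 2 = 0 := by omega
  rw [if_neg h1, if_pos h2]
  by_cases hj : j = 0
  · left
    simp [hj]
  · right
    simp [hj]

lemma wd_mate_v (k : ℤ) (i j : ℕ) :
    (i = 0 ∧ mate (k, 2 * i, 2 * j) = (k + 1, 2 * j + 1, 0)) ∨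
    (i ≠ 0 ∧ mate (k, 2 * i, 2 * j) = (k, 2 * i - 1, 2 * j + 1)) := by
  unfold mate
  simp only
  have h1 : (2 * i) % 2 = 0 := by omega
  have h2 : (2 * j) % 2 = 0 := by omega
  rw [if_pos h1, if_pos h2]
  by_cases hj : i = 0
  · left
    simp [hj]
  · right
    simp [hj]

lemma wd_T1 (k : ℤ) (i j : ℕ) (hi : 1 ≤ i) (p : Rp) :
    wdi (wdCut (k, i, j) p) + wdi (wdCut (k, i + 1, j) p)
      + wdi (p = (k, 2 * i + 1, 2 * j) ∨ p = mate (k, 2 * i + 1, 2 * j)) = 0 := by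
  obtain ⟨κ, a, b⟩ := p
  simp only [wdi_eq, wdCut]
  rcases Nat.mod_two_eq_zero_or_one a with ha | ha <;>
  rcases Nat.mod_two_eq_zero_or_one b with hb | hb <;>
  rcases wd_mate_h k i j with ⟨hj, e⟩ | ⟨hj, e⟩ <;> rw [e] <;>
  simp only [Prod.mk.injEq, ha, hb, hj, true_and, false_and, and_false, or_false,
    false_or, zero_ne_one, one_ne_zero] <;>
  split_ifs <;> first | decide | (exfalso; omega) |
      (exfalso; simp only [and_false, false_and, or_false, false_or] at * <;> omega)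

lemma wd_T1' (k : ℤ) (p : Rp) :
    wdi (wdCut (k, 1, 0) p) + wdi (p = (k, 2 * 0 + 1, 2 * 0) ∨ p = mate (k, 2 * 0 + 1, 2 * 0))
      = wdi (k ≤ p.1) + wdi (k ≤ (cls p).1) := by
  obtain ⟨κ, a, b⟩ := p
  rcases wd_mate_h k 0 0 with ⟨hj, e⟩ | ⟨hj, e⟩
  · rw [e]
    rcases wd_cls_cases κ a b with ⟨ha, hb, h0, e2⟩ | ⟨ha, hb, h0, e2⟩ | ⟨ha, hb, e2⟩ |
      ⟨ha, hb, h0, e2⟩ | ⟨ha, hb, h0, e2⟩ | ⟨ha, hb, e2⟩ <;> rw [e2] <;>
    simp only [wdi_eq, wdCut, Prod.mk.injEq, ha, hb, true_and, false_and, and_false, or_false,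
      false_or, zero_ne_one, one_ne_zero] <;>
    split_ifs <;> first | decide | (exfalso; omega) |
      (exfalso; simp only [and_false, false_and, or_false, false_or] at * <;> omega)
  · exact absurd rfl hj

lemma wd_T2 (k : ℤ) (i j : ℕ) (hi : 1 ≤ i) (p : Rp) :
    wdi (wdCut (k, i, j) p) + wdi (wdCut (k, i, j + 1) p)
      + wdi (p = (k, 2 * i, 2 * j) ∨ p = mate (k, 2 * i, 2 * j))
      = wdi (p.1 = k ∧ 2 * i ≤ p.2.1 ∧ (p.2.2 = 2 * j ∨ p.2.2 = 2 * j + 1))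
        + wdi ((cls p).1 = k ∧ 2 * i ≤ (cls p).2.1 ∧ ((cls p).2.2 = 2 * j ∨ (cls p).2.2 = 2 * j + 1)) := by
  obtain ⟨κ, a, b⟩ := p
  rcases wd_mate_v k i j with ⟨hj, e⟩ | ⟨hj, e⟩
  · omega
  · rw [e]
    rcases wd_cls_cases κ a b with ⟨ha, hb, h0, e2⟩ | ⟨ha, hb, h0, e2⟩ | ⟨ha, hb, e2⟩ |
      ⟨ha, hb, h0, e2⟩ | ⟨ha, hb, h0, e2⟩ | ⟨ha, hb, e2⟩ <;> rw [e2] <;>
    simp only [wdi_eq, wdCut, Prod.mk.injEq, ha, hb, true_and, false_and, and_false, or_false,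
      false_or, zero_ne_one, one_ne_zero] <;>
    split_ifs <;> first | decide | (exfalso; omega) |
      (exfalso; simp only [and_false, false_and, or_false, false_or] at * <;> omega)

lemma wd_T3 (k : ℤ) (j : ℕ) (hj : 1 ≤ j) (p : Rp) :
    wdi (wdCut (k, 1, j) p) + wdi (wdCut (k + 1, j, 0) p)
      + wdi (p = (k, 2 * 0 + 1, 2 * j) ∨ p = mate (k, 2 * 0 + 1, 2 * j))
      = wdi (p.1 = k ∧ 2 * j ≤ p.2.2) + wdi ((cls p).1 = k ∧ 2 * j ≤ (cls p).2.2) := by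
  obtain ⟨κ, a, b⟩ := p
  rcases wd_mate_h k 0 j with ⟨hj, e⟩ | ⟨hj, e⟩
  · omega
  · rw [e]
    rcases wd_cls_cases κ a b with ⟨ha, hb, h0, e2⟩ | ⟨ha, hb, h0, e2⟩ | ⟨ha, hb, e2⟩ |
      ⟨ha, hb, h0, e2⟩ | ⟨ha, hb, h0, e2⟩ | ⟨ha, hb, e2⟩ <;> rw [e2] <;>
    simp only [wdi_eq, wdCut, Prod.mk.injEq, ha, hb, true_and, false_and, and_false, or_false,
      false_or, zero_ne_one, one_ne_zero] <;>
    split_ifs <;> first | decide | (exfalso; omega) |
      (exfalso; simp only [and_false, false_and, or_false, false_or] at * <;> omega)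

lemma wd_opn_cases (κ : ℤ) (a b : ℕ) :
    (a % 2 = 0 ∧ b % 2 = 0 ∧ opn (κ, a, b) = (κ, a, b + 1)) ∨
    (a % 2 = 0 ∧ b % 2 = 1 ∧ opn (κ, a, b) = (κ, a + 1, b)) ∨
    (a % 2 = 1 ∧ b % 2 = 0 ∧ opn (κ, a, b) = (κ, a - 1, b)) ∨
    (a % 2 = 1 ∧ b % 2 = 1 ∧ opn (κ, a, b) = (κ, a, b - 1)) := by
  unfold opn
  simp only
  rcases Nat.mod_two_eq_zero_or_one a with ha | ha <;>
  rcases Nat.mod_two_eq_zero_or_one b with hb | hb <;>
  simp [ha, hb]

lemma wd_o2 (k : ℤ) (i j : ℕ) (p : Rp) :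
    ((opn p).1 = k ∧ 2 * i ≤ (opn p).2.1 ∧ ((opn p).2.2 = 2 * j ∨ (opn p).2.2 = 2 * j + 1)) ↔
      (p.1 = k ∧ 2 * i ≤ p.2.1 ∧ (p.2.2 = 2 * j ∨ p.2.2 = 2 * j + 1)) := by
  obtain ⟨κ, a, b⟩ := p
  rcases wd_opn_cases κ a b with ⟨ha, hb, e⟩ | ⟨ha, hb, e⟩ | ⟨ha, hb, e⟩ | ⟨ha, hb, e⟩ <;>
  rw [e] <;> simp only <;> omega

lemma wd_o3 (k : ℤ) (j : ℕ) (p : Rp) :
    ((opn p).1 = k ∧ 2 * j ≤ (opn p).2.2) ↔ (p.1 = k ∧ 2 * j ≤ p.2.2) := by
  obtain ⟨κ, a, b⟩ := p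
  rcases wd_opn_cases κ a b with ⟨ha, hb, e⟩ | ⟨ha, hb, e⟩ | ⟨ha, hb, e⟩ | ⟨ha, hb, e⟩ <;>
  rw [e] <;> simp only <;> omega

lemma wd_o1 (k : ℤ) (p : Rp) : (k ≤ (opn p).1) ↔ (k ≤ p.1) := by
  obtain ⟨κ, a, b⟩ := p
  rcases wd_opn_cases κ a b with ⟨ha, hb, e⟩ | ⟨ha, hb, e⟩ | ⟨ha, hb, e⟩ | ⟨ha, hb, e⟩ <;>
  rw [e]

/-- number modulo two of closed steps starting in a set of corners -/
noncomputable def wdn (ω : Finset (Sym2 Vtx)) (N : ℕ) (γ : ℕ → Rp) (A : Rp → Prop) : ZMod 2 :=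
  ∑ n ∈ range N, wdi (head (γ n) ∉ ω) * wdi (A (γ n))

lemma wd_tele {ω : Finset (Sym2 Vtx)} {N : ℕ} {γ : ℕ → Rp} (hs : ∀ n < N, γ (n + 1) = raw ω (γ n))
    (A B C S : Rp → Prop)
    (hc : ∀ p, wdi (A p) + wdi (B p) + wdi (C p) = wdi (S p) + wdi (S (cls p)))
    (ho : ∀ p, S (opn p) ↔ S p) :
    wdn ω N γ A + wdn ω N γ B + wdn ω N γ C = wdi (S (γ 0)) + wdi (S (γ N)) := by
  have h1 : ∀ n ∈ range N, wdi (head (γ n) ∉ ω) * wdi (A (γ n)) + wdi (head (γ n) ∉ ω) * wdi (B (γ n))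
      + wdi (head (γ n) ∉ ω) * wdi (C (γ n)) = wdi (S (γ (n + 1))) - wdi (S (γ n)) := by
    intro n hn
    rw [hs n (mem_range.mp hn), ← mul_add, ← mul_add, hc]
    unfold raw
    by_cases h : head (γ n) ∈ ω
    · rw [if_pos h, wdi_neg (not_not.mpr h), wdi_congr (ho (γ n))]
      ring
    · rw [if_neg h, wdi_pos h, CharTwo.sub_eq_add]
      ring
  unfold wdn
  rw [← sum_add_distrib, ← sum_add_distrib, sum_congr rfl h1, sum_range_sub (fun n => wdi (S (γ n))),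
    CharTwo.sub_eq_add]
  ring

/-- the parity attached to a vertex; it is one at the tip -/
noncomputable def wdw (ω : Finset (Sym2 Vtx)) (N : ℕ) (γ : ℕ → Rp) (v : Vtx) : ZMod 2 :=
  if v = (0, 0, 0) then 1 else wdn ω N γ (wdCut v)

/-- number modulo two of closed steps with a given head -/
noncomputable def wdh (ω : Finset (Sym2 Vtx)) (N : ℕ) (γ : ℕ → Rp) (e : Sym2 Vtx) : ZMod 2 :=
  wdn ω N γ (fun p => head p = e)

lemma wd_head_h (k : ℤ) (i j : ℕ) : head (k, 2 * i + 1, 2 * j) = s(pt k i j, pt k (i + 1) j) := by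
  have h1 : opn (k, 2 * i + 1, 2 * j) = (k, 2 * i, 2 * j) := by
    rcases wd_opn_cases k (2 * i + 1) (2 * j) with ⟨ha, hb, e⟩ | ⟨ha, hb, e⟩ | ⟨ha, hb, e⟩ | ⟨ha, hb, e⟩
    · omega
    · omega
    · rw [e]; rfl
    · omega
  unfold head vtx
  rw [h1]
  simp only
  rw [show (2 * i + 1 + 1) / 2 = i + 1 by omega, show (2 * j + 1) / 2 = j by omega,
    show (2 * i + 1) / 2 = i by omega]
  exact Sym2.eq_swap

lemma wd_head_v (k : ℤ) (i j : ℕ) : head (k, 2 * i, 2 * j) = s(pt k i j, pt k i (j + 1)) := by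
  have h1 : opn (k, 2 * i, 2 * j) = (k, 2 * i, 2 * j + 1) := by
    rcases wd_opn_cases k (2 * i) (2 * j) with ⟨ha, hb, e⟩ | ⟨ha, hb, e⟩ | ⟨ha, hb, e⟩ | ⟨ha, hb, e⟩
    · rw [e]
    · omega
    · omega
    · omega
  unfold head vtx
  rw [h1]
  simp only
  rw [show (2 * i + 1) / 2 = i by omega, show (2 * j + 1) / 2 = j by omega,
    show (2 * j + 1 + 1) / 2 = j + 1 by omega]

lemma wd_pt_zero (k : ℤ) (j : ℕ) : pt k 0 j = pt (k + 1) j 0 := by
  unfold pt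
  by_cases hj : j = 0
  · simp [hj]
  · simp [hj]

lemma wd_pt_pos (k : ℤ) {i : ℕ} (j : ℕ) (hi : i ≠ 0) : pt k i j = (k, i, j) := by
  unfold pt
  rw [if_neg hi]

lemma wd_w_pos (ω : Finset (Sym2 Vtx)) (N : ℕ) (γ : ℕ → Rp) (k : ℤ) {i : ℕ} (j : ℕ) (hi : i ≠ 0) :
    wdw ω N γ (k, i, j) = wdn ω N γ (wdCut (k, i, j)) := by
  unfold wdw
  rw [if_neg]
  simp only [Prod.mk.injEq, not_and]
  intro _ h
  exact absurd h hi

lemma wd_h_eq (ω : Finset (Sym2 Vtx)) (N : ℕ) (γ : ℕ → Rp) (p1 : Rp) :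
    wdh ω N γ (head p1) = wdn ω N γ (fun p => p = p1 ∨ p = mate p1) := by
  unfold wdh wdn
  refine sum_congr rfl fun n _ => ?_
  rw [wdi_congr (P := head (γ n) = head p1) (Q := γ n = p1 ∨ γ n = mate p1)]
  rw [eq_comm]
  exact head_eq_iff p1 (γ n)

lemma wd_hor {m : ℕ} {ω : Finset (Sym2 Vtx)} {N : ℕ} {γ : ℕ → Rp} (h0 : γ 0 = x0) (hN : γ N = xe m)
    (hs : ∀ n < N, γ (n + 1) = raw ω (γ n)) (k : ℤ) (i j : ℕ)
    (hk : i = 0 → j = 0 → 0 ≤ k ∧ k ≤ m) :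
    wdw ω N γ (pt k i j) + wdw ω N γ (pt k (i + 1) j) = wdh ω N γ s(pt k i j, pt k (i + 1) j) := by
  rw [← wd_head_h, wd_h_eq, wd_pt_pos k j (Nat.succ_ne_zero i), wd_w_pos _ _ _ _ _ (Nat.succ_ne_zero i)]
  by_cases hi : i = 0
  · subst hi
    by_cases hj : j = 0
    · subst hj
      obtain ⟨hk0, hk1⟩ := hk rfl rfl
      have h1 := wd_tele hs (fun _ => False) (wdCut (k, 0 + 1, 0))
        (fun p => p = (k, 2 * 0 + 1, 2 * 0) ∨ p = mate (k, 2 * 0 + 1, 2 * 0)) (fun p => k ≤ p.1)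
        (fun p => by
          rw [wdi_neg (not_false), zero_add]
          exact wd_T1' k p) (fun p => wd_o1 k p)
      have h2 : wdn ω N γ (fun _ => False) = 0 := by
        unfold wdn
        refine sum_eq_zero fun n _ => ?_
        rw [wdi_neg (not_false), mul_zero]
      have h3 : wdi (k ≤ (γ 0).1) = 0 := by
        rw [h0]; apply wdi_neg; unfold x0; simp only; omega
      have h4 : wdi (k ≤ (γ N).1) = 1 := by
        rw [hN]; apply wdi_pos; unfold xe; simp only; omega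
      rw [h2, h3, h4, zero_add, zero_add] at h1
      have h5 : wdw ω N γ (pt k 0 0) = 1 := by
        unfold wdw pt
        simp
      rw [h5]
      have h6 : wdn ω N γ (fun p => p = (k, 2 * 0 + 1, 2 * 0) ∨ p = mate (k, 2 * 0 + 1, 2 * 0))
          = 1 - wdn ω N γ (wdCut (k, 0 + 1, 0)) := by linear_combination h1
      rw [h6, CharTwo.sub_eq_add]
    · have h1 := wd_tele hs (wdCut (k, 1, j)) (wdCut (k + 1, j, 0))
        (fun p => p = (k, 2 * 0 + 1, 2 * j) ∨ p = mate (k, 2 * 0 + 1, 2 * j))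
        (fun p => p.1 = k ∧ 2 * j ≤ p.2.2) (fun p => wd_T3 k j (by omega) p) (fun p => wd_o3 k j p)
      have h3 : wdi ((γ 0).1 = k ∧ 2 * j ≤ (γ 0).2.2) = 0 := by
        rw [h0]; apply wdi_neg; unfold x0; simp only; omega
      have h4 : wdi ((γ N).1 = k ∧ 2 * j ≤ (γ N).2.2) = 0 := by
        rw [hN]; apply wdi_neg; unfold xe; simp only; omega
      rw [h3, h4, zero_add] at h1
      rw [wd_pt_zero, wd_pt_pos (k + 1) 0 hj, wd_w_pos _ _ _ _ _ hj]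
      rw [CharTwo.add_eq_zero] at h1
      rw [← h1]
      ring
  · rw [wd_pt_pos k j hi, wd_w_pos _ _ _ _ _ hi]
    have h1 := wd_tele hs (wdCut (k, i, j)) (wdCut (k, i + 1, j))
        (fun p => p = (k, 2 * i + 1, 2 * j) ∨ p = mate (k, 2 * i + 1, 2 * j)) (fun _ => False)
        (fun p => by rw [wd_T1 k i j (by omega) p, wdi_neg (not_false), zero_add]) (fun p => Iff.rfl)
    rw [wdi_neg (not_false), zero_add, CharTwo.add_eq_zero] at h1
    exact h1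

lemma wd_ver {m : ℕ} {ω : Finset (Sym2 Vtx)} {N : ℕ} {γ : ℕ → Rp} (h0 : γ 0 = x0) (hN : γ N = xe m)
    (hs : ∀ n < N, γ (n + 1) = raw ω (γ n)) (k : ℤ) (i j : ℕ)
    (hk : i = 0 → j = 0 → 0 ≤ k + 1 ∧ k + 1 ≤ m) :
    wdw ω N γ (pt k i j) + wdw ω N γ (pt k i (j + 1)) = wdh ω N γ s(pt k i j, pt k i (j + 1)) := by
  by_cases hi : i = 0
  · subst hi
    rw [wd_pt_zero k j, wd_pt_zero k (j + 1)]
    exact wd_hor h0 hN hs (k + 1) j 0 (fun h1 h2 => hk rfl h1)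
  · rw [← wd_head_v, wd_h_eq, wd_pt_pos k j hi, wd_pt_pos k (j + 1) hi, wd_w_pos _ _ _ _ _ hi,
      wd_w_pos _ _ _ _ _ hi]
    have h1 := wd_tele hs (wdCut (k, i, j)) (wdCut (k, i, j + 1))
        (fun p => p = (k, 2 * i, 2 * j) ∨ p = mate (k, 2 * i, 2 * j))
        (fun p => p.1 = k ∧ 2 * i ≤ p.2.1 ∧ (p.2.2 = 2 * j ∨ p.2.2 = 2 * j + 1))
        (fun p => wd_T2 k i j (by omega) p) (fun p => wd_o2 k i j p)
    have h3 : wdi ((γ 0).1 = k ∧ 2 * i ≤ (γ 0).2.1 ∧ ((γ 0).2.2 = 2 * j ∨ (γ 0).2.2 = 2 * j + 1)) = 0 := by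
      rw [h0]; apply wdi_neg; unfold x0; simp only; omega
    have h4 : wdi ((γ N).1 = k ∧ 2 * i ≤ (γ N).2.1 ∧ ((γ N).2.2 = 2 * j ∨ (γ N).2.2 = 2 * j + 1)) = 0 := by
      rw [hN]; apply wdi_neg; unfold xe; simp only; omega
    rw [h3, h4, zero_add, CharTwo.add_eq_zero] at h1
    exact h1

/-- the main parity relation -/
lemma wd_main {m : ℕ} {L : ℤ → ℕ} {ω : Finset (Sym2 Vtx)} {N : ℕ} {γ : ℕ → Rp} (h0 : γ 0 = x0)
    (hN : γ N = xe m) (hs : ∀ n < N, γ (n + 1) = raw ω (γ n)) {p : Rp} (hp : p ∈ K m L)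
    (hpe : p ≠ xe m) :
    wdw ω N γ (vtx p) + wdw ω N γ (vtx (opn p)) = wdh ω N γ (head p) := by
  obtain ⟨κ, a, b⟩ := p
  rw [mem_K] at hp
  simp only at hp
  rcases wd_opn_cases κ a b with ⟨ha, hb, e⟩ | ⟨ha, hb, e⟩ | ⟨ha, hb, e⟩ | ⟨ha, hb, e⟩
  · have h1 := wd_ver h0 hN hs κ (a / 2) (b / 2) (fun h1 h2 => by
      have h3 : κ ≠ m := by
        rintro rfl
        apply hpe
        unfold xe
        have h4 : a = 0 := by omega
        have h5 : b = 0 := by omega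
        rw [h4, h5]
      omega)
    unfold head
    rw [e]
    unfold vtx
    simp only
    rw [show (a + 1) / 2 = a / 2 by omega, show (b + 1) / 2 = b / 2 by omega,
      show (b + 1 + 1) / 2 = b / 2 + 1 by omega]
    exact h1
  · have h1 := wd_hor h0 hN hs κ (a / 2) ((b + 1) / 2) (fun h1 h2 => by omega)
    unfold head
    rw [e]
    unfold vtx
    simp only
    rw [show (a + 1) / 2 = a / 2 by omega, show (a + 1 + 1) / 2 = a / 2 + 1 by omega]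
    exact h1
  · have h1 := wd_hor h0 hN hs κ (a / 2) (b / 2) (fun h1 h2 => by
      have h3 : 1 ≤ Lx m L κ := by omega
      unfold Lx at h3
      split_ifs at h3
      · assumption
      · omega)
    unfold head
    rw [e]
    unfold vtx
    simp only
    rw [show (a + 1) / 2 = a / 2 + 1 by omega, show (b + 1) / 2 = b / 2 by omega,
      show (a - 1 + 1) / 2 = a / 2 by omega, Sym2.eq_swap, add_comm]
    exact h1
  · have h1 := wd_ver h0 hN hs κ (a / 2 + 1) (b / 2) (fun h1 h2 => by omega)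
    unfold head
    rw [e]
    unfold vtx
    simp only
    rw [show (a + 1) / 2 = a / 2 + 1 by omega, show (b + 1) / 2 = b / 2 + 1 by omega,
      show (b - 1 + 1) / 2 = b / 2 by omega, Sym2.eq_swap, add_comm]
    exact h1

lemma wd_h_zero {ω : Finset (Sym2 Vtx)} {N : ℕ} {γ : ℕ → Rp} {e : Sym2 Vtx} (he : e ∈ ω) :
    wdh ω N γ e = 0 := by
  unfold wdh wdn
  refine sum_eq_zero fun n _ => ?_
  by_cases h : head (γ n) = e
  · rw [wdi_neg (P := head (γ n) ∉ ω), zero_mul]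
    rw [h]
    exact not_not.mpr he
  · rw [wdi_neg h, mul_zero]

lemma wd_edge {m : ℕ} {L : ℤ → ℕ} {ω : Finset (Sym2 Vtx)} (hω : ω ⊆ edges m L) {N : ℕ} {γ : ℕ → Rp}
    (h0 : γ 0 = x0) (hN : γ N = xe m) (hs : ∀ n < N, γ (n + 1) = raw ω (γ n)) {u v : Vtx}
    (h : s(u, v) ∈ ω) : wdw ω N γ u = wdw ω N γ v := by
  have h1 := hω h
  unfold edges at h1
  simp only [mem_biUnion, mem_Ico, mem_union, mem_image, mem_product, mem_range, Prod.exists] at h1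
  obtain ⟨k, hk, h2⟩ := h1
  rcases h2 with ⟨i, j, hij, e⟩ | ⟨i, j, hij, e⟩
  · have h3 := wd_hor h0 hN hs k i j (fun _ _ => by omega)
    rw [e, wd_h_zero h, CharTwo.add_eq_zero] at h3
    rw [Sym2.eq_iff] at e
    rcases e with ⟨e1, e2⟩ | ⟨e1, e2⟩
    · rw [← e1, ← e2, h3]
    · rw [← e1, ← e2, h3]
  · have h3 := wd_ver h0 hN hs k i j (fun _ _ => by omega)
    rw [e, wd_h_zero h, CharTwo.add_eq_zero] at h3
    rw [Sym2.eq_iff] at e
    rcases e with ⟨e1, e2⟩ | ⟨e1, e2⟩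
    · rw [← e1, ← e2, h3]
    · rw [← e1, ← e2, h3]

lemma wd_const {m : ℕ} {L : ℤ → ℕ} {ω : Finset (Sym2 Vtx)} (hω : ω ⊆ edges m L) {N : ℕ} {γ : ℕ → Rp}
    (h0 : γ 0 = x0) (hN : γ N = xe m) (hs : ∀ n < N, γ (n + 1) = raw ω (γ n)) {u v : Vtx}
    (h : (openGraph ω).Reachable u v) : wdw ω N γ u = wdw ω N γ v := by
  obtain ⟨p⟩ := h
  induction p with
  | nil => rfl
  | cons hadj p ih =>
    rw [← ih]
    refine wd_edge hω h0 hN hs ?_
    unfold openGraph at hadj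
    rw [SimpleGraph.fromEdgeSet_adj] at hadj
    exact hadj.1

theorem wind_both {m : ℕ} {L : ℤ → ℕ} {ω : Finset (Sym2 Vtx)} (hm : 1 ≤ m) (hω : ω ⊆ edges m L) {N : ℕ}
    (γ : ℕ → Rp) (h0 : γ 0 = x0) (hN : γ N = xe m)
    (hs : ∀ n < N, γ (n + 1) = raw ω (γ n)) (hinj : ∀ i j, i < j → j ≤ N → γ i ≠ γ j)
    (hK : ∀ n ≤ N, γ n ∈ K m L) {p : Rp} (hp : p ∈ K m L) (hp2 : opn p ∈ K m L) (hpo : head p ∉ ω)
    (hr : (openGraph ω).Reachable (vtx p) (vtx (opn p))) (hv : ∃ n ≤ N, γ n = p) :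
    ∃ n ≤ N, γ n = mate p := by
  have hpe : p ≠ xe m := by
    rintro rfl
    rw [mem_K] at hp2
    unfold xe at hp2
    rcases wd_opn_cases (m : ℤ) 0 0 with ⟨ha, hb, e⟩ | ⟨ha, hb, e⟩ | ⟨ha, hb, e⟩ | ⟨ha, hb, e⟩
    · rw [e] at hp2
      simp only [Lx] at hp2
      rw [if_neg (show ¬ (0 ≤ (m : ℤ) + 1 ∧ (m : ℤ) + 1 ≤ m) by omega)] at hp2
      omega
    · omega
    · omega
    · omega
  have h1 := wd_main h0 hN hs hp hpe
  rw [wd_const hω h0 hN hs hr, CharTwo.add_self_eq_zero, wd_h_eq] at h1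
  obtain ⟨n0, hn0, e0⟩ := hv
  have hn1 : n0 < N := by
    rcases hn0.lt_or_eq with h | h
    · exact h
    · exfalso
      apply hpe
      rw [← e0, h, hN]
  by_contra hcon
  push Not at hcon
  have h2 : wdn ω N γ (fun p' => p' = p ∨ p' = mate p) = 1 := by
    unfold wdn
    rw [sum_eq_single n0]
    · rw [wdi_pos (show head (γ n0) ∉ ω by rw [e0]; exact hpo), wdi_pos (Or.inl e0), one_mul]
    · intro n hn hne
      rw [mem_range] at hn
      rw [wdi_neg (P := γ n = p ∨ γ n = mate p), mul_zero]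
      rintro (h | h)
      · rcases lt_or_gt_of_ne hne with hlt | hgt
        · exact hinj n n0 hlt hn0 (by rw [h, e0])
        · exact hinj n0 n hgt hn.le (by rw [h, e0])
      · exact hcon n hn.le h
    · intro h
      exact absurd (mem_range.mpr hn1) h
  rw [h2] at h1
  exact absurd h1 (by decide)

theorem wind_slot {m : ℕ} {L : ℤ → ℕ} {ω : Finset (Sym2 Vtx)} (hm : 1 ≤ m) (hω : ω ⊆ edges m L) {N : ℕ}
    (γ : ℕ → Rp) (h0 : γ 0 = x0) (hN : γ N = xe m)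
    (hs : ∀ n < N, γ (n + 1) = raw ω (γ n)) (hinj : ∀ i j, i < j → j ≤ N → γ i ≠ γ j)
    (hK : ∀ n ≤ N, γ n ∈ K m L) {p : Rp} (hp : p ∈ K m L) (hp2 : opn p ∉ K m L)
    (hr : (openGraph ω).Reachable (0, 0, 0) (vtx p)) : ∃ n ≤ N, γ n = p := by
  by_cases hpe : p = xe m
  · exact ⟨N, le_rfl, by rw [hN, hpe]⟩
  have h1 := wd_main h0 hN hs hp hpe
  have hw1 : wdw ω N γ (vtx p) = 1 := by
    rw [← wd_const hω h0 hN hs hr]
    unfold wdw
    rw [if_pos rfl]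
  have hshape := (opn_not_mem_K hp).mp hp2
  obtain ⟨κ, a, b⟩ := p
  simp only at hshape
  have hpK := hp
  rw [mem_K] at hpK
  simp only at hpK
  have hw2 : wdw ω N γ (vtx (opn (κ, a, b))) = 0 := by
    rcases hshape with ⟨ha, hb, hb2⟩ | ⟨ha, hb, hb2⟩
    · rcases wd_opn_cases κ a b with ⟨ha', hb', e⟩ | ⟨ha', hb', e⟩ | ⟨ha', hb', e⟩ | ⟨ha', hb', e⟩
      · rw [e]
        unfold vtx
        simp only
        rw [show (a + 1) / 2 = a / 2 by omega, show (b + 1 + 1) / 2 = Lx m L (κ + 1) + 1 by omega]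
        by_cases ha0 : a = 0
        · rw [show a / 2 = 0 by omega, wd_pt_zero, wd_pt_pos _ _ (Nat.succ_ne_zero _),
            wd_w_pos _ _ _ _ _ (Nat.succ_ne_zero _)]
          unfold wdn
          refine sum_eq_zero fun n hn => ?_
          rw [wdi_neg (P := wdCut _ (γ n)), mul_zero]
          have h3 := hK n (mem_range.mp hn).le
          rw [mem_K] at h3
          generalize γ n = p' at h3
          obtain ⟨κ', a', b'⟩ := p'
          unfold wdCut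
          simp only at h3 ⊢
          rintro (h4 | h4 | h4)
          · rw [h4.2.2.2.1] at h3
            omega
          · omega
          · rw [h4.2.2.1] at h3
            omega
        · rw [wd_pt_pos _ _ (show a / 2 ≠ 0 by omega), wd_w_pos _ _ _ _ _ (show a / 2 ≠ 0 by omega)]
          unfold wdn
          refine sum_eq_zero fun n hn => ?_
          rw [wdi_neg (P := wdCut _ (γ n)), mul_zero]
          have h3 := hK n (mem_range.mp hn).le
          rw [mem_K] at h3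
          generalize γ n = p' at h3
          obtain ⟨κ', a', b'⟩ := p'
          unfold wdCut
          simp only at h3 ⊢
          rintro (h4 | h4 | h4)
          · omega
          · rw [h4.2.2.1] at h3
            omega
          · rw [h4.2.2.1] at h3
            omega
      · omega
      · omega
      · omega
    · rcases wd_opn_cases κ a b with ⟨ha', hb', e⟩ | ⟨ha', hb', e⟩ | ⟨ha', hb', e⟩ | ⟨ha', hb', e⟩
      · omega
      · rw [e]
        unfold vtx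
        simp only
        rw [show (a + 1 + 1) / 2 = Lx m L κ + 1 by omega, wd_pt_pos _ _ (Nat.succ_ne_zero _),
            wd_w_pos _ _ _ _ _ (Nat.succ_ne_zero _)]
        unfold wdn
        refine sum_eq_zero fun n hn => ?_
        rw [wdi_neg (P := wdCut _ (γ n)), mul_zero]
        have h3 := hK n (mem_range.mp hn).le
        rw [mem_K] at h3
        generalize γ n = p' at h3
        obtain ⟨κ', a', b'⟩ := p'
        unfold wdCut
        simp only at h3 ⊢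
        rintro (h4 | h4 | h4)
        · omega
        · rw [h4.2.2.1] at h3
          omega
        · rw [h4.2.2.1] at h3
          omega
      · omega
      · omega
  rw [hw1, hw2, add_zero, wd_h_eq] at h1
  by_contra hcon
  push Not at hcon
  have hmate : ∀ n ≤ N, γ n ≠ mate (κ, a, b) := by
    intro n hn h
    have h3 := hK n hn
    rw [h, mem_K] at h3
    unfold mate at h3
    simp only at h3
    rcases hshape with ⟨ha, hb, hb2⟩ | ⟨ha, hb, hb2⟩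
    · rw [if_pos ha, if_pos hb] at h3
      by_cases ha0 : a = 0
      · rw [if_pos ha0] at h3
        simp only at h3
        omega
      · rw [if_neg ha0] at h3
        simp only at h3
        omega
    · rw [if_pos ha, if_neg (show ¬ (b % 2 = 0) by omega)] at h3
      simp only at h3
      omega
  have h2 : wdn ω N γ (fun p' => p' = (κ, a, b) ∨ p' = mate (κ, a, b)) = 0 := by
    unfold wdn
    refine sum_eq_zero fun n hn => ?_
    rw [mem_range] at hn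
    rw [wdi_neg (P := γ n = (κ, a, b) ∨ γ n = mate (κ, a, b)), mul_zero]
    rintro (h | h)
    · exact hcon n hn.le h
    · exact hmate n hn.le h
  rw [h2] at h1
  exact absurd h1 (by decide)

end Pool.Agent.H95.Wedge
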