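import Pool.Agent.H95.Wedge.Orb
import Pool.Agent.H95.Wedge.FK
import Pool.Agent.H95.Wedge.Dyn
import Pool.Agent.H95.Wedge.Turn
import Pool.Agent.H95.Wedge.Wind

/-!
The exact boundary identity of the finite wedge.
-/

namespace Pool.Agent.H95.Wedge

open Function Finset
open Pool.Agent.H95.SumRule (Cyc tt tt_succ Gc Gc_eq Gc_eq_zero prim prim_succ sum_Gc
  exists_cyc_of_finite)

section
variable {m : ℕ} {L : ℤ → ℕ} {ω : Finset (Sym2 Vtx)}

lemma iter_mem_K (hm : 1 ≤ m) (hω : ω ⊆ edges m L) {p : Rp} (hp : p ∈ K m L) (n : ℕ) :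
    (stp m ω)^[n] p ∈ K m L := by
  induction n with
  | zero => exact hp
  | succ n ih => rw [iterate_succ_apply']; exact stp_mem_K hm hω ih

lemma exists_cyc (hm : 1 ≤ m) (hω : ω ⊆ edges m L) {p : Rp} (hp : p ∈ K m L) :
    ∃ T, Cyc (stp m ω) p T :=
  exists_cyc_of_finite (stp_injective m ω) (K := (K m L : Set Rp)) (finite_toSet _)
    (fun n => iter_mem_K hm hω hp n)

lemma last_corner (hm : 1 ≤ m) (hω : ω ⊆ edges m L) {T : ℕ} (hT : Cyc (stp m ω) x0 T) :
    (stp m ω)^[T - 1] x0 = xe m := by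
  apply stp_injective m ω
  rw [← iterate_succ_apply' (stp m ω), show (T - 1).succ = T by have := hT.pos; omega, hT.ret,
    stp_xe hm hω]

/-- the facts about the path from the first to the last corner -/
lemma path_facts (hm : 1 ≤ m) (hω : ω ⊆ edges m L) {T : ℕ} (hT : Cyc (stp m ω) x0 T) {N : ℕ}
    (hN : N < T) :
    (∀ n < N, (stp m ω)^[n + 1] x0 = raw ω ((stp m ω)^[n] x0)) ∧
    (∀ i j, i < j → j ≤ N → (stp m ω)^[i] x0 ≠ (stp m ω)^[j] x0) ∧
    (∀ n ≤ N, (stp m ω)^[n] x0 ∈ K m L) := by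
  refine ⟨?_, ?_, fun n _ => iter_mem_K hm hω (x0_mem_K m L) n⟩
  · intro n hn
    rw [iterate_succ_apply']
    apply stp_eq_raw hm hω (iter_mem_K hm hω (x0_mem_K m L) n)
    intro h
    have := hT.inj (stp_injective m ω) (m := n) (n := T - 1) (by omega) (by omega)
      (h.trans (last_corner hm hω hT).symm)
    omega
  · intro i j hij hj he
    have := hT.inj (stp_injective m ω) (m := i) (n := j) (by omega) (by omega) he
    omega

/-- turn at a boundary corner -/
lemma turn_slot (hm : 1 ≤ m) (hω : ω ⊆ edges m L) {T : ℕ} (hT : Cyc (stp m ω) x0 T) {N : ℕ}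
    (hN : N < T) (h : opn ((stp m ω)^[N] x0) ∉ K m L) :
    tt (stp m ω) (eps ω) x0 N = dir ((stp m ω)^[N] x0) := by
  obtain ⟨h1, h2, h3⟩ := path_facts hm hω hT hN
  exact turn_path (fun n => (stp m ω)^[n] x0) rfl h1 h2 h3 h

lemma xe_slot (m : ℕ) (L : ℤ → ℕ) : opn (xe m) ∉ K m L := by
  rw [mem_K]
  simp [opn, xe, Lx]

lemma total_turn (hm : 1 ≤ m) (hω : ω ⊆ edges m L) {T : ℕ} (hT : Cyc (stp m ω) x0 T) :
    tt (stp m ω) (eps ω) x0 T = m + 2 := by
  have hl := last_corner hm hω hT
  have hp := hT.pos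
  have h3 := turn_slot hm hω hT (N := T - 1) (by omega) (by rw [hl]; exact xe_slot m L)
  have e : T = (T - 1) + 1 := by omega
  rw [e, tt_succ, h3, hl]
  have h4 : head (xe m) ∉ ω := by
    intro h
    exact xe_slot m L ((head_mem_edges hm (xe_mem_K m L)).mp (hω h))
  simp [dir, xe, eps, show head ((m : ℤ), 0, 0) ∉ ω from h4]
  ring

lemma reach_iter (hm : 1 ≤ m) (hω : ω ⊆ edges m L) {T : ℕ} (hT : Cyc (stp m ω) x0 T) (n : ℕ)
    (hn : n < T) : (openGraph ω).Reachable (0, 0, 0) (vtx ((stp m ω)^[n] x0)) := by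
  obtain ⟨h1, h2, h3⟩ := path_facts hm hω hT hn
  have key : ∀ k, k ≤ n → (openGraph ω).Reachable (0, 0, 0) (vtx ((stp m ω)^[k] x0)) := by
    intro k
    induction k with
    | zero =>
      intro _
      have : vtx ((stp m ω)^[0] x0) = (0, 0, 0) := by simp [vtx, x0, pt]
      rw [this]
    | succ k ih =>
      intro hk
      rw [h1 k (by omega)]
      have ih' := ih (by omega)
      unfold raw
      split_ifs with h
      · refine ih'.trans (SimpleGraph.Adj.reachable ?_)
        rw [openGraph_adj]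
        exact ⟨h, vtx_ne _⟩
      · rw [vtx_cls]; exact ih'
  exact key n le_rfl

/-- the period of the first corner -/
noncomputable def per (m : ℕ) (ω : Finset (Sym2 Vtx)) : ℕ := by
  classical
  exact if h : ∃ T, Cyc (stp m ω) x0 T then h.choose else 0

lemma per_cyc (hm : 1 ≤ m) (hω : ω ⊆ edges m L) : Cyc (stp m ω) x0 (per m ω) := by
  classical
  have h := exists_cyc hm hω (x0_mem_K m L)
  unfold per
  rw [dif_pos h]
  exact h.choose_spec

/-- contribution of a corner -/
noncomputable def GG (φ : ℤ → ℝ) (m : ℕ) (ω : Finset (Sym2 Vtx)) (p : Rp) : ℝ :=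
  Gc φ (stp m ω) (eps ω) x0 (per m ω) p

lemma eps_cases (ω : Finset (Sym2 Vtx)) (p : Rp) : eps ω p = 1 ∨ eps ω p = -1 := by
  unfold eps; split_ifs <;> simp

lemma eps_of_mem {p : Rp} (h : head p ∈ ω) : eps ω p = -1 := by simp [eps, h]
lemma eps_of_not_mem {p : Rp} (h : head p ∉ ω) : eps ω p = 1 := by simp [eps, h]

lemma prim_eq (φ : ℤ → ℝ) (n : ℕ) : prim φ (n + 1 : ℤ) = ∑ j ∈ Icc (0 : ℤ) n, φ j := by
  unfold prim
  rw [Finset.Ico_eq_empty (by omega : ¬ ((n : ℤ) + 1 < 0))]
  simp only [sum_empty, sub_zero]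
  apply sum_congr _ (fun _ _ => rfl)
  ext j; simp only [mem_Ico, mem_Icc]; omega

/-- telescoping over one configuration -/
lemma sum_GG (hm : 1 ≤ m) (hω : ω ⊆ edges m L) (φ : ℤ → ℝ) :
    ∑ p ∈ K m L, GG φ m ω p = ∑ j ∈ Icc (0 : ℤ) (m + 1), φ j := by
  have hT := per_cyc hm hω
  unfold GG
  rw [sum_Gc (eps_cases ω) _ (fun n _ => iter_mem_K hm hω (x0_mem_K m L) n), total_turn hm hω hT]
  have := prim_eq φ (m + 1)
  push_cast at this
  rw [show (m : ℤ) + 2 = m + 1 + 1 by ring, this]

/-- contribution of a boundary corner -/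
lemma GG_slot (hm : 1 ≤ m) (hω : ω ⊆ edges m L) (φ : ℤ → ℝ) {p : Rp} (hp : p ∈ K m L)
    (hp2 : opn p ∉ K m L) [Decidable ((openGraph ω).Reachable (0, 0, 0) (vtx p))] :
    GG φ m ω p = if (openGraph ω).Reachable (0, 0, 0) (vtx p) then φ (dir p) else 0 := by
  have hT := per_cyc hm hω
  have hh : head p ∉ ω := fun h => hp2 ((head_mem_edges hm hp).mp (hω h))
  by_cases hr : (openGraph ω).Reachable (0, 0, 0) (vtx p)
  · rw [if_pos hr]
    obtain ⟨h1, h2, h3⟩ := path_facts hm hω hT (N := per m ω - 1) (by have := hT.pos; omega)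
    obtain ⟨n, hn, hv⟩ := wind_slot hm hω (fun n => (stp m ω)^[n] x0) rfl
      (last_corner hm hω hT) h1 h2 h3 hp hp2 hr
    have hv : (stp m ω)^[n] x0 = p := hv
    have hn' : n < per m ω := by have := hT.pos; omega
    unfold GG
    rw [Gc_eq (stp_injective m ω) hT hn' hv, if_pos (eps_of_not_mem hh)]
    have := turn_slot hm hω hT hn' (by rw [hv]; exact hp2)
    rw [this, hv]
  · rw [if_neg hr]
    unfold GG
    apply Gc_eq_zero
    intro n hn hcc
    apply hr
    rw [← hcc]
    exact reach_iter hm hω hT n hn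

/-- visits of the two corners of a closed tile with connected ends -/
lemma both_visited (hm : 1 ≤ m) (hω : ω ⊆ edges m L) {T : ℕ} (hT : Cyc (stp m ω) x0 T) {p : Rp}
    (hp : p ∈ K m L) (hp2 : opn p ∈ K m L) (hpo : head p ∉ ω)
    (hr : (openGraph ω).Reachable (vtx p) (vtx (opn p))) (hv : ∃ n < T, (stp m ω)^[n] x0 = p) :
    ∃ n < T, (stp m ω)^[n] x0 = mate p := by
  have hT0 := hT.pos
  obtain ⟨h1, h2, h3⟩ := path_facts hm hω hT (N := T - 1) (by omega)
  obtain ⟨n, hn, hc⟩ := hv
  obtain ⟨n', hn', hc'⟩ := wind_both hm hω (fun n => (stp m ω)^[n] x0) rfl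
      (last_corner hm hω hT) h1 h2 h3 hp hp2 hpo hr ⟨n, by omega, hc⟩
  exact ⟨n', by omega, hc'⟩

/-- the local relation at a random tile -/
lemma local_GG (hm : 1 ≤ m) {q : ℝ} (hq : 0 < q) {φ : ℤ → ℝ}
    (hφ : ∀ t, φ (t + 1) + φ (t - 1) = √q * φ t) (hω : ω ⊆ edges m L) {p : Rp}
    (hp : p ∈ K m L) (hp2 : opn p ∈ K m L) (hn : head p ∉ ω) :
    W q (verts m L) ω * (GG φ m ω p + GG φ m ω (mate p)) +
    W q (verts m L) (insert (head p) ω) *
      (GG φ m (insert (head p) ω) p + GG φ m (insert (head p) ω) (mate p)) = 0 := by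
  set ω' := insert (head p) ω with hω'def
  have hpe : head p ∈ edges m L := (head_mem_edges hm hp).mpr hp2
  have hω' : ω' ⊆ edges m L := insert_subset hpe hω
  have hm1 : mate p ∈ K m L := mate_mem_K hp hp2
  have hm2 : opn (mate p) ∈ K m L := (head_mem_edges hm hm1).mp (by rw [head_mate]; exact hpe)
  have hT := per_cyc hm hω
  have hT' := per_cyc hm hω'
  have hmem : head p ∈ ω' := mem_insert_self _ _
  have hmem2 : head (mate p) ∈ ω' := by rw [head_mate]; exact hmem
  have hn2 : head (mate p) ∉ ω := by rw [head_mate]; exact hn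
  have hreach : ∀ {c : Rp}, (∃ n < per m ω, (stp m ω)^[n] x0 = c) →
      (openGraph ω).Reachable (0, 0, 0) (vtx c) := by
    rintro c ⟨n, hn, rfl⟩; exact reach_iter hm hω hT n hn
  have hadj : vtx p ≠ vtx (opn p) := vtx_ne p
  have hV1 : vtx p ∈ verts m L := vtx_mem_verts hm hp
  have hV2 : vtx (opn p) ∈ verts m L := vtx_mem_verts hm hp2
  unfold GG
  apply local_rel' (r := √q) hφ (stp_injective m ω) (stp_injective m ω') hT hT'
    (exists_cyc hm hω hp) (exists_cyc hm hω hm1) (mate_ne p).symm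
  · unfold stp raw
    rw [if_pos hmem, if_neg hn2, cls_mate]
  · unfold stp raw
    rw [if_pos hmem2, if_neg hn, opn_mate]
  · intro c hc1 hc2
    have hne : head c ≠ head p := by
      intro hh
      rcases (head_eq_iff p c).mp hh.symm with h3 | h3
      · exact hc1 h3
      · exact hc2 h3
    by_cases hin : head c ∈ ω
    · have hin' : head c ∈ ω' := mem_insert_of_mem hin
      unfold stp raw
      rw [if_pos hin, if_pos hin', eps_of_mem hin, eps_of_mem hin']
      exact ⟨rfl, rfl⟩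
    · have hin' : head c ∉ ω' := by
        intro h'
        rcases mem_insert.mp h' with h4 | h4
        · exact hne h4
        · exact hin h4
      unfold stp raw
      rw [if_neg hin, if_neg hin', eps_of_not_mem hin, eps_of_not_mem hin']
      exact ⟨rfl, rfl⟩
  · exact eps_of_not_mem hn
  · exact eps_of_not_mem hn2
  · exact eps_of_mem hmem
  · exact eps_of_mem hmem2
  · rw [total_turn hm hω hT, total_turn hm hω' hT']
  · intro v1 v2
    have hr : (openGraph ω).Reachable (vtx p) (vtx (opn p)) := by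
      have := (hreach v1).symm.trans (hreach v2)
      rwa [vtx_mate] at this
    exact W_insert_of_reach hq hadj hn hr
  · intro v1 v2
    apply W_insert_of_not_reach hq hadj hV1 hV2 hn
    intro hr
    obtain ⟨n, hn', hc⟩ := both_visited hm hω hT hp hp2 hn hr v1
    exact v2 n hn' hc
  · intro v1 v2
    apply W_insert_of_not_reach hq hadj hV1 hV2 hn
    intro hr
    have hmv : vtx (opn (mate p)) = vtx p := by rw [opn_mate, vtx_cls]
    obtain ⟨n, hn', hc⟩ := both_visited hm hω hT hm1 hm2 hn2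
      (by rw [hmv, vtx_mate]; exact hr.symm) v1
    rw [mate_mate] at hc
    exact v2 n hn' hc

/-- the expected contribution of a random tile vanishes -/
lemma sum_tile (hm : 1 ≤ m) {q : ℝ} (hq : 0 < q) {φ : ℤ → ℝ}
    (hφ : ∀ t, φ (t + 1) + φ (t - 1) = √q * φ t) {p : Rp} (hp : p ∈ K m L) (hp2 : opn p ∈ K m L) :
    ∑ ω ∈ (edges m L).powerset, W q (verts m L) ω * (GG φ m ω p + GG φ m ω (mate p)) = 0 := by
  classical
  have hpe : head p ∈ edges m L := (head_mem_edges hm hp).mpr hp2
  apply sum_involution (fun ω _ => if head p ∈ ω then ω.erase (head p) else insert (head p) ω)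
  · intro ω hω
    rw [mem_powerset] at hω
    by_cases hin : head p ∈ ω
    · rw [if_pos hin]
      have := local_GG hm hq hφ ((erase_subset (head p) ω).trans hω) hp hp2 (notMem_erase _ _)
      rw [insert_erase hin] at this
      linarith
    · rw [if_neg hin]
      exact local_GG hm hq hφ hω hp hp2 hin
  · intro ω hω _
    by_cases hin : head p ∈ ω
    · rw [if_pos hin]
      intro h'
      have : head p ∈ ω.erase (head p) := by rw [h']; exact hin
      exact notMem_erase _ _ this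
    · rw [if_neg hin]
      intro h'
      apply hin
      rw [← h']; exact mem_insert_self _ _
  · intro ω hω
    by_cases hin : head p ∈ ω
    · simp only [if_pos hin, if_neg (notMem_erase _ _)]
      exact insert_erase hin
    · simp only [if_neg hin, if_pos (mem_insert_self _ _)]
      exact erase_insert hin
  · intro ω hω
    rw [mem_powerset] at hω
    by_cases hin : head p ∈ ω
    · simp only [if_pos hin]
      exact mem_powerset.mpr ((erase_subset _ _).trans hω)
    · simp only [if_neg hin]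
      exact mem_powerset.mpr (insert_subset hpe hω)

lemma sum_random (hm : 1 ≤ m) {q : ℝ} (hq : 0 < q) {φ : ℤ → ℝ}
    (hφ : ∀ t, φ (t + 1) + φ (t - 1) = √q * φ t) :
    ∑ p ∈ (K m L).filter (fun p => ¬ opn p ∉ K m L),
      ∑ ω ∈ (edges m L).powerset, W q (verts m L) ω * GG φ m ω p = 0 := by
  apply sum_involution (fun p _ => mate p)
  · intro p hp
    rw [mem_filter, not_not] at hp
    rw [← sum_add_distrib, ← sum_tile hm hq hφ hp.1 hp.2]
    apply sum_congr rfl
    intro ω _
    ring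
  · intro p _ _
    exact mate_ne p
  · intro p hp
    rw [mem_filter, not_not] at hp ⊢
    have hm1 : mate p ∈ K m L := mate_mem_K hp.1 hp.2
    exact ⟨hm1, (head_mem_edges hm hm1).mp (by
      rw [head_mate]; exact (head_mem_edges hm hp.1).mpr hp.2)⟩
  · intro p _
    exact mate_mate p

end

theorem slot_ident {q : ℝ} (hq : 0 < q) {m : ℕ} (hm : 1 ≤ m) (L : ℤ → ℕ) (φ : ℤ → ℝ)
    (hφ : ∀ t, φ (t + 1) + φ (t - 1) = √q * φ t) :
    ∑ p ∈ (K m L).filter (fun p => opn p ∉ K m L), φ (dir p) * GW q m L (vtx p)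
      = ∑ j ∈ Finset.Icc (0 : ℤ) (m + 1), φ j := by
  classical
  set V := verts m L with hV
  set E := edges m L with hE
  set Z : ℝ := ∑ ω ∈ E.powerset, W q V ω with hZ
  have hZpos : 0 < Z := sum_pos (fun ω _ => W_pos hq V ω) ⟨∅, by simp⟩
  have tot : ∑ p ∈ K m L, ∑ ω ∈ E.powerset, W q V ω * GG φ m ω p
      = Z * ∑ j ∈ Finset.Icc (0 : ℤ) (m + 1), φ j := by
    rw [sum_comm, hZ, sum_mul]
    apply sum_congr rfl
    intro ω hω
    rw [← mul_sum, sum_GG hm (mem_powerset.mp hω)]
  rw [← sum_filter_add_sum_filter_not (K m L) (fun p => opn p ∉ K m L), sum_random hm hq hφ,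
    add_zero] at tot
  have hs : ∀ p ∈ (K m L).filter (fun p => opn p ∉ K m L),
      ∑ ω ∈ E.powerset, W q V ω * GG φ m ω p = Z * (φ (dir p) * GW q m L (vtx p)) := by
    intro p hp
    rw [mem_filter] at hp
    have h1 := G_eq hq V E (0, 0, 0) (vtx p)
    have h2 : Z * (φ (dir p) * GW q m L (vtx p)) = φ (dir p) * (Z * G q V E (0, 0, 0) (vtx p)) := by
      unfold GW; ring
    rw [h2, hZ, h1, mul_sum]
    apply sum_congr rfl
    intro ω hω
    rw [GG_slot hm (mem_powerset.mp hω) φ hp.1 hp.2]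
    split_ifs <;> ring
  rw [sum_congr rfl hs, ← mul_sum] at tot
  exact mul_left_cancel₀ hZpos.ne' tot

end Pool.Agent.H95.Wedge
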