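import Pool.Agent.H95.SumRule.Orbit

/-!
The local relation at one tile, for orbits whose total turn does not depend on the configuration.
-/

namespace Pool.Agent.H95.Wedge

open Function Finset
open Pool.Agent.H95.SumRule (Cyc tt tt_succ split Gc Gc_eq Gc_eq_zero prim prim_succ sum_Gc one_to_both
  exists_cyc_of_finite)

variable {α : Type*} [DecidableEq α]

/-- Local relation, both corners visited by `f` -/
theorem local_both' {φ : ℤ → ℝ} {r : ℝ} (hφ : ∀ t, φ (t + 1) + φ (t - 1) = r * φ t)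
    {f f' : α → α} {e e' : α → ℤ} {c0 A B : α} {T T' i j : ℕ} {η : ℤ}
    (hf : Injective f) (hf' : Injective f') (hT : Cyc f c0 T) (hT' : Cyc f' c0 T')
    (hA : f' A = f B)
    (ho : ∀ c, c ≠ A → c ≠ B → f' c = f c ∧ e' c = e c)
    (hη : η = 1 ∨ η = -1) (eA : e A = η) (eB : e B = η) (eA' : e' A = -η)
    (ht : tt f e c0 T = tt f' e' c0 T')
    (hi : f^[i] c0 = A) (hj : f^[j] c0 = B) (hij : i < j) (hjT : j < T) :
    (Gc φ f e c0 T A + Gc φ f e c0 T B) + r * (Gc φ f' e' c0 T' A + Gc φ f' e' c0 T' B) = 0 := by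
  obtain ⟨s1, s2, s3, s4, s5⟩ := split hf hT hA ho hi hj hij hjT
  have hTT : T' = T - (j - i) := hT'.unique s1
  subst hTT
  rw [← ht, eA', eB] at s5
  have iT : i < T - (j - i) := by omega
  have g1 : Gc φ f e c0 T A = _ := Gc_eq (φ := φ) (e := e) hf hT (by omega : i < T) hi
  have g2 : Gc φ f e c0 T B = _ := Gc_eq (φ := φ) (e := e) hf hT hjT hj
  have g3 : Gc φ f' e' c0 (T - (j - i)) A = _ := Gc_eq (φ := φ) (e := e') hf' s1 iT
    ((s2 i le_rfl).trans hi)
  have g4 : Gc φ f' e' c0 (T - (j - i)) B = 0 := by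
    apply Gc_eq_zero
    intro n hn hc
    rcases Nat.lt_or_ge i n with hlt | hge
    · rw [s3 n hlt (by omega)] at hc
      have := hT.inj hf (m := n + (j - i)) (n := j) (by omega) hjT (hc.trans hj.symm)
      omega
    · rw [s2 n hge] at hc
      have := hT.inj hf (m := n) (n := j) (by omega) hjT (hc.trans hj.symm)
      omega
  rw [g1, g2, g3, g4, eA, eB, eA', s4 i le_rfl]
  have hj2 : tt f e c0 j = tt f e c0 i - 2 * η := by linarith
  rw [hj2]
  rcases hη with rfl | rfl
  · norm_num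
    have := hφ (tt f e c0 i - 1)
    rw [show tt f e c0 i - 1 + 1 = tt f e c0 i by ring, show tt f e c0 i - 1 - 1 = tt f e c0 i - 2 by ring] at this
    linarith
  · norm_num
    have := hφ (tt f e c0 i)
    rw [show tt f e c0 i + 2 - 1 = tt f e c0 i + 1 by ring]
    linarith

/-- The local relation at one tile. `f` is the closed version, `f'` the open one. -/
theorem local_rel' {φ : ℤ → ℝ} {r w w' : ℝ} (hφ : ∀ t, φ (t + 1) + φ (t - 1) = r * φ t)
    {f f' : α → α} {e e' : α → ℤ} {c0 A B : α} {T T' : ℕ}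
    (hf : Injective f) (hf' : Injective f') (hT : Cyc f c0 T) (hT' : Cyc f' c0 T')
    (hTA : ∃ T2, Cyc f A T2) (hTB : ∃ T2, Cyc f B T2)
    (hAB : A ≠ B)
    (hA : f' A = f B) (hB : f' B = f A)
    (ho : ∀ c, c ≠ A → c ≠ B → f' c = f c ∧ e' c = e c)
    (eA : e A = 1) (eB : e B = 1) (eA' : e' A = -1) (eB' : e' B = -1)
    (ht : tt f e c0 T = tt f' e' c0 T')
    (w1 : (∃ n < T, f^[n] c0 = A) → (∃ n < T, f^[n] c0 = B) → w' = r * w)
    (w2 : (∃ n < T, f^[n] c0 = A) → (∀ n < T, f^[n] c0 ≠ B) → w = r * w')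
    (w3 : (∃ n < T, f^[n] c0 = B) → (∀ n < T, f^[n] c0 ≠ A) → w = r * w') :
    w * (Gc φ f e c0 T A + Gc φ f e c0 T B) + w' * (Gc φ f' e' c0 T' A + Gc φ f' e' c0 T' B) = 0 := by
  by_cases vA : ∃ n < T, f^[n] c0 = A
  · by_cases vB : ∃ n < T, f^[n] c0 = B
    · have hw := w1 vA vB
      obtain ⟨i, hiT, hi⟩ := vA
      obtain ⟨j, hjT, hj⟩ := vB
      rcases lt_trichotomy i j with h | h | h
      · have := local_both' (η := 1) hφ hf hf' hT hT' hA ho (Or.inl rfl) eA eB eA' ht hi hj h hjT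
        rw [hw]; linear_combination w * this
      · subst h; exact absurd (hi.symm.trans hj) hAB
      · have := local_both' (η := 1) hφ hf hf' hT hT' hB (fun c h1 h2 => ho c h2 h1) (Or.inl rfl)
          eB eA eB' ht hj hi h hiT
        rw [hw]; linear_combination w * this
    · push Not at vB
      have hw := w2 vA vB
      obtain ⟨i, hiT, hi⟩ := vA
      obtain ⟨T2, hT2⟩ := hTB
      obtain ⟨j, a1, a2, a3, a4⟩ := one_to_both hf hT hT2 hT' hA (fun c h1 h2 => (ho c h1 h2).1) hi hiT vB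
      have := local_both' (η := -1) hφ hf' hf hT' hT hB.symm
        (fun c h1 h2 => ⟨((ho c h1 h2).1).symm, ((ho c h1 h2).2).symm⟩) (Or.inr rfl)
        eA' eB' (by rw [eA]; norm_num) ht.symm a1 a2 a3 a4
      rw [hw]; linear_combination w' * this
  · push Not at vA
    by_cases vB : ∃ n < T, f^[n] c0 = B
    · have hw := w3 vB vA
      obtain ⟨i, hiT, hi⟩ := vB
      obtain ⟨T2, hT2⟩ := hTA
      obtain ⟨j, a1, a2, a3, a4⟩ := one_to_both hf hT hT2 hT' hB (fun c h1 h2 => (ho c h2 h1).1) hi hiT vA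
      have := local_both' (η := -1) hφ hf' hf hT' hT hA.symm
        (fun c h1 h2 => ⟨((ho c h2 h1).1).symm, ((ho c h2 h1).2).symm⟩) (Or.inr rfl)
        eB' eA' (by rw [eB]; norm_num) ht.symm a1 a2 a3 a4
      rw [hw]; linear_combination w' * this
    · push Not at vB
      -- same orbit
      have h1 : ∀ n, f'^[n] c0 = f^[n] c0 := by
        intro n
        induction n with
        | zero => rfl
        | succ n ih =>
          rw [iterate_succ_apply', iterate_succ_apply', ih]
          refine (ho _ ?_ ?_).1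
          · rw [hT.mod n]; exact vA _ (Nat.mod_lt _ hT.pos)
          · rw [hT.mod n]; exact vB _ (Nat.mod_lt _ hT.pos)
      have z1 : Gc φ f e c0 T A = 0 := Gc_eq_zero vA
      have z2 : Gc φ f e c0 T B = 0 := Gc_eq_zero vB
      have z3 : Gc φ f' e' c0 T' A = 0 := by
        apply Gc_eq_zero
        intro n _
        rw [h1, hT.mod n]; exact vA _ (Nat.mod_lt _ hT.pos)
      have z4 : Gc φ f' e' c0 T' B = 0 := by
        apply Gc_eq_zero
        intro n _
        rw [h1, hT.mod n]; exact vB _ (Nat.mod_lt _ hT.pos)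
      rw [z1, z2, z3, z4]; ring

end Pool.Agent.H95.Wedge
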